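import Pool.Agent.TH137.DG.CatTools

/-!
# Differential graded algebras and their modules
-/

set_option autoImplicit false

namespace Pool.Agent.TH137.DG

universe v u w v' v₁ v₂ v₃ u₁ u₂

/-- a dg algebra -/
structure DGAlg (k : Type) [Field k] (A : Type) [Ring A] [Algebra k A] where
  /-- grading and differential -/
  cx : Cx k A
  one_mem : (1 : A) ∈ cx.gr 0
  mul_mem : ∀ {m n : ℤ} {a b : A}, a ∈ cx.gr m → b ∈ cx.gr n → a * b ∈ cx.gr (m + n)
  leibniz : ∀ {m : ℤ} {a : A} (b : A), a ∈ cx.gr m →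
    cx.d (a * b) = cx.d a * b + m.negOnePow • (a * cx.d b)

section

variable {k : Type} [Field k] {A : Type} [Ring A] [Algebra k A]

/-- the dg category with one object given by a dg algebra -/
def DGAlg.toCat (X : DGAlg k A) : DGCat.{0, 0} k where
  Obj := Unit
  Hom := fun _ _ => A
  cx := fun _ _ => X.cx
  one := fun _ => 1
  mul := LinearMap.mul k A
  one_mem := fun _ => X.one_mem
  mul_mem := fun hg hf => X.mul_mem hg hf
  one_mul := fun f => _root_.one_mul f
  mul_one := fun f => _root_.mul_one f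
  mul_assoc := fun h g f => _root_.mul_assoc h g f
  leibniz := fun f hg => X.leibniz f hg

/-- a left dg module over a dg algebra -/
structure DGMod (X : DGAlg k A) where
  /-- the underlying space -/
  M : Type
  [acg : AddCommGroup M]
  [modk : Module k M]
  [modA : Module A M]
  [tower : IsScalarTower k A M]
  /-- grading and differential -/
  cx : Cx k M
  smul_mem : ∀ {m n : ℤ} {a : A} {x : M}, a ∈ X.cx.gr m → x ∈ cx.gr n → a • x ∈ cx.gr (m + n)
  leibniz : ∀ {m : ℤ} {a : A} (x : M), a ∈ X.cx.gr m →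
    cx.d (a • x) = X.cx.d a • x + m.negOnePow • (a • cx.d x)

attribute [instance] DGMod.acg DGMod.modk DGMod.modA DGMod.tower

namespace DGMod

variable {X : DGAlg k A}

lemma par_smul (P : DGMod X) {m : ℤ} {a : A} (ha : a ∈ X.cx.gr m) (x : P.M) :
    P.cx.par (a • x) = m.negOnePow • (a • P.cx.par x) := by
  induction x using P.cx.induct with
  | hom i x hx =>
    rw [P.cx.par_apply (P.smul_mem ha hx), P.cx.par_apply hx, Int.negOnePow_add, mul_smul]
    rcases Int.even_or_odd i with h | h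
    · simp [Int.negOnePow_even i h]
    · simp [Int.negOnePow_odd i h]
  | h0 => simp
  | hadd x y hx hy => simp [hx, hy]

/-- the `A`-linear maps as a subspace of all linear maps -/
def lin (P Q : DGMod X) : Submodule k (P.M →ₗ[k] Q.M) where
  carrier := {φ | ∀ (a : A) x, φ (a • x) = a • φ x}
  add_mem' := fun ha hb i x => by simp [ha i x, hb i x]
  zero_mem' := fun _ _ => by simp
  smul_mem' := fun c _ ha i x => by
    simp only [LinearMap.smul_apply]
    rw [ha i x, smul_comm]

lemma lin_comp {P Q R : DGMod X} : ∀ g ∈ lin Q P, ∀ f ∈ lin R Q, g ∘ₗ f ∈ lin R P :=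
  fun g hg f hf a x => (congrArg g (hf a x)).trans (hg a (f x))

/-- the differential of linear maps -/
noncomputable def D (P Q : DGMod X) : (P.M →ₗ[k] Q.M) →ₗ[k] (P.M →ₗ[k] Q.M) where
  toFun φ := (Q.cx.d ∘ₗ φ - φ ∘ₗ P.cx.d) ∘ₗ P.cx.par
  map_add' φ ψ := by
    ext x; simp; abel
  map_smul' c φ := by
    ext x; simp [smul_sub]

lemma D_apply {P Q : DGMod X} (φ : P.M →ₗ[k] Q.M) {i : ℤ} {x : P.M} (hx : x ∈ P.cx.gr i) :
    D P Q φ x = i.negOnePow • (Q.cx.d (φ x) - φ (P.cx.d x)) := by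
  simp only [D, LinearMap.coe_mk, AddHom.coe_mk, LinearMap.sub_apply, LinearMap.comp_apply]
  rw [P.cx.par_apply hx]
  rcases Int.even_or_odd i with h | h
  · simp [Int.negOnePow_even i h]
  · simp [Int.negOnePow_odd i h]; abel

lemma D_homog {P Q : DGMod X} {n : ℤ} {φ : P.M →ₗ[k] Q.M} (h : φ ∈ homog P.cx Q.cx n) :
    D P Q φ ∈ homog P.cx Q.cx (n + 1) := by
  intro i x hx
  rw [D_apply φ hx]
  have h1 : Q.cx.d (φ x) - φ (P.cx.d x) ∈ Q.cx.gr (i + (n + 1)) := by
    apply Submodule.sub_mem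
    · have := Q.cx.d_mem (h i x hx)
      rwa [show i + (n + 1) = i + n + 1 by ring]
    · have := h _ _ (P.cx.d_mem hx)
      rwa [show i + (n + 1) = i + 1 + n by ring]
  rcases Int.even_or_odd i with h | h
  · simpa [Int.negOnePow_even i h] using h1
  · rw [Int.negOnePow_odd i h, Units.neg_smul, one_smul]
    exact Submodule.neg_mem _ h1

lemma D_lin {P Q : DGMod X} {φ : P.M →ₗ[k] Q.M} (h : φ ∈ lin P Q) :
    D P Q φ ∈ lin P Q := by
  intro a x
  induction x using P.cx.induct with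
  | hom i x hx =>
    induction a using X.cx.induct with
    | hom m a ha =>
      rw [D_apply φ (P.smul_mem ha hx), D_apply φ hx, h a x, Q.leibniz _ ha, P.leibniz _ ha,
        map_add, h, LinearMap.map_smul_of_tower, h]
      rw [Int.negOnePow_add]
      rcases Int.even_or_odd i with hi | hi <;> rcases Int.even_or_odd m with hm | hm <;>
        (simp [Int.negOnePow_even, Int.negOnePow_odd, hi, hm, smul_sub]; try abel)
    | h0 => simp
    | hadd a b ha hb => rw [add_smul, map_add, ha, hb, add_smul]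
  | h0 => simp
  | hadd x y hx hy => rw [smul_add, map_add, map_add, hx, hy, smul_add]

lemma D_D (P Q : DGMod X) (φ : P.M →ₗ[k] Q.M) : D P Q (D P Q φ) = 0 := by
  apply P.cx.hom_ext
  intro i x hx
  rw [D_apply _ hx, D_apply _ hx, D_apply _ (P.cx.d_mem hx), P.cx.d_d, map_zero, sub_zero]
  rw [LinearMap.map_smul_of_tower, map_sub, Q.cx.d_d, Int.negOnePow_succ]
  simp

end DGMod

/-- the dg category of left dg modules; a morphism from `P` to `Q` is a linear map from `Q`
to `P` -/
noncomputable def ModCat (X : DGAlg k A) : DGCat.{0, 1} k where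
  Obj := DGMod X
  Hom := fun P Q => HomL Q.cx P.cx (DGMod.lin Q P)
  cx := fun P Q => homCx (X := Q.cx) (Y := P.cx) (DGMod.lin Q P) (DGMod.D Q P)
    (fun _ _ h hL => ⟨DGMod.D_homog h, DGMod.D_lin hL⟩) (DGMod.D_D Q P)
  one := fun P => ⟨LinearMap.id, mem_homL (n := 0) (fun i x hx => by simpa using hx)
    (fun _ _ => rfl)⟩
  mul := fun {P Q R} => (compL (X := R.cx) (Y := Q.cx) (T := P.cx)
    (L₁ := DGMod.lin R Q) (L₂ := DGMod.lin Q P) (L₃ := DGMod.lin R P) DGMod.lin_comp).flip
  one_mem := fun P i x hx => by simpa using hx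
  mul_mem := fun {P Q R m n g f} hg hf => by
    have := homog_comp (show f.1 ∈ _ from hf) (show g.1 ∈ _ from hg)
    rw [add_comm] at this
    exact this
  one_mul := fun f => Subtype.ext (LinearMap.comp_id _)
  mul_one := fun f => Subtype.ext (LinearMap.id_comp _)
  mul_assoc := fun h g f => Subtype.ext (LinearMap.comp_assoc _ _ _).symm
  leibniz := fun {P Q R m g} f hg => by
    apply Subtype.ext
    apply R.cx.hom_ext
    intro i x hx
    have hg' : g.1 ∈ homog R.cx Q.cx m := hg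
    change DGMod.D R P (f.1 ∘ₗ g.1) x = f.1 (DGMod.D R Q g.1 x) +
      m.negOnePow • (DGMod.D Q P f.1 (g.1 x))
    rw [DGMod.D_apply _ hx, DGMod.D_apply _ hx, DGMod.D_apply _ (hg' i x hx)]
    rw [LinearMap.map_smul_of_tower, map_sub, Int.negOnePow_add]
    simp only [LinearMap.comp_apply]
    rcases Int.even_or_odd i with hi | hi <;> rcases Int.even_or_odd m with hm | hm <;>
      simp [Int.negOnePow_even, Int.negOnePow_odd, hi, hm]

/-- a module as an object of the dg category of modules -/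
def ob {X : DGAlg k A} (P : DGMod X) : (ModCat X).Obj := P

section fn

variable {X : DGAlg k A} {P Q R : DGMod X}

/-- the linear map underlying a morphism of modules -/
noncomputable def fn : (ModCat X).Hom (ob P) (ob Q) →ₗ[k] (Q.M →ₗ[k] P.M) :=
  (HomL Q.cx P.cx (DGMod.lin Q P)).subtype

/-- the morphism given by a homogeneous linear map -/
noncomputable def mkHom (φ : Q.M →ₗ[k] P.M) (n : ℤ) (h : φ ∈ homog Q.cx P.cx n)
    (hL : φ ∈ DGMod.lin Q P) : (ModCat X).Hom (ob P) (ob Q) :=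
  (⟨φ, mem_homL h hL⟩ : HomL Q.cx P.cx (DGMod.lin Q P))

lemma fn_mk (φ : Q.M →ₗ[k] P.M) (n : ℤ) (h : φ ∈ homog Q.cx P.cx n)
    (hL : φ ∈ DGMod.lin Q P) : fn (mkHom φ n h hL) = φ := rfl

lemma mk_mem (φ : Q.M →ₗ[k] P.M) (n : ℤ) (h : φ ∈ homog Q.cx P.cx n)
    (hL : φ ∈ DGMod.lin Q P) : mkHom φ n h hL ∈ ((ModCat X).cx (ob P) (ob Q)).gr n := h

lemma fn_mem {f : (ModCat X).Hom (ob P) (ob Q)} {n : ℤ} :
    f ∈ ((ModCat X).cx (ob P) (ob Q)).gr n ↔ fn f ∈ homog Q.cx P.cx n := Iff.rfl

lemma fn_lin (f : (ModCat X).Hom (ob P) (ob Q)) (a : A) (x : Q.M) :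
    fn f (a • x) = a • fn f x := homL_le f.2 a x

lemma fn_inj {f g : (ModCat X).Hom (ob P) (ob Q)} (h : fn f = fn g) : f = g := Subtype.ext h

lemma fn_one : fn ((ModCat X).one (ob P)) = LinearMap.id := rfl

lemma fn_mul (g : (ModCat X).Hom (ob Q) (ob R)) (f : (ModCat X).Hom (ob P) (ob Q)) (x : R.M) :
    fn ((ModCat X).mul g f) x = fn f (fn g x) := rfl

lemma fn_d (f : (ModCat X).Hom (ob P) (ob Q)) {i : ℤ} {x : Q.M} (hx : x ∈ Q.cx.gr i) :
    fn (((ModCat X).cx (ob P) (ob Q)).d f) x =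
      i.negOnePow • (P.cx.d (fn f x) - fn f (Q.cx.d x)) :=
  DGMod.D_apply (fn f) hx

lemma fn_ext {f g : (ModCat X).Hom (ob P) (ob Q)} (h : ∀ n x, x ∈ Q.cx.gr n → fn f x = fn g x) :
    f = g := fn_inj (Q.cx.hom_ext h)

end fn

/-- the dg algebra as a module over itself -/
@[reducible] noncomputable def DGAlg.self (X : DGAlg k A) : DGMod X where
  M := A
  cx := X.cx
  smul_mem := fun ha hx => X.mul_mem ha hx
  leibniz := fun x ha => X.leibniz x ha

end

end Pool.Agent.TH137.DG
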