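import Pool.Agent.TH137.DG.Tensor
import Pool.Agent.TH137.DG.Alg

/-!
# Bimodules
-/

set_option autoImplicit false

open TensorProduct

namespace Pool.Agent.TH137.DG

section ker

variable {k : Type} [Field k] {A : DGCat.{0, 0} k} {M N : Bimod A} (f : M.Hom N)

/-- the kernel of a map of bimodules -/
noncomputable def kerBimod : Bimod A where
  M := fun x y => LinearMap.ker (f.f : M.M x y →ₗ[k] N.M x y)
  cx := fun x y => kerCx (M.cx x y) (N.cx x y) f.f (f.chain x y)
  l := fun {x y z} => LinearMap.mk₂ k (fun a m => ⟨M.l a m.1, by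
      rw [LinearMap.mem_ker, f.f_l, LinearMap.mem_ker.1 m.2, map_zero]⟩)
    (fun a b m => Subtype.ext (by simp)) (fun c a m => Subtype.ext (by simp))
    (fun a m n => Subtype.ext (by simp)) (fun c a m => Subtype.ext (by simp))
  r := fun {x y z} => LinearMap.mk₂ k (fun m a => ⟨M.r m.1 a, by
      rw [LinearMap.mem_ker, f.f_r, LinearMap.mem_ker.1 m.2, map_zero, LinearMap.zero_apply]⟩)
    (fun a b m => Subtype.ext (by simp)) (fun c a m => Subtype.ext (by simp))
    (fun a m n => Subtype.ext (by simp)) (fun c a m => Subtype.ext (by simp))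
  l_mem := fun ha hm => M.l_mem ha hm
  r_mem := fun hm ha => M.r_mem hm ha
  l_one := fun m => Subtype.ext (M.l_one m.1)
  r_one := fun m => Subtype.ext (M.r_one m.1)
  l_l := fun a b m => Subtype.ext (M.l_l a b m.1)
  r_r := fun m a b => Subtype.ext (M.r_r m.1 a b)
  l_r := fun a m b => Subtype.ext (M.l_r a m.1 b)
  leib_l := fun m ha => Subtype.ext (M.leib_l m.1 ha)
  leib_r := fun {_ _ _ _ m} a hm => Subtype.ext (M.leib_r (m := m.1) a hm)

/-- the inclusion of the kernel -/
noncomputable def kerIncl : (kerBimod f).Hom M where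
  f := fun {x y} => (LinearMap.ker (f.f : M.M x y →ₗ[k] N.M x y)).subtype
  chain := fun _ _ => ⟨fun _ _ h => h, fun _ => rfl⟩
  f_l := fun _ _ => rfl
  f_r := fun _ _ => rfl

lemma ker_ses (hf : ∀ x y, Function.Surjective (f.f : M.M x y →ₗ[k] N.M x y)) :
    Bimod.ShortExact (kerIncl f) f := by
  intro x y
  refine ⟨Subtype.val_injective, hf x y, ?_⟩
  exact Submodule.range_subtype _

end ker

section one

variable {k : Type} [Field k] {A : Type} [Ring A] [Algebra k A] (X : DGAlg k A)

/-- the left action on `A ⊗ A` -/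
noncomputable def lA : A →ₗ[k] A ⊗[k] A →ₗ[k] A ⊗[k] A :=
  (LinearMap.rTensorHom A) ∘ₗ (LinearMap.mul k A)

/-- the right action on `A ⊗ A` -/
noncomputable def rA : A ⊗[k] A →ₗ[k] A →ₗ[k] A ⊗[k] A :=
  ((LinearMap.lTensorHom A) ∘ₗ (LinearMap.mul k A).flip).flip

omit [Ring A] [Algebra k A] in
lemma lA_tmul {A : Type} [Ring A] [Algebra k A] (a x y : A) :
    lA (k := k) a (x ⊗ₜ y) = (a * x) ⊗ₜ y := rfl

omit [Ring A] [Algebra k A] in
lemma rA_tmul {A : Type} [Ring A] [Algebra k A] (a x y : A) :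
    rA (k := k) (x ⊗ₜ y) a = x ⊗ₜ (y * a) := rfl

variable {X}

lemma lA_mem {s i j : ℤ} {a : A} {t : A ⊗[k] A} (ha : a ∈ X.cx.gr i)
    (ht : t ∈ tGr X.cx X.cx s j) : lA a t ∈ tGr X.cx X.cx s (i + j) := by
  induction ht using tGr_induct with
  | h p q v w hv hw e =>
    rw [lA_tmul]
    exact tmul_mem (X.mul_mem ha hv) hw (by omega)
  | h0 => simp
  | hadd a b _ _ ha hb => rw [map_add]; exact Submodule.add_mem _ ha hb
  | hs c a _ ha => rw [map_smul]; exact Submodule.smul_mem _ _ ha

lemma rA_mem {s i j : ℤ} {a : A} {t : A ⊗[k] A} (ht : t ∈ tGr X.cx X.cx s i)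
    (ha : a ∈ X.cx.gr j) : rA t a ∈ tGr X.cx X.cx s (i + j) := by
  induction ht using tGr_induct with
  | h p q v w hv hw e =>
    rw [rA_tmul]
    exact tmul_mem hv (X.mul_mem hw ha) (by omega)
  | h0 => simp
  | hadd a b _ _ ha hb => rw [map_add, LinearMap.add_apply]; exact Submodule.add_mem _ ha hb
  | hs c a _ ha => rw [map_smul, LinearMap.smul_apply]; exact Submodule.smul_mem _ _ ha

lemma lA_one (t : A ⊗[k] A) : lA (1 : A) t = t := by
  induction t using TensorProduct.induction_on with
  | zero => simp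
  | tmul v w => rw [lA_tmul, one_mul]
  | add a b ha hb => rw [map_add, ha, hb]

lemma rA_one (t : A ⊗[k] A) : rA t (1 : A) = t := by
  induction t using TensorProduct.induction_on with
  | zero => simp
  | tmul v w => rw [rA_tmul, mul_one]
  | add a b ha hb => rw [map_add, LinearMap.add_apply, ha, hb]

lemma lA_lA (a b : A) (t : A ⊗[k] A) : lA (a * b) t = lA a (lA b t) := by
  induction t using TensorProduct.induction_on with
  | zero => simp
  | tmul v w => rw [lA_tmul, lA_tmul, lA_tmul, mul_assoc]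
  | add x y hx hy => rw [map_add, hx, hy, map_add, map_add]

lemma rA_rA (a b : A) (t : A ⊗[k] A) : rA t (a * b) = rA (rA t a) b := by
  induction t using TensorProduct.induction_on with
  | zero => simp
  | tmul v w => rw [rA_tmul, rA_tmul, rA_tmul, mul_assoc]
  | add x y hx hy => simp only [map_add, LinearMap.add_apply, hx, hy]

lemma lA_rA (a b : A) (t : A ⊗[k] A) : lA a (rA t b) = rA (lA a t) b := by
  induction t using TensorProduct.induction_on with
  | zero => simp
  | tmul v w => rfl
  | add x y hx hy => simp only [map_add, LinearMap.add_apply, hx, hy]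

lemma DGAlg.par_mul' (X : DGAlg k A) {m : ℤ} {a : A} (ha : a ∈ X.cx.gr m) (b : A) :
    X.cx.par (a * b) = m.negOnePow • (a * X.cx.par b) := by
  induction b using X.cx.induct with
  | hom i x hx =>
    rw [X.cx.par_apply (X.mul_mem ha hx), X.cx.par_apply hx, Int.negOnePow_add, mul_smul]
    rcases Int.even_or_odd i with h | h
    · simp [Int.negOnePow_even i h]
    · simp [Int.negOnePow_odd i h]
  | h0 => simp
  | hadd x y hx hy => simp [mul_add, hx, hy]

lemma leib_lA (s : ℤ) {i : ℤ} {a : A} (ha : a ∈ X.cx.gr i) (t : A ⊗[k] A) :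
    tD X.cx X.cx s (lA a t) = lA (X.cx.d a) t + i.negOnePow • lA a (tD X.cx X.cx s t) := by
  induction t using TensorProduct.induction_on with
  | zero => simp
  | tmul v w =>
    rw [lA_tmul, tD_tmul, tD_tmul, X.leibniz v ha, X.par_mul' ha, lA_tmul, map_add, lA_tmul,
      LinearMap.map_smul_of_tower, lA_tmul, add_tmul]
    rcases Int.even_or_odd i with hi | hi <;> rcases Int.even_or_odd s with hs | hs <;>
      (simp [Int.negOnePow_even, Int.negOnePow_odd, hi, hs, neg_tmul]; try abel)
  | add x y hx hy => simp only [map_add, hx, hy, smul_add]; abel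

lemma leib_rA (s : ℤ) {i : ℤ} {t : A ⊗[k] A} (a : A) (ht : t ∈ tGr X.cx X.cx s i) :
    tD X.cx X.cx s (rA t a) = rA (tD X.cx X.cx s t) a + i.negOnePow • rA t (X.cx.d a) := by
  induction ht using tGr_induct with
  | h p q v w hv hw e =>
    rw [rA_tmul, tD_tmul, tD_tmul, X.leibniz a hw, X.cx.par_apply hv, map_add,
      LinearMap.add_apply, rA_tmul, rA_tmul, LinearMap.map_smul_of_tower, LinearMap.smul_apply,
      tmul_add, ← e, Int.negOnePow_add, Int.negOnePow_add]
    rcases Int.even_or_odd p with hp | hp <;> rcases Int.even_or_odd q with hq | hq <;>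
      rcases Int.even_or_odd s with hs | hs <;>
      (simp [Int.negOnePow_even, Int.negOnePow_odd, hp, hq, hs, neg_tmul, tmul_neg, rA_tmul,
        add_assoc])
  | h0 => simp
  | hadd x y _ _ hx hy => simp only [map_add, LinearMap.add_apply, hx, hy, smul_add]; abel
  | hs c x _ hx => simp only [map_smul, LinearMap.smul_apply, hx, smul_add, smul_comm c]

variable (A) in
/-- the left action -/
noncomputable def lP (n : ℕ) : A →ₗ[k] (Fin n → A ⊗[k] A) →ₗ[k] (Fin n → A ⊗[k] A) :=
  LinearMap.mk₂ k (fun a t i => lA a (t i))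
    (fun a b m => by funext i; simp) (fun c a m => by funext i; simp)
    (fun a m n => by funext i; simp) (fun c a m => by funext i; simp)

variable (A) in
/-- the right action -/
noncomputable def rP (n : ℕ) : (Fin n → A ⊗[k] A) →ₗ[k] A →ₗ[k] (Fin n → A ⊗[k] A) :=
  LinearMap.mk₂ k (fun t a i => rA (t i) a)
    (fun a b m => by funext i; simp) (fun c a m => by funext i; simp)
    (fun a m n => by funext i; simp) (fun c a m => by funext i; simp)

lemma lP_apply (n : ℕ) (a : A) (t : Fin n → A ⊗[k] A) (i : Fin n) :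
    lP (k := k) A n a t i = lA a (t i) := rfl

lemma rP_apply (n : ℕ) (a : A) (t : Fin n → A ⊗[k] A) (i : Fin n) :
    rP (k := k) A n t a i = rA (t i) a := rfl

variable (X)

/-- the complex structure of the free bimodules -/
noncomputable def FrC (n : ℕ) (δ : Fin n → ℤ) : Cx k (Fin n → A ⊗[k] A) :=
  piCx fun i => tCx X.cx X.cx (δ i)

lemma mem_FrC {n : ℕ} {δ : Fin n → ℤ} {m : ℤ} {t : Fin n → A ⊗[k] A} :
    t ∈ (FrC X n δ).gr m ↔ ∀ i, t i ∈ tGr X.cx X.cx (δ i) m := mem_piCx _

lemma FrC_d {n : ℕ} {δ : Fin n → ℤ} (t : Fin n → A ⊗[k] A) (i : Fin n) :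
    (FrC X n δ).d t i = tD X.cx X.cx (δ i) (t i) := rfl

/-- the free dg bimodules -/
noncomputable def Fr (n : ℕ) (δ : Fin n → ℤ) : Bimod X.toCat where
  M := fun _ _ => Fin n → A ⊗[k] A
  cx := fun _ _ => FrC X n δ
  l := fun {_ _ _} => lP A n
  r := fun {_ _ _} => rP A n
  l_mem := fun ha hm => (mem_FrC X).2 fun i => lA_mem ha ((mem_FrC X).1 hm i)
  r_mem := fun hm ha => (mem_FrC X).2 fun i => rA_mem (X := X) ((mem_FrC X).1 hm i) ha
  l_one := fun m => funext fun i => lA_one (m i)
  r_one := fun m => funext fun i => rA_one (m i)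
  l_l := fun a b m => funext fun i => lA_lA (A := A) a b (m i)
  r_r := fun m a b => funext fun i => rA_rA (A := A) a b (m i)
  l_r := fun a m b => funext fun i => lA_rA (A := A) a b (m i)
  leib_l := fun m ha => funext fun i => leib_lA (X := X) (δ i) ha (m i)
  leib_r := fun {_ _ _ _ _} a hm => funext fun i =>
    leib_rA (X := X) (δ i) (show A from a) ((mem_FrC X).1 hm i)

/-- a generator -/
noncomputable def ei (k : Type) [Field k] (A : Type) [Ring A] [Algebra k A] (n : ℕ) (i : Fin n) :
    Fin n → A ⊗[k] A := Pi.single i ((1 : A) ⊗ₜ[k] (1 : A))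

lemma ei_mem (n : ℕ) (δ : Fin n → ℤ) (i : Fin n) : ei k A n i ∈ (FrC X n δ).gr (δ i) := by
  rw [mem_FrC]
  intro j
  by_cases hj : j = i
  · subst hj
    rw [ei, Pi.single_eq_same]
    exact tmul_mem X.one_mem X.one_mem (by ring)
  · rw [ei, Pi.single_eq_of_ne hj]; exact Submodule.zero_mem _

lemma ei_d (n : ℕ) (δ : Fin n → ℤ) (i : Fin n) : (FrC X n δ).d (ei k A n i) = 0 := by
  funext j
  rw [FrC_d]
  by_cases hj : j = i
  · subst hj
    have h1 : X.cx.d 1 = 0 := X.toCat.d_one ()
    rw [ei, Pi.single_eq_same, tD_tmul, h1]; simp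
  · rw [ei, Pi.single_eq_of_ne hj, map_zero]; rfl

variable (k A) in
/-- the map given by the generators -/
noncomputable def genMap (n : ℕ) : (Fin n → A ⊗[k] A) →ₗ[k] (Fin n → A ⊗[k] A) :=
  LinearMap.lsum k (fun _ => A ⊗[k] A) k
    (fun i => TensorProduct.lift ((rP A n).comp ((lP A n).flip (ei k A n i))))

lemma genMap_eq (n : ℕ) (t : Fin n → A ⊗[k] A) : genMap k A n t = t := by
  rw [genMap, LinearMap.lsum_apply, LinearMap.sum_apply]
  have h1 : ∀ i (s : A ⊗[k] A), TensorProduct.lift
      ((rP A n).comp ((lP A n).flip (ei k A n i))) s = (Pi.single i s : Fin n → A ⊗[k] A) := by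
    intro i s
    induction s using TensorProduct.induction_on with
    | zero => rw [map_zero, Pi.single_zero]
    | tmul a b =>
      rw [TensorProduct.lift.tmul]
      funext j
      rw [LinearMap.comp_apply, rP_apply, LinearMap.flip_apply, lP_apply]
      by_cases hj : j = i
      · subst hj
        rw [ei, Pi.single_eq_same, Pi.single_eq_same, lA_tmul, rA_tmul, mul_one, one_mul]
      · rw [ei, Pi.single_eq_of_ne hj, Pi.single_eq_of_ne hj]; simp
    | add x y hx hy => rw [map_add, hx, hy, Pi.single_add]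
  simp only [LinearMap.comp_apply, LinearMap.proj_apply, h1]
  exact Finset.univ_sum_single t

lemma Fr_isFree (n : ℕ) (δ : Fin n → ℤ) : (Fr X n δ).IsFree := by
  refine ⟨n, fun _ => (), fun _ => (), δ, fun i => ei k A n i, fun i => ⟨ei_mem X n δ i,
    ei_d X n δ i⟩, ?_⟩
  intro _ _
  have h1 : Function.Bijective (genMap k A n) := by
    have e : (genMap k A n : (Fin n → A ⊗[k] A) → (Fin n → A ⊗[k] A)) = id :=
      funext (genMap_eq n)
    rw [e]; exact Function.bijective_id
  exact h1

end one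

end Pool.Agent.TH137.DG
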