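import Pool.Agent.TH137.DG.HomCx

/-!
# Tools for dg categories
-/

set_option autoImplicit false

namespace Pool.Agent.TH137.DG

universe v u w v' v₁ v₂ v₃ u₁ u₂

lemma Cx.d_pr {k : Type} [Field k] {V : Type v} [AddCommGroup V] [Module k V] (X : Cx k V)
    (n : ℤ) (x : V) : X.d (X.pr n x) = X.pr (n + 1) (X.d x) := by
  induction x using X.induct with
  | hom m x hx =>
    by_cases h : m = n
    · subst h; rw [X.pr_same hx, X.pr_same (X.d_mem hx)]
    · rw [X.pr_ne hx h, X.pr_ne (X.d_mem hx) (by omega), map_zero]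
  | h0 => simp
  | hadd x y hx hy => simp [hx, hy]

lemma Cx.mem_concentrated {k : Type} [Field k] {V : Type v} [AddCommGroup V] [Module k V]
    {n : ℤ} (hn : n ≠ 0) {x : V} (hx : x ∈ (Cx.concentrated k V).gr n) : x = 0 := by
  simpa only [Cx.concentrated, if_neg hn, Submodule.mem_bot] using hx

/-- an exact homogeneous element is the differential of a homogeneous element -/
lemma Cx.exact_homog {k : Type} [Field k] {V : Type v} [AddCommGroup V] [Module k V] (X : Cx k V)
    {n : ℤ} {x y : V} (hx : x ∈ X.gr (n + 1)) (h : X.d y = x) : ∃ z ∈ X.gr n, X.d z = x :=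
  ⟨X.pr n y, X.pr_mem n y, by rw [X.d_pr, h, X.pr_same hx]⟩

namespace DGCat

variable {k : Type} [Field k] (A : DGCat.{v, u} k)

lemma d_mul {x y z : A.Obj} (g : A.Hom y z) (f : A.Hom x y) :
    (A.cx x z).d (A.mul g f) = A.mul ((A.cx y z).d g) f +
      A.mul ((A.cx y z).par g) ((A.cx x y).d f) := by
  induction g using (A.cx y z).induct with
  | hom n g hg =>
    rw [A.leibniz f hg, (A.cx y z).par_apply hg]
    rw [LinearMap.map_smul_of_tower A.mul, LinearMap.smul_apply]
  | h0 => simp
  | hadd g g' h h' => simp [h, h']; abel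

lemma d_one (x : A.Obj) : (A.cx x x).d (A.one x) = 0 := by
  have h := A.leibniz (A.one x) (A.one_mem x)
  rw [A.one_mul, A.mul_one, A.one_mul] at h
  simpa using h

/-- a left factor which is closed of degree `0` -/
lemma d_mul_closed {x y z : A.Obj} {g : A.Hom y z} (hg : g ∈ (A.cx y z).gr 0)
    (hd : (A.cx y z).d g = 0) (f : A.Hom x y) :
    (A.cx x z).d (A.mul g f) = A.mul g ((A.cx x y).d f) := by
  rw [A.leibniz f hg, hd]; simp

/-- exact morphisms -/
def Ex {x y : A.Obj} (f : A.Hom x y) : Prop := ∃ h, (A.cx x y).d h = f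

variable {A}

lemma Ex.add {x y : A.Obj} {f g : A.Hom x y} (hf : A.Ex f) (hg : A.Ex g) : A.Ex (f + g) := by
  obtain ⟨a, rfl⟩ := hf; obtain ⟨b, rfl⟩ := hg
  exact ⟨a + b, map_add _ _ _⟩

lemma Ex.neg {x y : A.Obj} {f : A.Hom x y} (hf : A.Ex f) : A.Ex (-f) := by
  obtain ⟨a, rfl⟩ := hf
  exact ⟨-a, map_neg _ _⟩

lemma Ex.sub {x y : A.Obj} {f g : A.Hom x y} (hf : A.Ex f) (hg : A.Ex g) : A.Ex (f - g) := by
  rw [sub_eq_add_neg]; exact hf.add hg.neg

lemma Ex.zero {x y : A.Obj} : A.Ex (0 : A.Hom x y) := ⟨0, map_zero _⟩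

lemma Ex.smul {x y : A.Obj} {f : A.Hom x y} (c : k) (hf : A.Ex f) : A.Ex (c • f) := by
  obtain ⟨a, rfl⟩ := hf
  exact ⟨c • a, map_smul _ _ _⟩

lemma Ex.sum {x y : A.Obj} {ι : Type w} (s : Finset ι) {f : ι → A.Hom x y}
    (hf : ∀ i ∈ s, A.Ex (f i)) : A.Ex (∑ i ∈ s, f i) := by
  classical
  induction s using Finset.induction_on with
  | empty => simpa using Ex.zero
  | insert a s ha ih =>
    rw [Finset.sum_insert ha]
    exact (hf a (by simp)).add (ih fun i hi => hf i (by simp [hi]))

/-- exact morphisms are closed under multiplication by closed morphisms -/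
lemma Ex.mul_right {x y z : A.Obj} {g : A.Hom y z} (hg : A.Ex g) {f : A.Hom x y}
    (hf : (A.cx x y).d f = 0) : A.Ex (A.mul g f) := by
  obtain ⟨a, rfl⟩ := hg
  exact ⟨A.mul a f, by rw [A.d_mul, hf]; simp⟩

lemma Ex.mul_left {x y z : A.Obj} {g : A.Hom y z} (hg : (A.cx y z).d g = 0) {f : A.Hom x y}
    (hf : A.Ex f) : A.Ex (A.mul g f) := by
  obtain ⟨a, rfl⟩ := hf
  refine ⟨A.mul ((A.cx y z).par g) a, ?_⟩
  rw [A.d_mul, (A.cx y z).par_par, (A.cx y z).d_par, hg]; simp

/-- an exact endomorphism of degree `0` bounds in degree `-1` -/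
lemma Ex.homog {x y : A.Obj} {f : A.Hom x y} (hf : A.Ex f) (h0 : f ∈ (A.cx x y).gr 0) :
    ∃ h ∈ (A.cx x y).gr (-1), (A.cx x y).d h = f := by
  obtain ⟨a, ha⟩ := hf
  exact (A.cx x y).exact_homog (n := -1) (by simpa using h0) ha

lemma closed_mul {x y z : A.Obj} {g : A.Hom y z} (hg : (A.cx y z).d g = 0) {f : A.Hom x y}
    (hf : (A.cx x y).d f = 0) : (A.cx x z).d (A.mul g f) = 0 := by
  rw [A.d_mul, hf, hg]; simp

variable (A)

/-- the full dg subcategory on a family of objects -/
def induced {ι : Type w} (E : ι → A.Obj) : DGCat.{v, w} k where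
  Obj := ι
  Hom := fun i j => A.Hom (E i) (E j)
  cx := fun i j => A.cx (E i) (E j)
  one := fun i => A.one (E i)
  mul := A.mul
  one_mem := fun i => A.one_mem (E i)
  mul_mem := A.mul_mem
  one_mul := A.one_mul
  mul_one := A.mul_one
  mul_assoc := A.mul_assoc
  leibniz := A.leibniz

/-- the inclusion of a full subcategory -/
def incl {ι : Type w} (E : ι → A.Obj) : DGFun (A.induced E) A where
  obj := E
  map := LinearMap.id
  map_chain := fun _ _ => ⟨fun _ _ h => h, fun _ => rfl⟩
  map_one := fun _ => rfl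
  map_mul := fun _ _ => rfl

/-- the functor `k → A` given by an object -/
def pt (b : A.Obj) : DGFun (base k) A where
  obj := fun _ => b
  map := LinearMap.toSpanSingleton k _ (A.one b)
  map_chain := fun _ _ => by
    have h1 : ∀ (n : ℤ) (c : k), c ∈ (Cx.concentrated k k).gr n →
        c • A.one b ∈ (A.cx b b).gr n := by
      intro n c hc
      by_cases hn : n = 0
      · subst hn
        exact Submodule.smul_mem _ _ (A.one_mem b)
      · rw [Cx.mem_concentrated hn hc, zero_smul]; exact Submodule.zero_mem _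
    have h2 : ∀ c : k, (0 : k) • A.one b = (A.cx b b).d (c • A.one b) := by
      intro c
      rw [map_smul, A.d_one]; simp
    exact ⟨h1, h2⟩
  map_one := fun _ => one_smul k (A.one b)
  map_mul := fun {_ _ _} g f => by
    have h : ∀ g f : k, (g * f) • A.one b = A.mul (g • A.one b) (f • A.one b) := by
      intro g f
      rw [map_smul, map_smul, LinearMap.smul_apply, A.one_mul, smul_smul, mul_comm]
    exact h g f

end DGCat

/-- A functor followed by the inclusion in a full subcategory of the target which contains one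
more object. -/
def DGFun.plus {k : Type} [Field k] {A : DGCat.{v₁, u₁} k} {B : DGCat.{v₂, u₂} k}
    (F : DGFun A B) (b : B.Obj) :
    DGFun A (B.induced (fun o : Option A.Obj => o.elim b F.obj)) where
  obj := some
  map := F.map
  map_chain := fun x y => F.map_chain x y
  map_one := fun x => F.map_one x
  map_mul := fun g f => F.map_mul g f

section cfn

variable {k : Type} [Field k]

/-- a complex as an object of the dg category of complexes -/
def cob (X : Cpx.{v} k) : (Ch.{v} k).Obj := X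

variable {X Y Z : Cpx.{v} k}

/-- the linear map underlying a morphism of complexes -/
noncomputable def cfn : (Ch.{v} k).Hom (cob X) (cob Y) →ₗ[k] (X.V →ₗ[k] Y.V) :=
  (HomL X.cx Y.cx ⊤).subtype

/-- the morphism given by a homogeneous linear map -/
noncomputable def cmk (φ : X.V →ₗ[k] Y.V) (n : ℤ) (h : φ ∈ homog X.cx Y.cx n) :
    (Ch.{v} k).Hom (cob X) (cob Y) :=
  (⟨φ, mem_homL h trivial⟩ : HomL X.cx Y.cx ⊤)

lemma cfn_mk (φ : X.V →ₗ[k] Y.V) (n : ℤ) (h : φ ∈ homog X.cx Y.cx n) :
    cfn (cmk φ n h) = φ := rfl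

lemma cmk_mem (φ : X.V →ₗ[k] Y.V) (n : ℤ) (h : φ ∈ homog X.cx Y.cx n) :
    cmk φ n h ∈ ((Ch.{v} k).cx (cob X) (cob Y)).gr n := h

lemma cfn_inj {f g : (Ch.{v} k).Hom (cob X) (cob Y)} (h : cfn f = cfn g) : f = g := Subtype.ext h

lemma cfn_one : cfn ((Ch.{v} k).one (cob X)) = LinearMap.id := rfl

lemma cfn_mul (g : (Ch.{v} k).Hom (cob Y) (cob Z)) (f : (Ch.{v} k).Hom (cob X) (cob Y))
    (x : X.V) : cfn ((Ch.{v} k).mul g f) x = cfn g (cfn f x) := rfl

lemma cfn_d (f : (Ch.{v} k).Hom (cob X) (cob Y)) :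
    cfn (((Ch.{v} k).cx (cob X) (cob Y)).d f) = chD X.cx Y.cx (cfn f) := rfl

lemma chD_apply (φ : X.V →ₗ[k] Y.V) (x : X.V) :
    chD X.cx Y.cx φ x = Y.cx.d (φ x) - Y.cx.par (φ (X.cx.par (X.cx.d x))) := rfl

end cfn

/-- The complex of the represented functor. -/
@[reducible] noncomputable def DGCat.repC {k : Type} [Field k] (A : DGCat.{v, u} k) (V : A.Obj)
    (x : A.Obj) : Cpx.{v} k := ⟨A.Hom V x, A.cx V x⟩

/-- The functor represented by an object. -/
noncomputable def DGCat.rep {k : Type} [Field k] (A : DGCat.{v, u} k) (V : A.Obj) :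
    DGFun A (Ch.{v} k) where
  obj := fun x => ⟨A.Hom V x, A.cx V x⟩
  map := fun {x y} => LinearMap.codRestrict _ A.mul (fun g => by
    induction g using (A.cx x y).induct with
    | hom n g hg =>
      refine mem_homL (n := n) (fun i f hf => ?_) trivial
      have := A.mul_mem hg hf
      rwa [add_comm] at this
    | h0 => rw [map_zero]; exact Submodule.zero_mem _
    | hadd g g' h h' => rw [map_add]; exact Submodule.add_mem _ h h')
  map_chain := fun x y => ⟨fun n g hg i f hf => by
      have := A.mul_mem hg hf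
      rwa [add_comm] at this, fun g => by
      apply Subtype.ext
      change A.mul ((A.cx x y).d g) = chD (A.cx V x) (A.cx V y) (A.mul g)
      induction g using (A.cx x y).induct with
      | hom n g hg =>
        ext f
        have hg' : A.mul g ∈ homog (A.cx V x) (A.cx V y) n := fun i f hf => by
          have := A.mul_mem hg hf
          rwa [add_comm] at this
        rw [chD_homog hg', A.leibniz f hg]
        simp
      | h0 => simp
      | hadd g g' h h' => simp [h, h']⟩
  map_one := fun x => Subtype.ext (LinearMap.ext fun f => A.one_mul f)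
  map_mul := fun g f => Subtype.ext (LinearMap.ext fun h => A.mul_assoc g f h)

lemma DGCat.rep_map {k : Type} [Field k] (A : DGCat.{v, u} k) (V : A.Obj) {x y : A.Obj}
    (g : A.Hom x y) (f : A.Hom V x) :
    cfn (X := A.repC V x) (Y := A.repC V y) ((A.rep V).map g) f = A.mul g f := rfl

end Pool.Agent.TH137.DG
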