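import Pool.Agent.TH137.DG.Schur

/-!
# Objects with many copies of the unit as direct summands are not Schur-finite
-/

set_option autoImplicit false

open CategoryTheory MonoidalCategory

namespace Pool.Agent.TH137.DG

universe v u

variable {C : Type u} [Category.{v} C] [MonoidalCategory C]

/-- tensor products of morphisms from the unit -/
def tmap (a : C) : ∀ n, (Fin n → (𝟙_ C ⟶ a)) → (𝟙_ C ⟶ tpow a n)
  | 0, _ => 𝟙 _
  | n + 1, x => (λ_ (𝟙_ C)).inv ≫ (x 0 ⊗ₘ tmap a n (fun i => x i.succ))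

/-- tensor products of morphisms to the unit -/
def tcomap (a : C) : ∀ n, (Fin n → (a ⟶ 𝟙_ C)) → (tpow a n ⟶ 𝟙_ C)
  | 0, _ => 𝟙 _
  | n + 1, y => (y 0 ⊗ₘ tcomap a n (fun i => y i.succ)) ≫ (λ_ (𝟙_ C)).hom

lemma tmap_tcomap_one (a : C) (n : ℕ) (x : Fin n → (𝟙_ C ⟶ a)) (y : Fin n → (a ⟶ 𝟙_ C))
    (h : ∀ i, x i ≫ y i = 𝟙 _) : tmap a n x ≫ tcomap a n y = 𝟙 _ := by
  induction n with
  | zero => simp [tmap, tcomap, tpow]
  | succ n ih =>
    have e : tmap a n (fun i => x i.succ) ≫ tcomap a n (fun i => y i.succ) = 𝟙 _ :=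
      ih _ _ (fun i => h i.succ)
    simp only [tmap, tcomap, Category.assoc]
    rw [tensorHom_comp_tensorHom_assoc, h 0, e]
    simp

lemma tmap_tcomap_zero [Preadditive C] [MonoidalPreadditive C] (a : C) (n : ℕ)
    (x : Fin n → (𝟙_ C ⟶ a)) (y : Fin n → (a ⟶ 𝟙_ C))
    (h : ∃ i, x i ≫ y i = 0) : tmap a n x ≫ tcomap a n y = 0 := by
  induction n with
  | zero => exact h.choose.elim0
  | succ n ih =>
    simp only [tmap, tcomap, Category.assoc]
    rw [tensorHom_comp_tensorHom_assoc]
    obtain ⟨i, hi⟩ := h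
    induction i using Fin.cases with
    | zero => rw [hi]; simp
    | succ j =>
      have e : tmap a n (fun i => x i.succ) ≫ tcomap a n (fun i => y i.succ) = 0 :=
        ih _ _ ⟨j, hi⟩
      rw [e]; simp

variable [SymmetricCategory C]

lemma tmap_insAct (a : C) (n : ℕ) (j : Fin (n + 1)) (f : 𝟙_ C ⟶ a) (x : Fin n → (𝟙_ C ⟶ a)) :
    (λ_ (𝟙_ C)).inv ≫ (f ⊗ₘ tmap a n x) ≫ insAct a n j =
      tmap a (n + 1) (Fin.insertNth (α := fun _ => (𝟙_ C ⟶ a)) j f x) := by
  induction n with
  | zero =>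
    have hj : j = 0 := Fin.ext (by omega)
    subst hj
    simp [insAct, tmap]
  | succ n ih =>
    induction j using Fin.cases with
    | zero =>
      rw [Fin.insertNth_zero']
      simp [insAct, tmap]
    | succ j' =>
      have key := ih j' (fun i => x i.succ)
      have hR : tmap a (n + 1 + 1) (Fin.insertNth (α := fun _ => (𝟙_ C ⟶ a)) j'.succ f x) =
          (λ_ (𝟙_ C)).inv ≫ (x 0 ⊗ₘ ((λ_ (𝟙_ C)).inv ≫ (f ⊗ₘ tmap a n (fun i => x i.succ)) ≫
            insAct a n j')) := by
        rw [key]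
        have h0 : (Fin.insertNth (α := fun _ => (𝟙_ C ⟶ a)) j'.succ f x) 0 = x 0 := by
          have := Fin.insertNth_apply_succAbove (α := fun _ => (𝟙_ C ⟶ a)) j'.succ f x 0
          rwa [Fin.succ_succAbove_zero] at this
        have h1 : (fun i : Fin (n + 1) =>
            (Fin.insertNth (α := fun _ => (𝟙_ C ⟶ a)) j'.succ f x) i.succ) =
            Fin.insertNth (α := fun _ => (𝟙_ C ⟶ a)) j' f (fun i => x i.succ) := by
          funext i
          rcases Fin.eq_self_or_eq_succAbove j' i with rfl | ⟨m, rfl⟩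
          · rw [Fin.insertNth_apply_same, Fin.insertNth_apply_same]
          · rw [Fin.insertNth_apply_succAbove, ← Fin.succ_succAbove_succ,
              Fin.insertNth_apply_succAbove]
        conv_lhs => rw [tmap]
        rw [h0, h1]
      rw [hR]
      simp only [insAct, Fin.cases_succ]
      conv_lhs => rw [tmap]
      generalize tmap a n (fun i => x i.succ) = t
      generalize x 0 = y
      have e1 : (f ⊗ₘ (λ_ (𝟙_ C)).inv ≫ (y ⊗ₘ t)) ≫ (α_ a a (tpow a n)).inv =
          (𝟙_ C ◁ (λ_ (𝟙_ C)).inv) ≫ (α_ _ _ _).inv ≫ ((f ⊗ₘ y) ⊗ₘ t) := by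
        have e0 : (f ⊗ₘ (λ_ (𝟙_ C)).inv ≫ (y ⊗ₘ t)) =
            (𝟙_ C ◁ (λ_ (𝟙_ C)).inv) ≫ (f ⊗ₘ (y ⊗ₘ t)) := by
          rw [← id_tensorHom, tensorHom_comp_tensorHom, Category.id_comp]
        rw [e0, Category.assoc, associator_inv_naturality]
      have e2 : ((f ⊗ₘ y) ⊗ₘ t) ≫ (β_ a a).hom ▷ tpow a n =
          ((β_ (𝟙_ C) (𝟙_ C)).hom ▷ _) ≫ ((y ⊗ₘ f) ⊗ₘ t) := by
        rw [← tensorHom_id, ← tensorHom_id, tensorHom_comp_tensorHom,
          tensorHom_comp_tensorHom, BraidedCategory.braiding_naturality]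
        simp
      have e3 : (β_ (𝟙_ C) (𝟙_ C)).hom = 𝟙 _ := by
        rw [braiding_tensorUnit_left]
        simp [unitors_equal]
      rw [reassoc_of% e1, reassoc_of% e2, e3]
      simp only [id_whiskerRight, Category.id_comp]
      rw [associator_naturality_assoc]
      simp only [Iso.inv_hom_id_assoc]
      simp [unitors_inv_equal, ← id_tensorHom]

lemma permTail_apply {n : ℕ} (σ : Equiv.Perm (Fin (n + 1))) (i : Fin n) :
    (σ 0).succAbove (permTail σ i) = σ i.succ := by
  have h : finSuccAboveEquiv (σ 0) (permTail σ i) =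
      (σ.subtypeEquiv (p := fun x => x ≠ 0) (q := fun y => y ≠ σ 0) (fun x => by simp))
        (finSuccAboveEquiv 0 i) := by
    simp [permTail]
  have := congrArg Subtype.val h
  simpa [finSuccAboveEquiv] using this

lemma permTail_symm_apply {n : ℕ} (σ : Equiv.Perm (Fin (n + 1))) (i : Fin n) :
    σ.symm ((σ 0).succAbove i) = ((permTail σ).symm i).succ := by
  rw [Equiv.symm_apply_eq, ← permTail_apply, Equiv.apply_symm_apply]

lemma tmap_permAct (a : C) (n : ℕ) (σ : Equiv.Perm (Fin n)) (x : Fin n → (𝟙_ C ⟶ a)) :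
    tmap a n x ≫ permAct a n σ = tmap a n (fun i => x (σ.symm i)) := by
  induction n with
  | zero => simp [tmap, permAct]
  | succ n ih =>
    have key : tmap a n (fun i => x i.succ) ≫ permAct a n (permTail σ) =
        tmap a n (fun i => x ((permTail σ).symm i).succ) := ih (permTail σ) (fun i => x i.succ)
    have h1 : (fun i : Fin (n + 1) => x (σ.symm i)) =
        Fin.insertNth (α := fun _ => (𝟙_ C ⟶ a)) (σ 0) (x 0)
          (fun i => x ((permTail σ).symm i).succ) := by
      funext i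
      rcases Fin.eq_self_or_eq_succAbove (σ 0) i with rfl | ⟨m, rfl⟩
      · rw [Fin.insertNth_apply_same, Equiv.symm_apply_apply]
      · rw [Fin.insertNth_apply_succAbove, permTail_symm_apply]
    rw [h1, ← tmap_insAct, ← key]
    simp [tmap, permAct, ← id_tensorHom]

variable [Preadditive C] [Linear ℚ C] [MonoidalPreadditive C]

/-- If `a` has, for some `n`, morphisms `x i : 𝟙 ⟶ a` and `y i : a ⟶ 𝟙` (`i < n`) with
`y j ∘ x i = δ i j` and `𝟙` is not zero, then the group algebra of the symmetric group `S_n` acts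
faithfully on `a^{⊗ n}`. -/
theorem grpAct_ne_zero (a : C) (n : ℕ) (x : Fin n → (𝟙_ C ⟶ a)) (y : Fin n → (a ⟶ 𝟙_ C))
    (h1 : ∀ i, x i ≫ y i = 𝟙 _) (h0 : ∀ i j, i ≠ j → x i ≫ y j = 0)
    (hne : ¬ Limits.IsZero (𝟙_ C)) (c : MonoidAlgebra ℚ (Equiv.Perm (Fin n))) (hc : c ≠ 0) :
    grpAct a n c ≠ 0 := by
  intro hz
  apply hc
  ext τ
  have key : tmap a n x ≫ grpAct a n c ≫ tcomap a n (fun i => y (τ.symm i)) =
      c.coeff τ • 𝟙 _ := by
    have e : ∀ σ, tmap a n x ≫ permAct a n σ ≫ tcomap a n (fun i => y (τ.symm i)) =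
        if σ = τ then 𝟙 _ else 0 := by
      intro σ
      rw [← Category.assoc, tmap_permAct]
      by_cases h : σ = τ
      · subst h
        rw [if_pos rfl]
        exact tmap_tcomap_one a n _ _ (fun i => h1 _)
      · rw [if_neg h]
        apply tmap_tcomap_zero
        by_contra hcon
        push Not at hcon
        apply h
        have : σ.symm = τ.symm := by
          ext i
          by_contra hi
          exact hcon i (h0 _ _ (fun e => hi (by rw [e])))
        have := congrArg Equiv.symm this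
        simpa using this
    simp only [grpAct, Finsupp.sum, Preadditive.sum_comp, Preadditive.comp_sum,
      Linear.smul_comp, Linear.comp_smul, e]
    rw [Finset.sum_eq_single τ]
    · simp
    · intro b _ hb
      simp [hb]
    · intro hτ
      rw [Finsupp.notMem_support_iff.1 hτ]; simp
  rw [hz] at key
  simp only [Limits.zero_comp, Limits.comp_zero] at key
  by_contra hcτ
  apply hne
  rw [Limits.IsZero.iff_id_eq_zero]
  have := congrArg (fun t => (c.coeff τ)⁻¹ • t) key.symm
  simpa [smul_smul, inv_mul_cancel₀ hcτ] using this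

lemma eq_one_of_mem {n : ℕ} {μ : YoungDiagram} (T : Fin n ≃ μ.cells) {p q : Equiv.Perm (Fin n)}
    (hp : p ∈ rowStab T) (hq : q ∈ colStab T) (h : p * q = 1) : q = 1 := by
  have hp' : ∀ i, (T i).1.1 = (T (q i)).1.1 := fun i => by
    have := hp (q i)
    rwa [← Equiv.Perm.mul_apply, h] at this
  ext i
  have : T (q i) = T i := by
    apply Subtype.ext
    exact Prod.ext (hp' i).symm (hq i)
  rw [T.injective this]; rfl

lemma youngSymmetrizer_ne_zero {n : ℕ} {μ : YoungDiagram} (T : Fin n ≃ μ.cells) :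
    youngSymmetrizer T ≠ 0 := by
  classical
  intro h
  have h1 := congrArg (fun c => c.coeff (1 : Equiv.Perm (Fin n))) h
  simp only [youngSymmetrizer] at h1
  rw [Finset.sum_mul_sum] at h1
  simp only [MonoidAlgebra.single_mul_single] at h1
  rw [MonoidAlgebra.coeff_sum, Finsupp.finsetSum_apply] at h1
  rw [Finset.sum_eq_single (1 : Equiv.Perm (Fin n))] at h1
  · rw [MonoidAlgebra.coeff_sum, Finsupp.finsetSum_apply, Finset.sum_eq_single
      (1 : Equiv.Perm (Fin n))] at h1
    · simp at h1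
    · intro q hq hq1
      simp [hq1]
    · intro hcon
      exact absurd (by rw [Finset.mem_filter]; exact ⟨Finset.mem_univ _, fun _ => rfl⟩) hcon
  · intro p hp hp1
    rw [MonoidAlgebra.coeff_sum, Finsupp.finsetSum_apply]
    apply Finset.sum_eq_zero
    intro q hq
    have : p * q ≠ 1 := by
      intro hpq
      have := eq_one_of_mem T (by simpa using hp) (by simpa using hq) hpq
      rw [this, mul_one] at hpq
      exact hp1 hpq
    simp [this]
  · intro hcon
    exact absurd (by rw [Finset.mem_filter]; exact ⟨Finset.mem_univ _, fun _ => rfl⟩) hcon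

/-- An object which has, for every `n`, the sum of `n` copies of the unit as a direct summand, is
not Schur-finite (if the unit is not zero). -/
theorem not_isSchurFinite (a : C)
    (h : ∀ n : ℕ, ∃ (x : Fin n → (𝟙_ C ⟶ a)) (y : Fin n → (a ⟶ 𝟙_ C)),
      (∀ i, x i ≫ y i = 𝟙 _) ∧ (∀ i j, i ≠ j → x i ≫ y j = 0))
    (hne : ¬ Limits.IsZero (𝟙_ C)) : ¬ IsSchurFinite a := by
  rintro ⟨n, μ, T, -, hT⟩
  obtain ⟨x, y, h1, h0⟩ := h n
  exact grpAct_ne_zero a n x y h1 h0 hne _ (youngSymmetrizer_ne_zero T) hT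

end Pool.Agent.TH137.DG
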