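import Pool.Agent.TH137.DG.Gen
import Pool.Agent.TH137.DG.SchurLemma

/-!
# Morita invariants of dg categories with many orthogonal points
-/

set_option autoImplicit false

open CategoryTheory MonoidalCategory Limits

namespace Pool.Agent.TH137.DG

universe v u

/-- the functor from the empty dg category -/
def DGCat.fromEmpty {k : Type} [Field k] (A : DGCat.{0, 0} k) : DGFun (DGCat.empty k) A where
  obj := fun x => x.elim
  map := fun {x _} => x.elim
  map_chain := fun x _ => x.elim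
  map_one := fun x => x.elim
  map_mul := fun {x _ _} => x.elim

lemma isMorita_fromEmpty {k : Type} [Field k] (A : DGCat.{0, 0} k)
    (h : ∀ b, A.Ex (A.one b)) : IsMorita A.fromEmpty := by
  refine ⟨fun x => x.elim, fun b => ?_⟩
  obtain ⟨e, he, de⟩ := (h b).homog (A.one_mem b)
  exact ⟨0, fun i => i.elim0, fun i => i.elim0, fun i => i.elim0, e, fun i => i.elim0,
    fun i => i.elim0, he, by simpa using de⟩

section

variable {k : Type} [Field k] (S : ObjectProperty (DGCat.{0, 0} k))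
  (hM : ∀ (A B : DGCat.{0, 0} k) (F : A ⟶ B), IsMorita F → (S A ↔ S B))
  (hk : S (DGCat.base k)) (h0 : S (DGCat.empty k))
  {C : Type u} [Category.{v} C] [Preadditive C] (U : S.FullSubcategory ⥤ C)
  (hU : ∀ (A B : S.FullSubcategory) (F : A ⟶ B), IsMorita F.hom → IsIso (U.map F))
  (hZ : IsZero (U.obj ⟨DGCat.empty k, h0⟩))

include hM hU hZ in
lemma map_pt_zero (A : DGCat.{0, 0} k) (hA : S A) (b : A.Obj) (hb : A.Ex (A.one b)) :
    U.map (ObjectProperty.homMk (A.pt b : DGCat.base k ⟶ A) :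
      (⟨DGCat.base k, hk⟩ : S.FullSubcategory) ⟶ ⟨A, hA⟩) = 0 := by
  have h1 : IsMorita (A.induced (fun _ : Unit => b)).fromEmpty :=
    isMorita_fromEmpty _ (fun _ => hb)
  have hE : S (A.induced (fun _ : Unit => b)) :=
    (hM _ _ ((A.induced (fun _ : Unit => b)).fromEmpty :
      DGCat.empty k ⟶ A.induced (fun _ : Unit => b)) h1).1 h0
  have h2 := hU ⟨DGCat.empty k, h0⟩ ⟨_, hE⟩ (ObjectProperty.homMk
    ((A.induced (fun _ : Unit => b)).fromEmpty :
      DGCat.empty k ⟶ A.induced (fun _ : Unit => b))) h1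
  have h3 : IsZero (U.obj ⟨A.induced (fun _ : Unit => b), hE⟩) :=
    hZ.of_iso (@asIso _ _ _ _ _ h2).symm
  have e : (ObjectProperty.homMk (A.pt b : DGCat.base k ⟶ A) :
      (⟨DGCat.base k, hk⟩ : S.FullSubcategory) ⟶ ⟨A, hA⟩) =
      (ObjectProperty.homMk ((A.induced (fun _ : Unit => b)).pt () :
        DGCat.base k ⟶ A.induced (fun _ : Unit => b)) :
        (⟨DGCat.base k, hk⟩ : S.FullSubcategory) ⟶ ⟨A.induced (fun _ : Unit => b), hE⟩) ≫
      (ObjectProperty.homMk (A.incl (fun _ : Unit => b) :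
        A.induced (fun _ : Unit => b) ⟶ A) :
        (⟨A.induced (fun _ : Unit => b), hE⟩ : S.FullSubcategory) ⟶ ⟨A, hA⟩) := by
    apply ObjectProperty.hom_ext
    rfl
  rw [e, U.map_comp, h3.eq_zero_of_tgt (U.map _), zero_comp]

include hM hU hZ in
theorem key (P : DGCat.{0, 0} k) (hP : S P) (x : ℕ → P.Obj) (D : ℕ → DGCat.{0, 0} k)
    (F : ∀ m, DGFun P (D m)) (hd : ∀ m, IsMorita ((D m).pt ((F m).obj (x m))))
    (ho : ∀ m n, m ≠ n → (D m).Ex ((D m).one ((F m).obj (x n)))) :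
    ∃ (i : ∀ _ : ℕ, U.obj ⟨DGCat.base k, hk⟩ ⟶ U.obj ⟨P, hP⟩)
      (p : ∀ _ : ℕ, U.obj ⟨P, hP⟩ ⟶ U.obj ⟨DGCat.base k, hk⟩),
      (∀ n, i n ≫ p n = 𝟙 _) ∧ ∀ m n, m ≠ n → i n ≫ p m = 0 := by
  have hD : ∀ m, S (D m) := fun m => (hM _ _ ((D m).pt ((F m).obj (x m)) :
    DGCat.base k ⟶ D m) (hd m)).1 hk
  have hI : ∀ m, IsIso (U.map (ObjectProperty.homMk ((D m).pt ((F m).obj (x m)) :
      DGCat.base k ⟶ D m) : (⟨DGCat.base k, hk⟩ : S.FullSubcategory) ⟶ ⟨D m, hD m⟩)) :=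
    fun m => hU _ _ _ (hd m)
  have e : ∀ m n, (ObjectProperty.homMk (P.pt (x n) : DGCat.base k ⟶ P) :
      (⟨DGCat.base k, hk⟩ : S.FullSubcategory) ⟶ ⟨P, hP⟩) ≫
      (ObjectProperty.homMk (F m : P ⟶ D m) : (⟨P, hP⟩ : S.FullSubcategory) ⟶ ⟨D m, hD m⟩) =
      ObjectProperty.homMk ((D m).pt ((F m).obj (x n)) : DGCat.base k ⟶ D m) := by
    intro m n
    apply ObjectProperty.hom_ext
    have hmap : ∀ c : k, (F m).map (c • P.one (x n)) = c • (D m).one ((F m).obj (x n)) := by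
      intro c
      rw [map_smul, (F m).map_one]
    refine DGFun.ext rfl ?_
    apply heq_of_eq
    funext a b
    exact LinearMap.ext hmap
  refine ⟨fun n => U.map (ObjectProperty.homMk (P.pt (x n) : DGCat.base k ⟶ P)),
    fun m => U.map (ObjectProperty.homMk (F m : P ⟶ D m)) ≫ @inv _ _ _ _ _ (hI m), ?_, ?_⟩
  · intro n
    have := hI n
    rw [← Category.assoc, ← U.map_comp, e, IsIso.hom_inv_id]
  · intro m n hmn
    rw [← Category.assoc, ← U.map_comp, e, map_pt_zero S hM hk h0 U hU hZ _ _ _ (ho m n hmn),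
      zero_comp]

end

end Pool.Agent.TH137.DG
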