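import Pool.Agent.TH137.DG.CatTools

/-!
# Generation and Morita equivalences
-/

set_option autoImplicit false

namespace Pool.Agent.TH137.DG

universe v u w v' v₁ v₂ v₃ u₁ u₂ u₃

namespace DGCat

variable {k : Type} [Field k] (A : DGCat.{v, u} k)

/-- closed morphisms of degree `0` -/
def Z0 {x y : A.Obj} (f : A.Hom x y) : Prop := f ∈ (A.cx x y).gr 0 ∧ (A.cx x y).d f = 0

variable {A}

lemma Z0.one (x : A.Obj) : A.Z0 (A.one x) := ⟨A.one_mem x, A.d_one x⟩

lemma Z0.mul {x y z : A.Obj} {g : A.Hom y z} {f : A.Hom x y} (hg : A.Z0 g) (hf : A.Z0 f) :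
    A.Z0 (A.mul g f) := by
  refine ⟨?_, closed_mul hg.2 hf.2⟩
  simpa using A.mul_mem hg.1 hf.1

lemma Z0.zero {x y : A.Obj} : A.Z0 (0 : A.Hom x y) := ⟨Submodule.zero_mem _, map_zero _⟩

lemma Z0.add {x y : A.Obj} {g f : A.Hom x y} (hg : A.Z0 g) (hf : A.Z0 f) : A.Z0 (g + f) :=
  ⟨Submodule.add_mem _ hg.1 hf.1, by rw [map_add, hg.2, hf.2, add_zero]⟩

lemma Z0.sub {x y : A.Obj} {g f : A.Hom x y} (hg : A.Z0 g) (hf : A.Z0 f) : A.Z0 (g - f) :=
  ⟨Submodule.sub_mem _ hg.1 hf.1, by rw [map_sub, hg.2, hf.2, sub_zero]⟩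

lemma Z0.sum {ι : Type w} (s : Finset ι) {x y : A.Obj} {f : ι → A.Hom x y}
    (hf : ∀ i ∈ s, A.Z0 (f i)) : A.Z0 (∑ i ∈ s, f i) :=
  ⟨Submodule.sum_mem _ fun i hi => (hf i hi).1, by
    rw [map_sum]; exact Finset.sum_eq_zero fun i hi => (hf i hi).2⟩

variable (A)

/-- `x` is generated by `c` (up to homotopy, a summand of a finite sum of copies of `c`) -/
def Gn (c x : A.Obj) : Prop :=
  ∃ (n : ℕ) (p : Fin n → A.Hom x c) (q : Fin n → A.Hom c x), (∀ i, A.Z0 (p i)) ∧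
    (∀ i, A.Z0 (q i)) ∧ A.Ex (A.one x - ∑ i, A.mul (q i) (p i))

variable {A}

lemma Gn.refl (c : A.Obj) : A.Gn c c :=
  ⟨1, fun _ => A.one c, fun _ => A.one c, fun _ => Z0.one c, fun _ => Z0.one c, by
    simpa [A.one_mul] using Ex.zero⟩

/-- a homotopy retract is generated -/
lemma Gn.retract {c x : A.Obj} {p : A.Hom x c} {q : A.Hom c x} (hp : A.Z0 p) (hq : A.Z0 q)
    (h : A.Ex (A.one x - A.mul q p)) : A.Gn c x :=
  ⟨1, fun _ => p, fun _ => q, fun _ => hp, fun _ => hq, by simpa using h⟩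

lemma Gn.trans {c a x : A.Obj} (h1 : A.Gn c a) (h2 : A.Gn a x) : A.Gn c x := by
  obtain ⟨m, p', q', hp', hq', h'⟩ := h1
  obtain ⟨n, p, q, hp, hq, h⟩ := h2
  refine ⟨n * m, fun i => A.mul (p' (finProdFinEquiv.symm i).2) (p (finProdFinEquiv.symm i).1),
    fun i => A.mul (q (finProdFinEquiv.symm i).1) (q' (finProdFinEquiv.symm i).2),
    fun i => (hp' _).mul (hp _), fun i => (hq _).mul (hq' _), ?_⟩
  have e : ∑ i : Fin (n * m), A.mul
      (A.mul (q (finProdFinEquiv.symm i).1) (q' (finProdFinEquiv.symm i).2))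
      (A.mul (p' (finProdFinEquiv.symm i).2) (p (finProdFinEquiv.symm i).1)) =
      ∑ i : Fin n, A.mul (A.mul (q i) (∑ j : Fin m, A.mul (q' j) (p' j))) (p i) := by
    rw [Fintype.sum_equiv finProdFinEquiv.symm _
      (fun ij : Fin n × Fin m => A.mul (A.mul (q ij.1) (q' ij.2)) (A.mul (p' ij.2) (p ij.1)))
      (fun _ => rfl), Fintype.sum_prod_type]
    refine Finset.sum_congr rfl fun i _ => ?_
    rw [map_sum, map_sum, LinearMap.sum_apply]
    refine Finset.sum_congr rfl fun j _ => ?_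
    simp only [A.mul_assoc]
  have e2 : A.one x - ∑ i : Fin n, A.mul (A.mul (q i) (∑ j : Fin m, A.mul (q' j) (p' j))) (p i) =
      (A.one x - ∑ i, A.mul (q i) (p i)) +
      ∑ i, A.mul (A.mul (q i) (A.one a - ∑ j, A.mul (q' j) (p' j))) (p i) := by
    have : ∀ i, A.mul (A.mul (q i) (A.one a - ∑ j, A.mul (q' j) (p' j))) (p i) =
        A.mul (q i) (p i) - A.mul (A.mul (q i) (∑ j : Fin m, A.mul (q' j) (p' j))) (p i) := by
      intro i
      rw [map_sub, A.mul_one, map_sub, LinearMap.sub_apply]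
    simp only [this, Finset.sum_sub_distrib]
    abel
  rw [e, e2]
  refine h.add (Ex.sum _ fun i _ => ?_)
  exact ((h'.mul_left (hq i).2)).mul_right (hp i).2

end DGCat

namespace DGFun

variable {k : Type} [Field k] {A : DGCat.{v₁, u₁} k} {B : DGCat.{v₂, u₂} k} (F : DGFun A B)

lemma z0 {x y : A.Obj} {f : A.Hom x y} (h : A.Z0 f) : B.Z0 (F.map f) :=
  ⟨(F.map_chain x y).1 _ _ h.1, by rw [← (F.map_chain x y).2, h.2, map_zero]⟩

lemma ex {x y : A.Obj} {f : A.Hom x y} (h : A.Ex f) : B.Ex (F.map f) := by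
  obtain ⟨g, rfl⟩ := h
  exact ⟨F.map g, ((F.map_chain x y).2 g).symm⟩

lemma gn {c x : A.Obj} (h : A.Gn c x) : B.Gn (F.obj c) (F.obj x) := by
  obtain ⟨n, p, q, hp, hq, h⟩ := h
  refine ⟨n, fun i => F.map (p i), fun i => F.map (q i), fun i => F.z0 (hp i),
    fun i => F.z0 (hq i), ?_⟩
  have := F.ex h
  simpa only [map_sub, F.map_one, map_sum, F.map_mul] using this

/-- criterion for Morita equivalences -/
lemma isMorita_of_gn (a : A.Obj)
    (h1 : ∀ x y, IsQuasiIso (A.cx x y) (B.cx (F.obj x) (F.obj y)) F.map)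
    (h2 : ∀ b, B.Gn (F.obj a) b) : IsMorita F := by
  refine ⟨h1, fun b => ?_⟩
  obtain ⟨n, p, q, hp, hq, h⟩ := h2 b
  obtain ⟨e, he, de⟩ := h.homog (by
    refine Submodule.sub_mem _ (B.one_mem b) (Submodule.sum_mem _ fun i _ => ?_)
    exact ((hq i).mul (hp i)).1)
  exact ⟨n, fun _ => a, p, q, e, fun i => hp i, fun i => hq i, he, de⟩

end DGFun

/-- a bijective chain map is a quasi-isomorphism -/
lemma isQuasiIso_of_bijective {k : Type} [Field k] {V : Type v₁} {W : Type v₂} [AddCommGroup V]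
    [Module k V] [AddCommGroup W] [Module k W] {X : Cx k V} {Y : Cx k W} {f : V →ₗ[k] W}
    (hf : IsChainMap X Y f) (hb : Function.Bijective f) : IsQuasiIso X Y f := by
  refine ⟨hf, ?_, ?_⟩
  · rintro a _ ⟨b, hb'⟩
    obtain ⟨c, rfl⟩ := hb.2 b
    refine ⟨c, hb.1 ?_⟩
    rw [hf.2, hb']
  · intro b hb'
    obtain ⟨c, rfl⟩ := hb.2 b
    refine ⟨c, hb.1 ?_, 0, ?_⟩
    · rw [hf.2, hb', map_zero]
    · rw [map_zero, sub_self]

namespace DGCat

variable {k : Type} [Field k] (A : DGCat.{v, u} k)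

/-- the endomorphism complex of `b` is quasi-isomorphic to `k` -/
def QE (b : A.Obj) : Prop :=
  (∀ c : k, A.Ex (c • A.one b) → c = 0) ∧
    ∀ f, (A.cx b b).d f = 0 → ∃ c : k, A.Ex (f - c • A.one b)

variable {A}

lemma pt_isMorita {b : A.Obj} (h : A.QE b) (h2 : ∀ x, A.Gn b x) : IsMorita (A.pt b) := by
  refine (A.pt b).isMorita_of_gn () (fun x y => ⟨(A.pt b).map_chain x y, ?_, ?_⟩) h2
  · have key : ∀ a : k, (∃ b', (A.cx b b).d b' = a • A.one b) → ∃ a' : k, (0 : k →ₗ[k] k) a' = a := by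
      intro a ha
      exact ⟨0, by rw [h.1 a ha]; simp⟩
    exact fun a _ ha => key a ha
  · have key : ∀ f : A.Hom b b, (A.cx b b).d f = 0 →
        ∃ a : k, (0 : k →ₗ[k] k) a = 0 ∧ ∃ b', (A.cx b b).d b' = f - a • A.one b := by
      intro f hf
      obtain ⟨c, hc⟩ := h.2 f hf
      exact ⟨c, rfl, hc⟩
    exact fun f hf => key f hf

/-- homotopy equivalent objects -/
structure HEq' {b c : A.Obj} (p : A.Hom b c) (q : A.Hom c b) : Prop where
  hp : A.Z0 p
  hq : A.Z0 q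
  qp : A.Ex (A.one b - A.mul q p)
  pq : A.Ex (A.one c - A.mul p q)

lemma QE.of_hEq {b c : A.Obj} {p : A.Hom b c} {q : A.Hom c b} (h : HEq' p q) (hc : A.QE c) :
    A.QE b := by
  constructor
  · intro a ha
    apply hc.1
    have h1 : A.Ex (A.mul (A.mul p (a • A.one b)) q) := (ha.mul_left h.hp.2).mul_right h.hq.2
    have e : A.mul (A.mul p (a • A.one b)) q = a • A.mul p q := by
      rw [map_smul, A.mul_one, map_smul, LinearMap.smul_apply]
    rw [e] at h1
    have h2 : A.Ex (a • (A.one c - A.mul p q)) := h.pq.smul a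
    have := h2.add h1
    rwa [smul_sub, sub_add_cancel] at this
  · intro f hf
    have h1 : (A.cx c c).d (A.mul (A.mul p f) q) = 0 :=
      closed_mul (closed_mul h.hp.2 hf) h.hq.2
    obtain ⟨a, ha⟩ := hc.2 _ h1
    refine ⟨a, ?_⟩
    have h2 : A.Ex (A.mul (A.mul q (A.mul (A.mul p f) q - a • A.one c)) p) :=
      (ha.mul_left h.hq.2).mul_right h.hp.2
    have e : A.mul (A.mul q (A.mul (A.mul p f) q - a • A.one c)) p =
        A.mul (A.mul (A.mul q p) f) (A.mul q p) - a • A.mul q p := by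
      rw [map_sub, map_sub, LinearMap.sub_apply, map_smul, map_smul, LinearMap.smul_apply,
        A.mul_one]
      simp only [A.mul_assoc]
    rw [e] at h2
    have h3 : A.Ex (A.mul (A.one b - A.mul q p) f) := h.qp.mul_right hf
    have h4 : A.Ex (A.mul (A.mul (A.mul q p) f) (A.one b - A.mul q p)) :=
      Ex.mul_left (closed_mul (h.hq.mul h.hp).2 hf) h.qp
    have h5 : A.Ex (a • (A.one b - A.mul q p)) := h.qp.smul a
    have := ((h3.add h4).add h2).sub h5
    rw [map_sub, LinearMap.sub_apply, A.one_mul, map_sub, A.mul_one, smul_sub] at this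
    have e2 : f - A.mul (A.mul q p) f + (A.mul (A.mul q p) f -
        A.mul (A.mul (A.mul q p) f) (A.mul q p)) +
        (A.mul (A.mul (A.mul q p) f) (A.mul q p) - a • A.mul q p) -
        (a • A.one b - a • A.mul q p) = f - a • A.one b := by abel
    rwa [e2] at this

/-- a homotopy retract `t` of `a` given by `u`, `v`, when the idempotent `u v` of `a` factors as
`e e'` with `e' e = 1` -/
lemma hEq_of_split {a t c : A.Obj} {u : A.Hom t a} {v : A.Hom a t} (hu : A.Z0 u) (hv : A.Z0 v)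
    (hvu : A.Ex (A.one t - A.mul v u)) {e : A.Hom c a} {e' : A.Hom a c} (he : A.Z0 e)
    (he' : A.Z0 e') (h1 : A.mul e' e = A.one c) (h2 : A.mul u v = A.mul e e') :
    HEq' (A.mul e' u) (A.mul v e) := by
  refine ⟨he'.mul hu, hv.mul he, ?_, ?_⟩
  · have h3 : A.Ex (A.mul (A.mul v u) (A.one t - A.mul v u)) :=
      Ex.mul_left (hv.mul hu).2 hvu
    have h4 := hvu.add h3
    have e1 : A.mul (A.mul v u) (A.mul v u) = A.mul (A.mul v e) (A.mul e' u) := by
      rw [A.mul_assoc, ← A.mul_assoc u, h2]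
      simp only [A.mul_assoc]
    rw [map_sub, A.mul_one, e1] at h4
    have e2 : A.one t - A.mul v u + (A.mul v u - A.mul (A.mul v e) (A.mul e' u)) =
      A.one t - A.mul (A.mul v e) (A.mul e' u) := by abel
    rwa [e2] at h4
  · have e1 : A.mul (A.mul e' u) (A.mul v e) = A.one c := by
      rw [A.mul_assoc, ← A.mul_assoc u, h2, A.mul_assoc, h1, A.mul_one, h1]
    rw [e1, sub_self]
    exact Ex.zero

lemma ex_one_of_zero {a t : A.Obj} {u : A.Hom t a} {v : A.Hom a t} (hu : A.Z0 u) (hv : A.Z0 v)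
    (hvu : A.Ex (A.one t - A.mul v u)) (h2 : A.mul u v = 0) : A.Ex (A.one t) := by
  have h3 : A.Ex (A.mul (A.mul v u) (A.one t - A.mul v u)) :=
    Ex.mul_left (hv.mul hu).2 hvu
  have h4 := hvu.add h3
  have e1 : A.mul (A.mul v u) (A.mul v u) = 0 := by
    rw [A.mul_assoc, ← A.mul_assoc u, h2]
    simp
  rw [map_sub, A.mul_one, e1, sub_zero, sub_add_cancel] at h4
  exact h4

end DGCat

end Pool.Agent.TH137.DG
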