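import Pool.Agent.TH137.DG.Alg

/-!
# Semi-free dg modules over a dg algebra
-/

set_option autoImplicit false

namespace Pool.Agent.TH137.DG

universe v u w

section

variable {k : Type} [Field k] {A : Type} [Ring A] [Algebra k A]

lemma DGAlg.par_mul (X : DGAlg k A) {m : ℤ} {a : A} (ha : a ∈ X.cx.gr m) (b : A) :
    X.cx.par (a * b) = m.negOnePow • (a * X.cx.par b) :=
  DGMod.par_smul X.self ha b

variable (X : DGAlg k A) {I : Type} (δ : I → ℤ) (D : I → (I →₀ A))

/-- the grading of a semi-free module -/
def sfGr (n : ℤ) : Submodule k (I →₀ A) where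
  carrier := {t | ∀ i, t i ∈ X.cx.gr (n - δ i)}
  add_mem' := fun ha hb i => Submodule.add_mem _ (ha i) (hb i)
  zero_mem' := fun _ => Submodule.zero_mem _
  smul_mem' := fun c _ ha i => Submodule.smul_mem _ c (ha i)

lemma mem_sfGr {n : ℤ} {t : I →₀ A} : t ∈ sfGr X δ n ↔ ∀ i, t i ∈ X.cx.gr (n - δ i) := Iff.rfl

lemma single_mem_sfGr {n : ℤ} {i : I} {a : A} (h : a ∈ X.cx.gr (n - δ i)) :
    Finsupp.single i a ∈ sfGr X δ n := by
  classical
  intro j
  by_cases hj : i = j
  · subst hj; simpa using h
  · rw [Finsupp.single_eq_of_ne (Ne.symm hj)]; exact Submodule.zero_mem _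

/-- the differential of a semi-free module -/
noncomputable def sfD : (I →₀ A) →ₗ[k] (I →₀ A) :=
  Finsupp.lsum k fun i => (Finsupp.lsingle i) ∘ₗ X.cx.d +
    ((LinearMap.toSpanSingleton A (I →₀ A) (D i)).restrictScalars k) ∘ₗ X.cx.par

lemma sfD_single (i : I) (a : A) :
    sfD X D (Finsupp.single i a) = Finsupp.single i (X.cx.d a) + X.cx.par a • D i := by
  simp [sfD]

lemma sfD_one (i : I) : sfD X D (Finsupp.single i 1) = D i := by
  rw [sfD_single, X.cx.par_apply X.one_mem]
  have h : X.cx.d 1 = 0 := X.toCat.d_one ()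
  rw [h]; simp

lemma smul_mem_sfGr {m n : ℤ} {a : A} {t : I →₀ A} (ha : a ∈ X.cx.gr m) (ht : t ∈ sfGr X δ n) :
    a • t ∈ sfGr X δ (m + n) := by
  intro i
  rw [Finsupp.smul_apply, smul_eq_mul, show m + n - δ i = m + (n - δ i) by ring]
  exact X.mul_mem ha (ht i)

lemma sf_induct {p : (I →₀ A) → Prop} (t : I →₀ A)
    (h : ∀ i m a, a ∈ X.cx.gr m → p (Finsupp.single i a)) (h0 : p 0)
    (hadd : ∀ x y, p x → p y → p (x + y)) : p t := by
  induction t using Finsupp.induction_linear with
  | zero => exact h0
  | add f g hf hg => exact hadd f g hf hg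
  | single i a =>
    induction a using X.cx.induct with
    | hom m a ha => exact h i m a ha
    | h0 => simpa using h0
    | hadd a b ha hb => rw [Finsupp.single_add]; exact hadd _ _ ha hb

lemma sfD_leibniz {m : ℤ} {a : A} (t : I →₀ A) (ha : a ∈ X.cx.gr m) :
    sfD X D (a • t) = X.cx.d a • t + m.negOnePow • (a • sfD X D t) := by
  induction t using Finsupp.induction_linear with
  | zero => simp
  | add f g hf hg => simp only [smul_add, map_add, hf, hg]; abel
  | single i b =>
    rw [Finsupp.smul_single, smul_eq_mul, sfD_single, sfD_single, X.leibniz b ha,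
      X.par_mul ha]
    rcases Int.even_or_odd m with hm | hm
    · simp [Int.negOnePow_even, hm, smul_smul, add_assoc]
    · simp only [Int.negOnePow_odd, hm, Units.neg_smul, one_smul, Finsupp.single_add,
        Finsupp.smul_single, smul_eq_mul, smul_add, smul_smul, neg_smul, Finsupp.single_neg]
      abel

variable {X δ D}

lemma sfD_mem (hD : ∀ i, D i ∈ sfGr X δ (δ i + 1)) {n : ℤ} {t : I →₀ A}
    (ht : t ∈ sfGr X δ n) : sfD X D t ∈ sfGr X δ (n + 1) := by
  classical
  have ht' := ht
  rw [mem_sfGr] at ht'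
  have e : t = ∑ i ∈ t.support, Finsupp.single i (t i) := (Finsupp.sum_single t).symm
  rw [e, map_sum]
  apply Submodule.sum_mem
  intro i _
  rw [sfD_single]
  apply Submodule.add_mem
  · apply single_mem_sfGr
    have := X.cx.d_mem (ht' i)
    rwa [show n + 1 - δ i = n - δ i + 1 by ring]
  · have := smul_mem_sfGr X δ (X.cx.par_mem (ht' i)) (hD i)
    rwa [show n - δ i + (δ i + 1) = n + 1 by ring] at this

lemma sfD_sfD (hDD : ∀ i, sfD X D (D i) = 0) (t : I →₀ A) : sfD X D (sfD X D t) = 0 := by
  induction t using sf_induct X with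
  | h i m a ha =>
    rw [sfD_single, map_add, sfD_single, X.cx.d_d, sfD_leibniz _ _ _ (X.cx.par_mem ha), hDD,
      X.cx.par_d]
    simp
  | h0 => simp
  | hadd x y hx hy => simp [hx, hy]

variable (X δ D) in
/-- a semi-free dg module -/
@[reducible] noncomputable def semiFree (hD : ∀ i, D i ∈ sfGr X δ (δ i + 1))
    (hDD : ∀ i, sfD X D (D i) = 0) : DGMod X where
  M := I →₀ A
  cx :=
    { gr := sfGr X δ
      internal := by
        classical
        apply internal_of_sep (W := I → A) (sfGr X δ) _
          (fun n => LinearMap.pi fun i => (X.cx.pr (n - δ i)) ∘ₗ (Finsupp.lapply i))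
        · intro n t ht h
          ext i
          have h1 := congrFun h i
          simp only [LinearMap.pi_apply, LinearMap.comp_apply, Finsupp.lapply_apply,
            Pi.zero_apply] at h1
          rw [X.cx.pr_same (ht i)] at h1
          simpa using h1
        · intro n m t hnm ht
          funext i
          simp only [LinearMap.pi_apply, LinearMap.comp_apply, Finsupp.lapply_apply,
            Pi.zero_apply]
          exact X.cx.pr_ne (ht i) (by omega)
        · intro t
          induction t using sf_induct X with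
          | h i m a ha =>
            apply (le_iSup (sfGr X δ) (m + δ i))
            apply single_mem_sfGr
            rwa [show m + δ i - δ i = m by ring]
          | h0 => exact Submodule.zero_mem _
          | hadd x y hx hy => exact Submodule.add_mem _ hx hy
      d := sfD X D
      d_mem := sfD_mem hD
      d_d := sfD_sfD hDD }
  smul_mem := fun ha ht => smul_mem_sfGr X δ ha ht
  leibniz := fun t ha => sfD_leibniz X D t ha

section maps

variable (hD : ∀ i, D i ∈ sfGr X δ (δ i + 1)) (hDD : ∀ i, sfD X D (D i) = 0)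
variable {P : DGMod X}

/-- the `A`-linear map from a semi-free module which is given on the generators -/
noncomputable def sfMap (v : I → P.M) : (I →₀ A) →ₗ[k] P.M :=
  (Finsupp.linearCombination A v).restrictScalars k

lemma sfMap_single (v : I → P.M) (i : I) (a : A) :
    sfMap (k := k) v (Finsupp.single i a) = a • v i := by
  simp [sfMap]

lemma sfMap_lin (v : I → P.M) : sfMap (k := k) v ∈ DGMod.lin (semiFree X δ D hD hDD) P :=
  fun a x => (Finsupp.linearCombination A v).map_smul a x

lemma sfMap_homog (v : I → P.M) {n : ℤ} (hv : ∀ i, v i ∈ P.cx.gr (δ i + n)) :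
    sfMap (k := k) v ∈ homog (semiFree X δ D hD hDD).cx P.cx n := by
  classical
  have key : ∀ (m : ℤ) (t : I →₀ A), t ∈ sfGr X δ m → sfMap (k := k) v t ∈ P.cx.gr (m + n) := by
    intro m t ht
    rw [mem_sfGr] at ht
    have e : t = ∑ i ∈ Finsupp.support t, Finsupp.single i (t i) := (Finsupp.sum_single t).symm
    rw [e, map_sum]
    apply Submodule.sum_mem
    intro i _
    rw [sfMap_single]
    have := P.smul_mem (ht i) (hv i)
    rwa [show m - δ i + (δ i + n) = m + n by ring] at this
  exact key

/-- two `A`-linear maps which agree on the generators are equal -/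
lemma sf_ext {φ ψ : (I →₀ A) →ₗ[k] P.M} (hφ : ∀ (a : A) x, φ (a • x) = a • φ x)
    (hψ : ∀ (a : A) x, ψ (a • x) = a • ψ x)
    (h : ∀ i, φ (Finsupp.single i 1) = ψ (Finsupp.single i 1)) : φ = ψ := by
  apply LinearMap.ext
  intro t
  induction t using Finsupp.induction_linear with
  | zero => simp
  | add f g hf hg => simp [hf, hg]
  | single i a =>
    have e : Finsupp.single i a = a • Finsupp.single i (1 : A) := by simp
    rw [e, hφ, hψ, h]

/-- the morphism given by a homogeneous family of images of generators -/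
noncomputable def sfHom (v : I → P.M) {n : ℤ} (hv : ∀ i, v i ∈ P.cx.gr (δ i + n)) :
    (ModCat X).Hom (ob P) (ob (semiFree X δ D hD hDD)) :=
  mkHom (sfMap v) n (sfMap_homog hD hDD v hv) (sfMap_lin hD hDD v)

lemma sfHom_mem (v : I → P.M) {n : ℤ} (hv : ∀ i, v i ∈ P.cx.gr (δ i + n)) :
    sfHom hD hDD v hv ∈ ((ModCat X).cx (ob P) (ob (semiFree X δ D hD hDD))).gr n :=
  mk_mem _ _ _ _

lemma fn_sfHom (v : I → P.M) {n : ℤ} (hv : ∀ i, v i ∈ P.cx.gr (δ i + n)) (i : I) (a : A) :
    fn (sfHom hD hDD v hv) (Finsupp.single i a) = a • v i := by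
  rw [sfHom, fn_mk, sfMap_single]

lemma single_one_mem (i : I) : Finsupp.single i 1 ∈ (semiFree X δ D hD hDD).cx.gr (δ i) := by
  apply single_mem_sfGr
  rw [sub_self]; exact X.one_mem

lemma sf_d_ext (f g : (ModCat X).Hom (ob P) (ob (semiFree X δ D hD hDD)))
    (h : ∀ i, (δ i).negOnePow • (P.cx.d (fn f (Finsupp.single i 1)) - fn f (D i)) =
      fn g (Finsupp.single i 1)) :
    ((ModCat X).cx (ob P) (ob (semiFree X δ D hD hDD))).d f = g := by
  apply fn_inj
  refine sf_ext (P := P) (fn_lin (Q := semiFree X δ D hD hDD) (P := P) _)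
    (fn_lin (Q := semiFree X δ D hD hDD) (P := P) g) ?_
  intro i
  rw [fn_d _ (single_one_mem hD hDD i), ← h i]
  congr 3
  exact sfD_one X D i

end maps

/-! ### the Yoneda functor -/

lemma mulRight_homog {n : ℤ} {a : A} (ha : a ∈ X.cx.gr n) :
    LinearMap.mulRight k a ∈ homog X.self.cx X.self.cx n :=
  fun _ _ hx => X.mul_mem hx ha

lemma mulRight_lin (a : A) : LinearMap.mulRight k a ∈ DGMod.lin X.self X.self :=
  fun b x => mul_assoc b x a

lemma mulRight_mem (a : A) :
    LinearMap.mulRight k a ∈ HomL X.self.cx X.self.cx (DGMod.lin X.self X.self) := by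
  induction a using X.cx.induct with
  | hom n a ha => exact mem_homL (mulRight_homog ha) (mulRight_lin a)
  | h0 =>
    have e : LinearMap.mulRight k (0 : A) = 0 := by ext; simp
    rw [e]; exact Submodule.zero_mem _
  | hadd a b ha hb =>
    have e : LinearMap.mulRight k (a + b) = LinearMap.mulRight k a + LinearMap.mulRight k b := by
      ext; simp [mul_add]
    rw [e]; exact Submodule.add_mem _ ha hb

variable (X) in
/-- right multiplication by `a` -/
noncomputable def rmul : A →ₗ[k] (ModCat X).Hom (ob X.self) (ob X.self) where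
  toFun a := (⟨LinearMap.mulRight k a, mulRight_mem a⟩ :
    HomL X.self.cx X.self.cx (DGMod.lin X.self X.self))
  map_add' a b := Subtype.ext (LinearMap.ext fun x => mul_add x a b)
  map_smul' c a := Subtype.ext (LinearMap.ext fun x => mul_smul_comm c x a)

lemma fn_rmul (a : A) (x : A) : fn (rmul X a) x = x * a := rfl

lemma rmul_mem {n : ℤ} {a : A} (ha : a ∈ X.cx.gr n) :
    rmul X a ∈ ((ModCat X).cx (ob X.self) (ob X.self)).gr n := mulRight_homog ha

lemma rmul_d (a : A) :
    rmul X (X.cx.d a) = ((ModCat X).cx (ob X.self) (ob X.self)).d (rmul X a) := by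
  apply fn_ext
  intro i x hx
  rw [fn_rmul, fn_d _ hx, fn_rmul, fn_rmul, X.leibniz a hx]
  rw [add_sub_cancel_left, smul_smul, Int.units_mul_self, one_smul]

lemma rmul_bij : Function.Bijective (rmul X) := by
  constructor
  · intro a b h
    have : fn (rmul X a) (1 : A) = fn (rmul X b) (1 : A) := by rw [h]
    rw [fn_rmul, fn_rmul] at this
    change (1 : A) * a = 1 * b at this
    rwa [one_mul, one_mul] at this
  · intro f
    refine ⟨fn f (1 : A), ?_⟩
    apply fn_inj
    apply LinearMap.ext
    intro x
    have := fn_lin f x (1 : A)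
    rw [fn_rmul]
    change x * fn f (1 : A) = _
    have e : fn f (x * 1 : A) = x * fn f (1 : A) := this
    rw [← e, mul_one]

lemma rmul_one : rmul X 1 = (ModCat X).one (ob X.self) := by
  apply fn_ext
  intro i x hx
  rw [fn_rmul, fn_one, mul_one]; rfl

lemma rmul_mul (a b : A) : rmul X (a * b) = (ModCat X).mul (rmul X a) (rmul X b) := by
  apply fn_ext
  intro i x hx
  rw [fn_rmul, fn_mul, fn_rmul, fn_rmul, mul_assoc]

end

end Pool.Agent.TH137.DG
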