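import Pool.Agent.TH137.DG.Stage
import Pool.Agent.TH137.DG.Gen
import Pool.Agent.TH137.DG.SemiFree

/-!
# The functors represented by modules concentrated in degree zero
-/

set_option autoImplicit false

namespace Pool.Agent.TH137.DG

section

variable {k : Type} [Field k] {X₀ X₁ : Type} (ρ : X₁ → FA k X₀)
variable {V : Type} [AddCommGroup V] [Module k V] (Φ : FA k X₀ →ₐ[k] Module.End k V)
variable (hΦ : ∀ y, Φ (ρ y) = 0)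

/-- the value of the represented functor at the algebra -/
abbrev WH := (ModCat (stage ρ)).Hom (ob (repMod ρ Φ hΦ)) (ob (stage ρ).self)

/-- its complex structure -/
noncomputable abbrev WC : Cx k (WH ρ Φ hΦ) :=
  (ModCat (stage ρ)).cx (ob (repMod ρ Φ hΦ)) (ob (stage ρ).self)

/-- evaluation at `1` -/
noncomputable def ev : WH ρ Φ hΦ →ₗ[k] V where
  toFun φ := (rv ρ Φ hΦ).symm (fn φ (1 : FA k (X₀ ⊕ X₁)))
  map_add' φ ψ := by rw [map_add, LinearMap.add_apply, map_add]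
  map_smul' c φ := by rw [map_smul, LinearMap.smul_apply, map_smul]; rfl

/-- the map given by an element -/
noncomputable def cvl (x : V) : (stage ρ).self.M →ₗ[k] (repMod ρ Φ hΦ).M where
  toFun a := (show FA k (X₀ ⊕ X₁) from a) • rv ρ Φ hΦ x
  map_add' _ _ := add_smul _ _ _
  map_smul' c a := smul_assoc c (show FA k (X₀ ⊕ X₁) from a) (rv ρ Φ hΦ x)

lemma cvl_lin (x : V) : cvl ρ Φ hΦ x ∈ DGMod.lin (stage ρ).self (repMod ρ Φ hΦ) :=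
  fun a b => mul_smul a (show FA k (X₀ ⊕ X₁) from b) (rv ρ Φ hΦ x)

lemma cvl_homog (x : V) : cvl ρ Φ hΦ x ∈ homog (stage ρ).self.cx (repMod ρ Φ hΦ).cx 0 := by
  intro i a ha
  exact (repMod ρ Φ hΦ).smul_mem ha (rv_mem ρ Φ hΦ x)

/-- the morphism given by an element -/
noncomputable def cv : V →ₗ[k] WH ρ Φ hΦ where
  toFun x := mkHom (cvl ρ Φ hΦ x) 0 (cvl_homog ρ Φ hΦ x) (cvl_lin ρ Φ hΦ x)
  map_add' x y := by
    apply fn_inj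
    rw [map_add, fn_mk, fn_mk, fn_mk]
    apply LinearMap.ext
    intro a
    change (show FA k (X₀ ⊕ X₁) from a) • rv ρ Φ hΦ (x + y) = _
    rw [map_add, smul_add]; rfl
  map_smul' c x := by
    apply fn_inj
    rw [map_smul, fn_mk, fn_mk]
    apply LinearMap.ext
    intro a
    change (show FA k (X₀ ⊕ X₁) from a) • rv ρ Φ hΦ (c • x) = _
    rw [map_smul, smul_comm]; rfl

lemma fn_cv (x : V) (a : FA k (X₀ ⊕ X₁)) : fn (cv ρ Φ hΦ x) a = a • rv ρ Φ hΦ x := rfl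

lemma ev_cv (x : V) : ev ρ Φ hΦ (cv ρ Φ hΦ x) = x := by
  change (rv ρ Φ hΦ).symm (fn (cv ρ Φ hΦ x) (1 : FA k (X₀ ⊕ X₁))) = x
  rw [fn_cv, one_smul, LinearEquiv.symm_apply_apply]

lemma cv_ev (φ : WH ρ Φ hΦ) : cv ρ Φ hΦ (ev ρ Φ hΦ φ) = φ := by
  apply fn_inj
  apply LinearMap.ext
  intro a
  have h := fn_lin φ a (1 : FA k (X₀ ⊕ X₁))
  have e : a • (1 : FA k (X₀ ⊕ X₁)) = a := mul_one a
  rw [show fn (cv ρ Φ hΦ (ev ρ Φ hΦ φ)) a = a • rv ρ Φ hΦ (ev ρ Φ hΦ φ) from rfl]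
  have h2 : rv ρ Φ hΦ (ev ρ Φ hΦ φ) = fn φ (1 : FA k (X₀ ⊕ X₁)) :=
    LinearEquiv.apply_symm_apply _ _
  rw [h2, ← h]
  exact congrArg (fn φ) e

lemma cv_mem (x : V) : cv ρ Φ hΦ x ∈ (WC ρ Φ hΦ).gr 0 := cvl_homog ρ Φ hΦ x

lemma d_cv (x : V) : (WC ρ Φ hΦ).d (cv ρ Φ hΦ x) = 0 := by
  apply fn_ext
  intro n a ha
  rw [fn_d _ ha, repMod_d, zero_sub]
  have : fn (cv ρ Φ hΦ x) ((stage ρ).self.cx.d a) =
      rv ρ Φ hΦ (ext0 Φ ((stage ρ).cx.d a) x) := rfl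
  rw [this, ext0_d ρ Φ hΦ, LinearMap.zero_apply, map_zero, neg_zero, smul_zero, map_zero]
  rfl

lemma ev_gr {n : ℤ} (hn : n ≠ 0) {φ : WH ρ Φ hΦ} (h : φ ∈ (WC ρ Φ hΦ).gr n) :
    ev ρ Φ hΦ φ = 0 := by
  have h1 := (fn_mem.1 h) 0 (1 : FA k (X₀ ⊕ X₁)) (stage ρ).one_mem
  rw [zero_add] at h1
  change (rv ρ Φ hΦ).symm (fn φ (1 : FA k (X₀ ⊕ X₁))) = 0
  rw [repMod_gr ρ Φ hΦ hn h1, map_zero]

lemma ev_d (φ : WH ρ Φ hΦ) : ev ρ Φ hΦ ((WC ρ Φ hΦ).d φ) = 0 := by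
  change (rv ρ Φ hΦ).symm (fn ((WC ρ Φ hΦ).d φ) (1 : FA k (X₀ ⊕ X₁))) = 0
  have h1 : fn ((WC ρ Φ hΦ).d φ) (1 : FA k (X₀ ⊕ X₁)) = (0 : ℤ).negOnePow •
      ((repMod ρ Φ hΦ).cx.d (fn φ (1 : FA k (X₀ ⊕ X₁))) -
        fn φ ((stage ρ).self.cx.d (1 : FA k (X₀ ⊕ X₁)))) :=
    fn_d φ (i := 0) (x := (1 : FA k (X₀ ⊕ X₁))) (stage ρ).one_mem
  have h2 : (stage ρ).self.cx.d (1 : FA k (X₀ ⊕ X₁)) = 0 := (stage ρ).toCat.d_one ()
  rw [h1, h2, map_zero, repMod_d, sub_zero, smul_zero, map_zero]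

lemma ev_rmul (a : FA k (X₀ ⊕ X₁)) (φ : WH ρ Φ hΦ) :
    ev ρ Φ hΦ ((ModCat (stage ρ)).mul (rmul (stage ρ) a) φ) = ext0 Φ a (ev ρ Φ hΦ φ) := by
  change (rv ρ Φ hΦ).symm (fn φ (1 * a : FA k (X₀ ⊕ X₁))) = _
  have h := fn_lin φ a (1 : FA k (X₀ ⊕ X₁))
  have e : a • (1 : FA k (X₀ ⊕ X₁)) = 1 * a := by rw [one_mul]; exact mul_one a
  rw [← e]
  change (rv ρ Φ hΦ).symm (fn φ (a • (1 : FA k (X₀ ⊕ X₁)))) =
    (rv ρ Φ hΦ).symm (a • (rv ρ Φ hΦ (ev ρ Φ hΦ φ)))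
  have h2 : rv ρ Φ hΦ (ev ρ Φ hΦ φ) = fn φ (1 : FA k (X₀ ⊕ X₁)) :=
    LinearEquiv.apply_symm_apply _ _
  rw [h2, ← h]

/-! ### the object `k` of the category of complexes -/

variable (k) in
/-- `k` as a complex -/
@[reducible] noncomputable def Kc : Cpx.{0} k := ⟨k, Cx.concentrated k k⟩

variable (k) in
lemma chD_K (f : k →ₗ[k] k) : chD (Kc k).cx (Kc k).cx f = 0 := by
  apply LinearMap.ext
  intro x
  change (0 : k) - (Cx.concentrated k k).par (f ((Cx.concentrated k k).par 0)) = 0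
  rw [map_zero, map_zero, map_zero, sub_zero]

variable (k) in
lemma K_qe : (Ch.{0} k).QE (cob (Kc k)) := by
  constructor
  · rintro c ⟨h, hh⟩
    have e1 := congrArg cfn hh
    rw [cfn_d, chD_K, map_smul, cfn_one] at e1
    have := congrArg (fun f : k →ₗ[k] k => f 1) e1
    simpa using this.symm
  · intro f _
    refine ⟨cfn f 1, ?_⟩
    have e : f - (cfn f 1) • (Ch.{0} k).one (cob (Kc k)) = 0 := by
      apply cfn_inj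
      rw [map_sub, map_smul, cfn_one, map_zero]
      ext
      simp
    rw [e]
    exact DGCat.Ex.zero

/-- the complex of the represented functor -/
@[reducible] noncomputable def Wc : Cpx.{0} k := ⟨WH ρ Φ hΦ, WC ρ Φ hΦ⟩

/-- the map to `k` given by a functional -/
noncomputable def pF (l : V →ₗ[k] k) : (Ch.{0} k).Hom (cob (Wc ρ Φ hΦ)) (cob (Kc k)) :=
  cmk (X := Wc ρ Φ hΦ) (Y := Kc k) (l ∘ₗ ev ρ Φ hΦ) 0 (fun i φ hφ => by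
    by_cases hi : i = 0
    · subst hi
      simp [Cx.concentrated]
    · rw [LinearMap.comp_apply, ev_gr ρ Φ hΦ hi hφ, map_zero]
      exact Submodule.zero_mem _)

lemma cfn_pF (l : V →ₗ[k] k) (φ : WH ρ Φ hΦ) : cfn (pF ρ Φ hΦ l) φ = l (ev ρ Φ hΦ φ) := rfl

/-- the map from `k` given by a vector -/
noncomputable def qF (x : V) : (Ch.{0} k).Hom (cob (Kc k)) (cob (Wc ρ Φ hΦ)) :=
  cmk (X := Kc k) (Y := Wc ρ Φ hΦ) (cv ρ Φ hΦ ∘ₗ LinearMap.toSpanSingleton k V x) 0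
    (fun i c hc => by
      by_cases hi : i = 0
      · subst hi
        exact cv_mem ρ Φ hΦ _
      · rw [Cx.mem_concentrated hi hc, map_zero]
        exact Submodule.zero_mem _)

lemma cfn_qF (x : V) (c : k) : cfn (qF ρ Φ hΦ x) c = cv ρ Φ hΦ (c • x) := rfl

lemma pF_z0 (l : V →ₗ[k] k) : (Ch.{0} k).Z0 (pF ρ Φ hΦ l) := by
  refine ⟨cmk_mem _ _ _, ?_⟩
  apply cfn_inj
  rw [cfn_d, map_zero]
  apply LinearMap.ext
  intro φ
  rw [chD_apply]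
  have h1 : (Kc k).cx.d (cfn (pF ρ Φ hΦ l) φ) = 0 := rfl
  rw [h1, cfn_pF, (Wc ρ Φ hΦ).cx.par_d, map_neg, ev_d, neg_zero, map_zero, map_zero, sub_zero]
  rfl

lemma qF_z0 (x : V) : (Ch.{0} k).Z0 (qF ρ Φ hΦ x) := by
  refine ⟨cmk_mem _ _ _, ?_⟩
  apply cfn_inj
  rw [cfn_d, map_zero]
  apply LinearMap.ext
  intro c
  rw [chD_apply]
  have h1 : (Kc k).cx.d c = 0 := rfl
  rw [h1, cfn_qF, d_cv, map_zero, map_zero, map_zero, sub_zero]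
  rfl

lemma pF_qF (l : V →ₗ[k] k) (x : V) :
    (Ch.{0} k).mul (pF ρ Φ hΦ l) (qF ρ Φ hΦ x) = l x • (Ch.{0} k).one (cob (Kc k)) := by
  apply cfn_inj
  rw [map_smul, cfn_one]
  apply LinearMap.ext
  intro c
  rw [cfn_mul, cfn_qF, cfn_pF, ev_cv, map_smul]
  change c * l x = l x * c
  rw [mul_comm]

lemma qF_pF_apply (l : V →ₗ[k] k) (x : V) (φ : WH ρ Φ hΦ) :
    cfn ((Ch.{0} k).mul (qF ρ Φ hΦ x) (pF ρ Φ hΦ l)) φ =
      cv ρ Φ hΦ (l (ev ρ Φ hΦ φ) • x) := rfl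

/-- the action of an element on the represented functor -/
noncomputable def RF (a : FA k (X₀ ⊕ X₁)) :
    (Ch.{0} k).Hom (cob (Wc ρ Φ hΦ)) (cob (Wc ρ Φ hΦ)) :=
  ((ModCat (stage ρ)).rep (ob (repMod ρ Φ hΦ))).map (rmul (stage ρ) a)

lemma cfn_RF (a : FA k (X₀ ⊕ X₁)) (φ : WH ρ Φ hΦ) :
    cfn (RF ρ Φ hΦ a) φ = cv ρ Φ hΦ (ext0 Φ a (ev ρ Φ hΦ φ)) := by
  rw [← ev_rmul, cv_ev]; rfl

/-- if `a` acts on `V` as `l(-) x` -/
lemma RF_eq {a : FA k (X₀ ⊕ X₁)} {l : V →ₗ[k] k} {x : V}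
    (h : ∀ y, ext0 Φ a y = l y • x) :
    RF ρ Φ hΦ a = (Ch.{0} k).mul (qF ρ Φ hΦ x) (pF ρ Φ hΦ l) := by
  apply cfn_inj
  apply LinearMap.ext
  intro φ
  rw [qF_pF_apply, ← h]
  exact cfn_RF ρ Φ hΦ a φ

lemma RF_zero {a : FA k (X₀ ⊕ X₁)} (h : ext0 Φ a = 0) : RF ρ Φ hΦ a = 0 := by
  apply cfn_inj
  apply LinearMap.ext
  intro φ
  refine (cfn_RF ρ Φ hΦ a φ).trans ?_
  rw [h, LinearMap.zero_apply, map_zero, map_zero]; rfl

end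

section

variable {k : Type} [Field k] {X₀ X₁ : Type} (ρ : X₁ → FA k X₀) {N : ℕ}
variable (Φ : FA k X₀ →ₐ[k] Module.End k (Fin N → k))
variable (hΦ : ∀ y, Φ (ρ y) = 0)

lemma gn_Wc : (Ch.{0} k).Gn (cob (Kc k)) (cob (Wc ρ Φ hΦ)) := by
  refine ⟨N, fun i => pF ρ Φ hΦ (LinearMap.proj i), fun i => qF ρ Φ hΦ (Pi.single i 1),
    fun i => pF_z0 _ _ _ _, fun i => qF_z0 _ _ _ _, ?_⟩
  have e : (Ch.{0} k).one (cob (Wc ρ Φ hΦ)) - ∑ i, (Ch.{0} k).mul (qF ρ Φ hΦ (Pi.single i 1))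
      (pF ρ Φ hΦ (LinearMap.proj i)) = 0 := by
    rw [sub_eq_zero]
    apply cfn_inj
    rw [map_sum, cfn_one]
    apply LinearMap.ext
    intro φ
    rw [LinearMap.sum_apply, LinearMap.id_apply]
    have e3 : ∀ i : Fin N, cfn ((Ch.{0} k).mul (qF ρ Φ hΦ (Pi.single i 1))
      (pF ρ Φ hΦ (LinearMap.proj i))) φ =
      cv ρ Φ hΦ ((ev ρ Φ hΦ φ) i • Pi.single i 1) := fun i => rfl
    rw [Finset.sum_congr rfl fun i _ => e3 i]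
    refine Eq.trans ?_ (map_sum (cv ρ Φ hΦ) (fun i => (ev ρ Φ hΦ φ) i • Pi.single i 1) _)
    have e4 : ∑ i, (ev ρ Φ hΦ φ) i • (Pi.single i 1 : Fin N → k) = ev ρ Φ hΦ φ := by
      ext j
      simp [Finset.sum_apply, Pi.single_apply]
    rw [e4, cv_ev]
  rw [e]; exact DGCat.Ex.zero

end

end Pool.Agent.TH137.DG
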