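import Pool.Agent.TH137.DG.SemiFree

/-!
# Splitting homotopy idempotents of a dg algebra
-/

set_option autoImplicit false

namespace Pool.Agent.TH137.DG

section

variable {k : Type} [Field k] {A : Type} [Ring A] [Algebra k A]

/-- a closed element `g` of degree `0` with a homotopy from `g` to `g²` and the next homotopy -/
structure HIdem (X : DGAlg k A) where
  /-- the idempotent -/
  g : A
  /-- the homotopy -/
  η : A
  /-- the next homotopy -/
  ζ : A
  hg : g ∈ X.cx.gr 0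
  hη : η ∈ X.cx.gr (-1)
  hζ : ζ ∈ X.cx.gr (-2)
  dg : X.cx.d g = 0
  dη : X.cx.d η = g * g - g
  dζ : X.cx.d ζ = η * g - g * η

lemma DGAlg.d_one (X : DGAlg k A) : X.cx.d 1 = 0 := X.toCat.d_one ()

/-- each element of degree zero which is idempotent up to homotopy can be completed -/
lemma exists_hIdem (X : DGAlg k A) (g : A) (hg : g ∈ X.cx.gr 0) (dg : X.cx.d g = 0)
    (h : ∃ y, X.cx.d y = g * g - g) : ∃ E : HIdem X, E.g = g := by
  have hgg : g * g ∈ X.cx.gr 0 := by simpa using X.mul_mem hg hg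
  obtain ⟨y, hy⟩ := h
  obtain ⟨e, he, de⟩ := X.cx.exact_homog (n := -1) (x := g * g - g)
    (by simpa using Submodule.sub_mem _ hgg hg) hy
  have lg : ∀ b, X.cx.d (g * b) = g * X.cx.d b := by
    intro b; rw [X.leibniz b hg, dg]; simp
  have le : ∀ b, X.cx.d (e * b) = (g * g - g) * b - e * X.cx.d b := by
    intro b; rw [X.leibniz b he, de]; simp; abel
  have mg : ∀ {n : ℤ} {b : A}, b ∈ X.cx.gr n → g * b ∈ X.cx.gr n := by
    intro n b hb; simpa using X.mul_mem hg hb
  have gm : ∀ {n : ℤ} {b : A}, b ∈ X.cx.gr n → b * g ∈ X.cx.gr n := by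
    intro n b hb; simpa using X.mul_mem hb hg
  obtain ⟨θ, hθ⟩ : ∃ θ, θ = e * g - g * e := ⟨_, rfl⟩
  have mθ : θ ∈ X.cx.gr (-1) := by
    rw [hθ]; exact Submodule.sub_mem _ (gm he) (mg he)
  have dθ : X.cx.d θ = 0 := by
    rw [hθ, map_sub, le, lg, de, dg]; noncomm_ring
  have lθ : ∀ b, X.cx.d (θ * b) = - (θ * X.cx.d b) := by
    intro b; rw [X.leibniz b mθ, dθ]; simp
  have ee : e * e ∈ X.cx.gr (-2) := by simpa using X.mul_mem he he
  have eθ : e * θ ∈ X.cx.gr (-2) := by simpa using X.mul_mem he mθ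
  have θe : θ * e ∈ X.cx.gr (-2) := by simpa using X.mul_mem mθ he
  refine ⟨⟨g, e + (g * θ - θ * g), e * e - 2 • (e * θ * g - g * (θ * e) + g * (e * e) * g)
    - (e * θ - θ * e), hg, ?_, ?_, dg, ?_, ?_⟩, rfl⟩
  · exact Submodule.add_mem _ he (Submodule.sub_mem _ (mg mθ) (gm mθ))
  · refine Submodule.sub_mem _ (Submodule.sub_mem _ ee ?_) (Submodule.sub_mem _ eθ θe)
    rw [two_smul]
    have : e * θ * g - g * (θ * e) + g * (e * e) * g ∈ X.cx.gr (-2) :=
      Submodule.add_mem _ (Submodule.sub_mem _ (gm eθ) (mg θe)) (gm (mg ee))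
    exact Submodule.add_mem _ this this
  · rw [map_add, map_sub, lg, lθ, dg, de, dθ]; simp
  · rw [map_sub, map_sub, map_nsmul, map_add, map_sub]
    rw [show e * θ * g = e * (θ * g) by rw [mul_assoc]]
    rw [show g * (e * e) * g = g * (e * (e * g)) by simp only [mul_assoc]]
    simp only [map_sub, le, lθ, lg, de, dg, dθ]
    rw [hθ]
    noncomm_ring

variable {X : DGAlg k A} (E : HIdem X)

namespace HIdem

/-- the degrees of the generators of the telescope -/
def δ : ℕ ⊕ ℕ → ℤ := Sum.elim (fun _ => 0) (fun _ => -1)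

/-- the differentials of the generators of the telescope -/
noncomputable def dd : ℕ ⊕ ℕ → (ℕ ⊕ ℕ →₀ A) :=
  Sum.elim (fun _ => 0) (fun i => Finsupp.single (Sum.inl i) 1 - Finsupp.single (Sum.inl (i + 1)) E.g)

lemma dd_inl (i : ℕ) : E.dd (Sum.inl i) = 0 := rfl

lemma dd_inr (i : ℕ) : E.dd (Sum.inr i) =
    Finsupp.single (Sum.inl i) 1 - Finsupp.single (Sum.inl (i + 1)) E.g := rfl

lemma y_mem (i : ℕ) {n : ℤ} {a : A} (h : a ∈ X.cx.gr n) :
    Finsupp.single (Sum.inl i) a ∈ sfGr X δ n :=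
  single_mem_sfGr X δ (by simpa [δ] using h)

lemma z_mem (i : ℕ) {n : ℤ} {a : A} (h : a ∈ X.cx.gr (n + 1)) :
    Finsupp.single (Sum.inr i) a ∈ sfGr X δ n :=
  single_mem_sfGr X δ (by simpa [δ] using h)

lemma hD (i : ℕ ⊕ ℕ) : E.dd i ∈ sfGr X δ (δ i + 1) := by
  rcases i with i | i
  · exact Submodule.zero_mem _
  · rw [dd_inr]
    exact Submodule.sub_mem _ (y_mem i (by simpa [δ] using X.one_mem))
      (y_mem _ (by simpa [δ] using E.hg))

lemma D_y (i : ℕ) (a : A) : sfD X E.dd (Finsupp.single (Sum.inl i) a) =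
    Finsupp.single (Sum.inl i) (X.cx.d a) := by
  rw [sfD_single, dd_inl, smul_zero, add_zero]

lemma D_z (i : ℕ) (a : A) : sfD X E.dd (Finsupp.single (Sum.inr i) a) =
    Finsupp.single (Sum.inr i) (X.cx.d a) + Finsupp.single (Sum.inl i) (X.cx.par a) -
      Finsupp.single (Sum.inl (i + 1)) (X.cx.par a * E.g) := by
  rw [sfD_single, dd_inr, smul_sub, Finsupp.smul_single, Finsupp.smul_single, smul_eq_mul,
    smul_eq_mul, mul_one]
  abel

lemma hDD (i : ℕ ⊕ ℕ) : sfD X E.dd (E.dd i) = 0 := by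
  rcases i with i | i
  · rw [dd_inl, map_zero]
  · rw [dd_inr, map_sub, D_y, D_y, E.dg, X.d_one]; simp

/-- the telescope -/
@[reducible] noncomputable def T : DGMod X := semiFree X δ E.dd E.hD E.hDD

/-- the inclusion of the telescope -/
noncomputable def u : (ModCat X).Hom (ob E.T) (ob X.self) :=
  mkHom (P := E.T) (Q := X.self) (Finsupp.lsingle (Sum.inl 0)) 0
    (fun n a ha => by rw [add_zero]; exact y_mem 0 ha)
    (fun a x => by
      change Finsupp.single (Sum.inl 0) (a * x) = a • Finsupp.single (Sum.inl 0) x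
      rw [Finsupp.smul_single, smul_eq_mul])

lemma fn_u (a : A) : fn E.u a = Finsupp.single (Sum.inl 0) a := rfl

lemma u_mem : E.u ∈ ((ModCat X).cx (ob E.T) (ob X.self)).gr 0 := mk_mem _ _ _ _

lemma d_u : ((ModCat X).cx (ob E.T) (ob X.self)).d E.u = 0 := by
  apply fn_ext
  intro n x hx
  rw [fn_d _ hx, fn_u, fn_u]
  have : E.T.cx.d (Finsupp.single (Sum.inl 0) x) = Finsupp.single (Sum.inl 0) (X.cx.d x) :=
    E.D_y 0 x
  rw [this, sub_self, smul_zero, map_zero]
  rfl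

/-- the projection to the telescope -/
noncomputable def v : (ModCat X).Hom (ob X.self) (ob E.T) :=
  sfHom E.hD E.hDD (P := X.self) (n := 0)
    (Sum.elim (fun _ => E.g) (fun _ => - E.η)) (fun i => by
      rcases i with i | i
      · simpa [δ] using E.hg
      · simpa [δ] using Submodule.neg_mem _ E.hη)

lemma fn_v_y (i : ℕ) (a : A) : fn E.v (Finsupp.single (Sum.inl i) a) = a * E.g :=
  fn_sfHom _ _ _ _ _ _

lemma fn_v_z (i : ℕ) (a : A) : fn E.v (Finsupp.single (Sum.inr i) a) = - (a * E.η) := by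
  have := fn_sfHom (P := X.self) E.hD E.hDD (n := 0)
    (Sum.elim (fun _ => E.g) (fun _ => - E.η)) (fun i => by
      rcases i with i | i
      · simpa [δ] using E.hg
      · simpa [δ] using Submodule.neg_mem _ E.hη) (Sum.inr i) a
  refine this.trans ?_
  change a * (- E.η) = _
  rw [mul_neg]

lemma v_mem : E.v ∈ ((ModCat X).cx (ob X.self) (ob E.T)).gr 0 := sfHom_mem _ _ _ _

lemma d_v : ((ModCat X).cx (ob X.self) (ob E.T)).d E.v = 0 := by
  apply sf_d_ext
  intro i
  rw [map_zero, LinearMap.zero_apply]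
  rcases i with i | i
  · rw [fn_v_y, dd_inl, map_zero, sub_zero, one_mul]
    have : X.self.cx.d E.g = 0 := E.dg
    rw [this, smul_zero]
  · rw [fn_v_z, dd_inr, map_sub, fn_v_y, fn_v_y, one_mul, one_mul]
    have : X.self.cx.d (- E.η) = E.g - E.g * E.g := by
      rw [map_neg]
      exact (congrArg Neg.neg E.dη).trans (neg_sub _ _)
    rw [this, sub_self, smul_zero]

lemma u_v : (ModCat X).mul E.u E.v = rmul X E.g := by
  apply fn_ext
  intro n x hx
  rw [fn_mul, fn_u, fn_v_y, fn_rmul]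

/-- a sum -/
noncomputable def S1 (n : ℕ) : ℕ ⊕ ℕ →₀ A := ∑ j ∈ Finset.range n,
  (Finsupp.single (Sum.inr j) E.g + Finsupp.single (Sum.inl (j + 1)) E.η)

/-- a sum -/
noncomputable def S2 (n : ℕ) : ℕ ⊕ ℕ →₀ A := ∑ j ∈ Finset.range n,
  (Finsupp.single (Sum.inl (j + 1)) E.ζ - Finsupp.single (Sum.inr j) E.η)

lemma par_g : X.cx.par E.g = E.g := by rw [X.cx.par_apply E.hg]; simp

lemma par_η : X.cx.par E.η = - E.η := by rw [X.cx.par_apply E.hη]; simp

lemma D_S1 (n : ℕ) : sfD X E.dd (E.S1 n) =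
    Finsupp.single (Sum.inl 0) E.g - Finsupp.single (Sum.inl n) E.g := by
  induction n with
  | zero => simp [S1]
  | succ n ih =>
    rw [S1, Finset.sum_range_succ, ← S1, map_add, ih, map_add, D_z, D_y, E.dg, E.dη, par_g,
      Finsupp.single_zero, Finsupp.single_sub]
    abel

lemma D_S2 (n : ℕ) : sfD X E.dd (E.S2 n) + E.g • E.S1 n =
    E.S1 n + Finsupp.single (Sum.inl 0) E.η - Finsupp.single (Sum.inl n) E.η := by
  induction n with
  | zero => simp [S1, S2]
  | succ n ih =>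
    have e1 : E.S1 (n + 1) = E.S1 n +
      (Finsupp.single (Sum.inr n) E.g + Finsupp.single (Sum.inl (n + 1)) E.η) := by
      rw [S1, Finset.sum_range_succ, ← S1]
    rw [S2, Finset.sum_range_succ, ← S2, map_add, map_sub, D_y, D_z, E.dζ, E.dη, par_η, e1,
      smul_add, smul_add, Finsupp.smul_single, Finsupp.smul_single, smul_eq_mul, smul_eq_mul,
      neg_mul, Finsupp.single_sub, Finsupp.single_sub, Finsupp.single_neg, Finsupp.single_neg]
    have := ih
    rw [← sub_eq_zero] at this ⊢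
    rw [← this]
    abel

/-- the homotopy -/
noncomputable def wv : ℕ ⊕ ℕ → (ℕ ⊕ ℕ →₀ A) :=
  Sum.elim (fun i => E.S1 (i + 1) - Finsupp.single (Sum.inr i) 1) (fun i => E.S2 (i + 2))

lemma S1_mem (n : ℕ) : E.S1 n ∈ sfGr X δ (-1) :=
  Submodule.sum_mem _ fun j _ => Submodule.add_mem _ (z_mem j (by simpa using E.hg))
    (y_mem _ E.hη)

lemma S2_mem (n : ℕ) : E.S2 n ∈ sfGr X δ (-2) :=
  Submodule.sum_mem _ fun j _ => Submodule.sub_mem _ (y_mem _ E.hζ)
    (z_mem j (by simpa using E.hη))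

lemma wv_mem (i : ℕ ⊕ ℕ) : E.wv i ∈ sfGr X δ (δ i + -1) := by
  rcases i with i | i
  · have e : δ (Sum.inl i) + -1 = -1 := rfl
    have h1 : Finsupp.single (Sum.inr i) (1 : A) ∈ sfGr X δ (-1) :=
      z_mem (n := -1) i (by simpa using X.one_mem)
    rw [e]
    exact Submodule.sub_mem _ (E.S1_mem _) h1
  · have e : δ (Sum.inr i) + -1 = -2 := rfl
    rw [e]
    exact E.S2_mem _

/-- the homotopy -/
noncomputable def w : (ModCat X).Hom (ob E.T) (ob E.T) :=
  sfHom E.hD E.hDD (P := E.T) (n := -1) E.wv E.wv_mem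

lemma w_mem : E.w ∈ ((ModCat X).cx (ob E.T) (ob E.T)).gr (-1) := sfHom_mem _ _ _ _

lemma fn_w_y (i : ℕ) (a : A) : fn E.w (Finsupp.single (Sum.inl i) a) =
    a • (E.S1 (i + 1) - Finsupp.single (Sum.inr i) 1) :=
  fn_sfHom _ _ _ _ _ _

lemma fn_w_z (i : ℕ) (a : A) : fn E.w (Finsupp.single (Sum.inr i) a) =
    a • E.S2 (i + 2) :=
  fn_sfHom _ _ _ _ _ _

lemma d_w : ((ModCat X).cx (ob E.T) (ob E.T)).d E.w =
    (ModCat X).mul E.v E.u - (ModCat X).one (ob E.T) := by
  apply sf_d_ext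
  intro i
  rw [map_sub, LinearMap.sub_apply, fn_one, LinearMap.id_apply, fn_mul]
  rcases i with i | i
  · rw [fn_v_y, fn_u, fn_w_y, one_smul, one_mul, dd_inl, map_zero, sub_zero]
    change (0 : ℤ).negOnePow • (sfD X E.dd (E.S1 (i + 1) - Finsupp.single (Sum.inr i) 1)) = _
    rw [map_sub, D_S1, D_z, X.d_one, X.cx.par_apply X.one_mem]
    simp
  · rw [fn_v_z, fn_u, fn_w_z, one_smul, one_mul, dd_inr, map_sub, fn_w_y, fn_w_y, one_smul]
    change (-1 : ℤ).negOnePow • (sfD X E.dd (E.S2 (i + 2)) -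
      (E.S1 (i + 1) - Finsupp.single (Sum.inr i) 1 -
        E.g • (E.S1 (i + 1 + 1) - Finsupp.single (Sum.inr (i + 1)) 1))) = _
    have h := E.D_S2 (i + 2)
    have e1 : E.S1 (i + 1 + 1) = E.S1 (i + 1) +
      (Finsupp.single (Sum.inr (i + 1)) E.g + Finsupp.single (Sum.inl (i + 1 + 1)) E.η) := by
      rw [S1, Finset.sum_range_succ, ← S1]
    have h' : sfD X E.dd (E.S2 (i + 2)) = E.S1 (i + 1 + 1) + Finsupp.single (Sum.inl 0) E.η -
        Finsupp.single (Sum.inl (i + 1 + 1)) E.η - E.g • E.S1 (i + 1 + 1) := by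
      rw [eq_sub_iff_add_eq]; exact h
    rw [h', Int.negOnePow_odd (-1) (by decide), Units.neg_smul, one_smul, smul_sub,
      Finsupp.smul_single, smul_eq_mul, mul_one, Finsupp.single_neg]
    have e2 : E.S1 (i + 1 + 1) - Finsupp.single (Sum.inl (i + 1 + 1)) E.η =
      E.S1 (i + 1) + Finsupp.single (Sum.inr (i + 1)) E.g := by rw [e1]; abel
    rw [show E.S1 (i + 1 + 1) + Finsupp.single (Sum.inl 0) E.η -
        Finsupp.single (Sum.inl (i + 1 + 1)) E.η = E.S1 (i + 1 + 1) -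
        Finsupp.single (Sum.inl (i + 1 + 1)) E.η + Finsupp.single (Sum.inl 0) E.η by abel, e2]
    abel

end HIdem

end

end Pool.Agent.TH137.DG
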