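import Pool.Agent.TH137.DG.FreeAlg

/-!
# Semi-free dg algebras with generators of degrees `0` and `-1`
-/

set_option autoImplicit false

namespace Pool.Agent.TH137.DG

section

variable {k : Type} [Field k] {X₀ X₁ : Type} (ρ : X₁ → FA k X₀)

/-- the degrees of the generators -/
def dl : X₀ ⊕ X₁ → ℤ := Sum.elim (fun _ => 0) (fun _ => -1)

variable (k X₀ X₁) in
/-- the subalgebra generated by the generators of degree `0` -/
noncomputable def ι₀ : FA k X₀ →ₐ[k] FA k (X₀ ⊕ X₁) :=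
  MonoidAlgebra.lift k (FA k (X₀ ⊕ X₁)) (FreeMonoid X₀)
    (FreeMonoid.lift (fun x => wd k [Sum.inl x]))

lemma ι₀_wd (w : List X₀) : ι₀ k X₀ X₁ (wd k w) = wd k (w.map Sum.inl) := by
  induction w with
  | nil => rw [wd_nil, map_one, List.map_nil, wd_nil]
  | cons x w ih =>
    rw [wd_cons, map_mul, ih, List.map_cons, wd_cons k (Sum.inl x)]
    congr 1
    rw [wd, ι₀, MonoidAlgebra.lift_single, one_smul]
    exact FreeMonoid.lift_eval_of _ _

/-- the differentials of the generators -/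
noncomputable def rr : X₀ ⊕ X₁ → FA k (X₀ ⊕ X₁) := Sum.elim (fun _ => 0) (fun y => ι₀ k X₀ X₁ (ρ y))

lemma wdeg_inl (w : List X₀) : wdeg (dl (X₁ := X₁)) (w.map Sum.inl) = 0 := by
  induction w with
  | nil => rfl
  | cons x w ih => rw [List.map_cons, wdeg_cons, ih]; rfl

lemma ι₀_mem (a : FA k X₀) : ι₀ k X₀ X₁ a ∈ faGr dl 0 := by
  induction a using w_induct with
  | h w => rw [ι₀_wd]; exact wd_mem' _ (wdeg_inl w)
  | h0 => simp
  | hadd a b ha hb => rw [map_add]; exact Submodule.add_mem _ ha hb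
  | hs c a ha => rw [map_smul]; exact Submodule.smul_mem _ _ ha

lemma dW_inl (w : List X₀) : dW dl (rr ρ) (w.map Sum.inl) = 0 := by
  induction w with
  | nil => rfl
  | cons x w ih => rw [List.map_cons, dW, ih]; simp [rr]

lemma d_ι₀ (a : FA k X₀) : wlin (dW dl (rr ρ)) (ι₀ k X₀ X₁ a) = 0 := by
  induction a using w_induct with
  | h w => rw [ι₀_wd, wlin_wd, dW_inl]
  | h0 => simp
  | hadd a b ha hb => rw [map_add, map_add, ha, hb, add_zero]
  | hs c a ha => rw [map_smul, map_smul, ha, smul_zero]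

lemma rr_mem (x : X₀ ⊕ X₁) : rr ρ x ∈ faGr dl (dl x + 1) := by
  rcases x with x | y
  · exact Submodule.zero_mem _
  · have e : dl (Sum.inr y : X₀ ⊕ X₁) + 1 = 0 := rfl
    rw [e]; exact ι₀_mem _

lemma d_rr (x : X₀ ⊕ X₁) : wlin (dW dl (rr ρ)) (rr ρ x) = 0 := by
  rcases x with x | y
  · exact map_zero _
  · exact d_ι₀ ρ _

/-- the semi-free dg algebra with generators `X₀` in degree `0` and generators `X₁` in
degree `-1`, with differentials given by `ρ` -/
noncomputable def stage : DGAlg k (FA k (X₀ ⊕ X₁)) := sfAlg dl (rr ρ) (rr_mem ρ) (d_rr ρ)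

lemma stage_d (a : FA k (X₀ ⊕ X₁)) : (stage ρ).cx.d a = wlin (dW dl (rr ρ)) a := rfl

lemma stage_gr (n : ℤ) : (stage ρ).cx.gr n = faGr dl n := rfl

lemma stage_ι₀_mem (a : FA k X₀) : ι₀ k X₀ X₁ a ∈ (stage ρ).cx.gr 0 := ι₀_mem a

lemma stage_d_ι₀ (a : FA k X₀) : (stage ρ).cx.d (ι₀ k X₀ X₁ a) = 0 := d_ι₀ ρ a

lemma stage_d_gen (y : X₁) : (stage ρ).cx.d (wd k [Sum.inr y]) = ι₀ k X₀ X₁ (ρ y) := by
  rw [stage_d, wlin_wd, dW, dW, mul_zero, smul_zero, add_zero, wd_nil, mul_one]; rfl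

/-- the congruence given by the exact elements -/
def hcon : RingCon (FA k X₀) where
  r a b := ∃ z, (stage ρ).cx.d z = ι₀ k X₀ X₁ (a - b)
  iseqv := {
    refl := fun a => ⟨0, by simp⟩
    symm := by
      rintro a b ⟨z, hz⟩
      exact ⟨-z, by rw [map_neg, hz, ← map_neg, neg_sub]⟩
    trans := by
      rintro a b c ⟨z, hz⟩ ⟨z', hz'⟩
      exact ⟨z + z', by rw [map_add, hz, hz', ← map_add, sub_add_sub_cancel]⟩ }
  add' := by
    rintro a b c d ⟨z, hz⟩ ⟨z', hz'⟩
    exact ⟨z + z', by rw [map_add, hz, hz', ← map_add, add_sub_add_comm]⟩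
  mul' := by
    rintro a b c d ⟨z, hz⟩ ⟨z', hz'⟩
    refine ⟨z * ι₀ k X₀ X₁ c + ι₀ k X₀ X₁ b * z', ?_⟩
    have e1 : (stage ρ).cx.d (z * ι₀ k X₀ X₁ c) = ι₀ k X₀ X₁ (a - b) * ι₀ k X₀ X₁ c := by
      have := (stage ρ).toCat.d_mul (x := ()) (y := ()) (z := ()) z (ι₀ k X₀ X₁ c)
      refine this.trans ?_
      change (stage ρ).cx.d z * ι₀ k X₀ X₁ c +
        (stage ρ).cx.par z * (stage ρ).cx.d (ι₀ k X₀ X₁ c) = _
      rw [stage_d_ι₀, mul_zero, add_zero, hz]
    rw [map_add, e1, (stage ρ).leibniz _ (stage_ι₀_mem ρ b), stage_d_ι₀, hz', Int.negOnePow_zero,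
      one_smul, zero_mul, zero_add, ← map_mul, ← map_mul, ← map_add]
    congr 1
    noncomm_ring

lemma hcon_gen (y : X₁) : ((ρ y : FA k X₀) : (hcon ρ).Quotient) = 0 := by
  have : ((ρ y : FA k X₀) : (hcon ρ).Quotient) = ((0 : FA k X₀) : (hcon ρ).Quotient) := by
    rw [RingCon.eq]
    exact ⟨wd k [Sum.inr y], by rw [stage_d_gen, sub_zero]⟩
  exact this

lemma hcon_eq {a b : FA k X₀} (h : (a : (hcon ρ).Quotient) = b) :
    ∃ z, (stage ρ).cx.d z = ι₀ k X₀ X₁ (a - b) := by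
  rw [RingCon.eq] at h
  exact h

/-! ### modules -/

variable {V : Type} [AddCommGroup V] [Module k V] (Φ : FA k X₀ →ₐ[k] Module.End k V)

/-- the extension of a representation by zero -/
noncomputable def ext0 : FA k (X₀ ⊕ X₁) →ₐ[k] Module.End k V :=
  MonoidAlgebra.lift k (Module.End k V) (FreeMonoid (X₀ ⊕ X₁))
    (FreeMonoid.lift (Sum.elim (fun x => Φ (wd k [x])) (fun _ => 0)))

lemma ext0_cons (x : X₀ ⊕ X₁) (w : List (X₀ ⊕ X₁)) : ext0 Φ (wd k (x :: w)) =
    (Sum.elim (fun x => Φ (wd k [x])) (fun _ => 0) x : Module.End k V) * ext0 Φ (wd k w) := by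
  rw [wd_cons, map_mul]
  congr 1
  rw [wd, ext0, MonoidAlgebra.lift_single, one_smul]
  exact FreeMonoid.lift_eval_of _ _

lemma ext0_ι₀ (a : FA k X₀) : ext0 Φ (ι₀ k X₀ X₁ a) = Φ a := by
  induction a using w_induct with
  | h w =>
    rw [ι₀_wd]
    induction w with
    | nil => rw [List.map_nil, wd_nil, wd_nil, map_one, map_one]
    | cons x w ih =>
      rw [List.map_cons, ext0_cons, ih, wd_cons k x w, map_mul]; rfl
  | h0 => simp
  | hadd a b ha hb => rw [map_add, map_add, ha, hb, map_add]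
  | hs c a ha => rw [map_smul, map_smul, ha, map_smul]

lemma ext0_deg {w : List (X₀ ⊕ X₁)} (h : wdeg dl w ≠ 0) : ext0 Φ (wd k w) = 0 := by
  induction w with
  | nil => exact absurd rfl h
  | cons x w ih =>
    rw [ext0_cons]
    rcases x with x | y
    · have : wdeg dl w ≠ 0 := by
        intro h'
        apply h
        rw [wdeg_cons, h']; rfl
      rw [ih this, mul_zero]
    · exact zero_mul _

lemma ext0_gr {n : ℤ} {a : FA k (X₀ ⊕ X₁)} (ha : a ∈ faGr dl n) (h : n ≠ 0) :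
    ext0 Φ a = 0 := by
  induction ha using faGr_induct with
  | h w hw => exact ext0_deg Φ (hw ▸ h)
  | h0 => simp
  | hadd a b _ _ ha hb => rw [map_add, ha, hb, add_zero]
  | hs c a _ ha => rw [map_smul, ha, smul_zero]

variable (hΦ : ∀ y, Φ (ρ y) = 0)

include hΦ in
lemma ext0_d (a : FA k (X₀ ⊕ X₁)) : ext0 Φ ((stage ρ).cx.d a) = 0 := by
  rw [stage_d]
  induction a using w_induct with
  | h w =>
    rw [wlin_wd]
    induction w with
    | nil => exact map_zero _
    | cons x w ih =>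
      have h1 : ext0 Φ (rr ρ x) = 0 := by
        rcases x with x | y
        · exact map_zero _
        · exact (ext0_ι₀ Φ (ρ y)).trans (hΦ y)
      rw [dW, map_add, map_mul, h1, zero_mul, zero_add]
      have h2 : ext0 Φ (wd k [x] * dW dl (rr ρ) w) = 0 := by rw [map_mul, ih, mul_zero]
      rcases Int.even_or_odd (dl x) with hx | hx
      · simpa [Int.negOnePow_even _ hx] using h2
      · simpa [Int.negOnePow_odd _ hx] using h2
  | h0 => simp
  | hadd a b ha hb => rw [map_add, map_add, ha, hb, add_zero]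
  | hs c a ha => rw [map_smul, map_smul, ha, smul_zero]

/-- the dg module concentrated in degree `0` -/
noncomputable def repMod : DGMod (stage ρ) :=
  letI : Module (FA k (X₀ ⊕ X₁)) V := Module.compHom V (ext0 Φ).toRingHom
  haveI : IsScalarTower k (FA k (X₀ ⊕ X₁)) V := ⟨fun c a x => by
    change ext0 Φ (c • a) x = c • (ext0 Φ a x)
    rw [map_smul]; rfl⟩
  { M := V
    cx := Cx.concentrated k V
    smul_mem := fun {m n a x} ha hx => by
      change ext0 Φ a x ∈ _
      by_cases hn : n = 0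
      · by_cases hm : m = 0
        · subst hm hn
          simp [Cx.concentrated]
        · rw [ext0_gr Φ ha hm]; exact Submodule.zero_mem _
      · rw [Cx.mem_concentrated hn hx, map_zero]; exact Submodule.zero_mem _
    leibniz := fun {m a} x ha => by
      have h1 : ((stage ρ).cx.d a) • x = 0 := by
        change ext0 Φ ((stage ρ).cx.d a) x = 0
        rw [ext0_d ρ Φ hΦ]; rfl
      rw [h1]
      change (0 : V) = 0 + m.negOnePow • (a • (0 : V))
      simp }

/-- the underlying space -/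
noncomputable def rv : V ≃ₗ[k] (repMod ρ Φ hΦ).M := LinearEquiv.refl k V

lemma rv_smul (a : FA k (X₀ ⊕ X₁)) (x : V) :
    a • rv ρ Φ hΦ x = rv ρ Φ hΦ (ext0 Φ a x) := rfl

lemma rv_mem (x : V) : rv ρ Φ hΦ x ∈ (repMod ρ Φ hΦ).cx.gr 0 := by
  change x ∈ (Cx.concentrated k V).gr 0
  simp [Cx.concentrated]

lemma repMod_gr {n : ℤ} (hn : n ≠ 0) {x : (repMod ρ Φ hΦ).M}
    (hx : x ∈ (repMod ρ Φ hΦ).cx.gr n) : x = 0 :=
  Cx.mem_concentrated (k := k) (V := V) hn hx

lemma repMod_d (x : (repMod ρ Φ hΦ).M) : (repMod ρ Φ hΦ).cx.d x = 0 := rfl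

end

end Pool.Agent.TH137.DG
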