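import Pool.Agent.TH137.DG.BimodTools
import Pool.Agent.TH137.DG.Stage

/-!
# Smoothness of semi-free dg algebras
-/

set_option autoImplicit false

open TensorProduct

namespace Pool.Agent.TH137.DG

section words

variable {k : Type} [Field k] {Z : Type} [DecidableEq Z]

/-- the double derivation with respect to the generator `x`, on words -/
noncomputable def DW (x : Z) : List Z → FA k Z ⊗[k] FA k Z
  | [] => 0
  | z :: w => (if z = x then (1 : FA k Z) ⊗ₜ[k] wd k w else 0) + lA (wd k [z]) (DW x w)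

variable (k) in
/-- the double derivation with respect to the generator `x` -/
noncomputable def Dd (x : Z) : FA k Z →ₗ[k] FA k Z ⊗[k] FA k Z := wlin (DW x)

lemma Dd_cons (x z : Z) (w : List Z) : Dd k x (wd k (z :: w)) =
    (if z = x then (1 : FA k Z) ⊗ₜ[k] wd k w else 0) + lA (wd k [z]) (Dd k x (wd k w)) := by
  rw [Dd, wlin_wd, wlin_wd, DW]

lemma Dd_nil (x : Z) : Dd k x (wd k ([] : List Z)) = 0 := by
  rw [Dd, wlin_wd, DW]

lemma Dd_one (x : Z) : Dd k x (1 : FA k Z) = 0 := Dd_nil x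

lemma Dd_gen (x z : Z) : Dd k x (wd k [z]) = if z = x then (1 : FA k Z) ⊗ₜ[k] (1 : FA k Z) else 0 := by
  rw [Dd_cons, Dd_nil, map_zero, add_zero, wd_nil]

lemma Dd_mul (x : Z) (a b : FA k Z) : Dd k x (a * b) = rA (Dd k x a) b + lA a (Dd k x b) := by
  induction b using w_induct with
  | h v =>
    induction a using w_induct with
    | h u =>
      induction u with
      | nil => rw [wd_nil, one_mul, Dd_one, map_zero, LinearMap.zero_apply, lA_one, zero_add]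
      | cons z u ih =>
        rw [wd_cons k z u, mul_assoc, ← wd_append, ← wd_cons, ← wd_cons, Dd_cons, wd_append, ih,
          Dd_cons, map_add, map_add, LinearMap.add_apply, ← lA_rA, wd_cons k z u, lA_lA]
        split
        · rw [rA_tmul, add_assoc]
        · rw [map_zero, LinearMap.zero_apply, zero_add, zero_add]
    | h0 => simp
    | hadd a a' ha ha' =>
      rw [add_mul, map_add, ha, ha', map_add, map_add, map_add, LinearMap.add_apply,
        LinearMap.add_apply]; abel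
    | hs c a ha =>
      rw [smul_mul_assoc, map_smul, ha, map_smul, map_smul, map_smul, LinearMap.smul_apply,
        LinearMap.smul_apply, smul_add]
  | h0 => simp
  | hadd b b' hb hb' =>
    rw [mul_add, map_add, hb, hb', map_add, map_add, map_add]; abel
  | hs c b hb =>
    rw [mul_smul_comm, map_smul, hb, map_smul, map_smul, map_smul, smul_add]

omit [DecidableEq Z] in
/-- the maps `j_x` -/
noncomputable def jx (x : Z) : FA k Z ⊗[k] FA k Z →ₗ[k] FA k Z ⊗[k] FA k Z :=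
  TensorProduct.map (LinearMap.mulRight k (wd k [x])) LinearMap.id -
    TensorProduct.map LinearMap.id (LinearMap.mulLeft k (wd k [x]))

omit [DecidableEq Z] in
lemma jx_tmul (x : Z) (a b : FA k Z) : jx x (a ⊗ₜ[k] b) =
    (a * wd k [x]) ⊗ₜ[k] b - a ⊗ₜ[k] (wd k [x] * b) := by
  simp [jx]

omit [DecidableEq Z] in
lemma jx_lA (x : Z) (a : FA k Z) (t : FA k Z ⊗[k] FA k Z) : jx x (lA a t) = lA a (jx x t) := by
  induction t using TensorProduct.induction_on with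
  | zero => simp
  | tmul v w => rw [lA_tmul, jx_tmul, jx_tmul, map_sub, lA_tmul, lA_tmul, mul_assoc]
  | add x y hx hy => simp only [map_add, hx, hy]

omit [DecidableEq Z] in
lemma jx_rA (x : Z) (a : FA k Z) (t : FA k Z ⊗[k] FA k Z) : jx x (rA t a) = rA (jx x t) a := by
  induction t using TensorProduct.induction_on with
  | zero => simp
  | tmul v w =>
    rw [rA_tmul, jx_tmul, jx_tmul, map_sub, LinearMap.sub_apply, rA_tmul, rA_tmul, mul_assoc]
  | add x y hx hy => simp only [map_add, LinearMap.add_apply, hx, hy]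

/-- the fundamental formula -/
lemma sum_jx_Dd [Fintype Z] (a : FA k Z) :
    ∑ x, jx x (Dd k x a) = a ⊗ₜ[k] (1 : FA k Z) - (1 : FA k Z) ⊗ₜ[k] a := by
  induction a using w_induct with
  | h w =>
    induction w with
    | nil => simp only [wd_nil, Dd_one, map_zero, Finset.sum_const_zero, sub_self]
    | cons z w ih =>
      simp only [Dd_cons, map_add, Finset.sum_add_distrib, jx_lA]
      rw [← map_sum, ih, map_sub, lA_tmul, lA_tmul, mul_one]
      have : ∑ x, jx x (if z = x then (1 : FA k Z) ⊗ₜ[k] wd k w else 0) =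
          wd k [z] ⊗ₜ[k] wd k w - (1 : FA k Z) ⊗ₜ[k] wd k (z :: w) := by
        rw [Finset.sum_eq_single z]
        · rw [if_pos rfl, jx_tmul, one_mul, ← wd_cons]
        · intro b _ hb
          rw [if_neg (Ne.symm hb), map_zero]
        · intro h
          exact absurd (Finset.mem_univ _) h
      rw [this, ← wd_cons]
      abel
  | h0 => simp
  | hadd a b ha hb =>
    simp only [map_add, Finset.sum_add_distrib, ha, hb, add_tmul, tmul_add]
    abel
  | hs c a ha =>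
    simp only [map_smul, ← Finset.smul_sum, ha, smul_sub, smul_tmul', tmul_smul]

/-- the maps `s_x` -/
noncomputable def sx (x : Z) : FA k Z ⊗[k] FA k Z →ₗ[k] FA k Z ⊗[k] FA k Z :=
  TensorProduct.lift (rA.comp (Dd k x))

lemma sx_tmul (x : Z) (a b : FA k Z) : sx x (a ⊗ₜ[k] b) = rA (Dd k x a) b := by
  rw [sx, TensorProduct.lift.tmul]; rfl

lemma sx_rA (x : Z) (a : FA k Z) (t : FA k Z ⊗[k] FA k Z) : sx x (rA t a) = rA (sx x t) a := by
  induction t using TensorProduct.induction_on with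
  | zero => simp
  | tmul v w => rw [rA_tmul, sx_tmul, sx_tmul, rA_rA]
  | add x y hx hy => simp only [map_add, LinearMap.add_apply, hx, hy]

omit [DecidableEq Z] in
/-- the multiplication -/
noncomputable def mu : FA k Z ⊗[k] FA k Z →ₗ[k] FA k Z := LinearMap.mul' k (FA k Z)

omit [DecidableEq Z] in
lemma mu_tmul (a b : FA k Z) : mu (a ⊗ₜ[k] b) = a * b := LinearMap.mul'_apply

lemma sx_lA (x : Z) (a : FA k Z) (t : FA k Z ⊗[k] FA k Z) :
    sx x (lA a t) = lA a (sx x t) + rA (Dd k x a) (mu t) := by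
  induction t using TensorProduct.induction_on with
  | zero => simp
  | tmul v w =>
    rw [lA_tmul, sx_tmul, sx_tmul, mu_tmul, Dd_mul, map_add, LinearMap.add_apply, ← rA_rA,
      lA_rA, add_comm]
  | add x y hx hy => simp only [map_add, hx, hy]; abel

lemma sx_jx (x y : Z) (t : FA k Z ⊗[k] FA k Z) : sx x (jx y t) = if y = x then t else 0 := by
  induction t using TensorProduct.induction_on with
  | zero => simp
  | tmul v w =>
    rw [jx_tmul, map_sub, sx_tmul, sx_tmul, Dd_mul, map_add, LinearMap.add_apply, ← rA_rA,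
      add_sub_cancel_left, Dd_gen]
    split
    · rw [lA_tmul, rA_tmul, mul_one, one_mul]
    · simp
  | add a b ha hb =>
    rw [map_add, map_add, ha, hb]
    split <;> simp

lemma sum_jx_sx [Fintype Z] (t : FA k Z ⊗[k] FA k Z) :
    ∑ x, jx x (sx x t) = t - (1 : FA k Z) ⊗ₜ[k] mu t := by
  induction t using TensorProduct.induction_on with
  | zero => simp
  | tmul v w =>
    simp only [sx_tmul, jx_rA]
    have : ∑ x, rA (jx x (Dd k x v)) w = rA (∑ x, jx x (Dd k x v)) w := by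
      rw [map_sum, LinearMap.sum_apply]
    rw [this, sum_jx_Dd, map_sub, LinearMap.sub_apply, rA_tmul, rA_tmul, mu_tmul, one_mul]
  | add a b ha hb =>
    simp only [map_add, Finset.sum_add_distrib, ha, hb, tmul_add]
    abel

omit [DecidableEq Z] in
lemma mu_jx (x : Z) (t : FA k Z ⊗[k] FA k Z) : mu (jx x t) = 0 := by
  induction t using TensorProduct.induction_on with
  | zero => simp
  | tmul v w => rw [jx_tmul, map_sub, mu_tmul, mu_tmul, mul_assoc, sub_self]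
  | add a b ha hb => simp only [map_add, ha, hb, add_zero]

end words

section smooth

variable {k : Type} [Field k] {n₀ n₁ : ℕ} (ρ : Fin n₁ → FA k (Fin n₀))

lemma mu_mem {n : ℤ} {t : FA k (Fin n₀ ⊕ Fin n₁) ⊗[k] FA k (Fin n₀ ⊕ Fin n₁)}
    (ht : t ∈ tGr (stage ρ).cx (stage ρ).cx 0 n) : mu t ∈ (stage ρ).cx.gr n := by
  induction ht using tGr_induct with
  | h i j v w hv hw e =>
    rw [mu_tmul, ← e, add_zero]
    exact (stage ρ).mul_mem hv hw
  | h0 => simp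
  | hadd a b _ _ ha hb => rw [map_add]; exact Submodule.add_mem _ ha hb
  | hs c a _ ha => rw [map_smul]; exact Submodule.smul_mem _ _ ha

lemma mu_d (t : FA k (Fin n₀ ⊕ Fin n₁) ⊗[k] FA k (Fin n₀ ⊕ Fin n₁)) :
    mu (tD (stage ρ).cx (stage ρ).cx 0 t) = (stage ρ).cx.d (mu t) := by
  induction t using t_induct (stage ρ).cx (stage ρ).cx with
  | h i j v w hv hw =>
    rw [tD_tmul, map_add, LinearMap.map_smul_of_tower, mu_tmul, mu_tmul, mu_tmul,
      (stage ρ).leibniz w hv, (stage ρ).cx.par_apply hv, Int.negOnePow_zero, one_smul]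
    rcases Int.even_or_odd i with hi | hi <;>
      simp [Int.negOnePow_even, Int.negOnePow_odd, hi]
  | h0 => simp
  | hadd a b ha hb => simp only [map_add, ha, hb]

lemma mu_lA (a : FA k (Fin n₀ ⊕ Fin n₁))
    (t : FA k (Fin n₀ ⊕ Fin n₁) ⊗[k] FA k (Fin n₀ ⊕ Fin n₁)) : mu (lA a t) = a * mu t := by
  induction t using TensorProduct.induction_on with
  | zero => simp
  | tmul v w => rw [lA_tmul, mu_tmul, mu_tmul, mul_assoc]
  | add x y hx hy => simp only [map_add, hx, hy, mul_add]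

lemma mu_rA (a : FA k (Fin n₀ ⊕ Fin n₁))
    (t : FA k (Fin n₀ ⊕ Fin n₁) ⊗[k] FA k (Fin n₀ ⊕ Fin n₁)) : mu (rA t a) = mu t * a := by
  induction t using TensorProduct.induction_on with
  | zero => simp
  | tmul v w => rw [rA_tmul, mu_tmul, mu_tmul, mul_assoc]
  | add x y hx hy => simp only [map_add, LinearMap.add_apply, hx, hy, add_mul]

/-- the multiplication as a map of bimodules -/
noncomputable def muB : (Fr (stage ρ) 1 (fun _ => 0)).Hom (stage ρ).toCat.diag where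
  f := fun {_ _} => mu ∘ₗ (LinearMap.proj (0 : Fin 1) :
    (Fin 1 → FA k (Fin n₀ ⊕ Fin n₁) ⊗[k] FA k (Fin n₀ ⊕ Fin n₁)) →ₗ[k] _)
  chain := fun _ _ => ⟨fun _ _ ht => mu_mem ρ ((mem_FrC (stage ρ)).1 ht 0),
    fun t => mu_d ρ (t 0)⟩
  f_l := fun a t => mu_lA a (t 0)
  f_r := fun t a => mu_rA a (t 0)

lemma muB_surj (x y : (stage ρ).toCat.Obj) :
    Function.Surjective ((muB ρ).f : (Fr (stage ρ) 1 (fun _ => 0)).M x y →ₗ[k]
      (stage ρ).toCat.diag.M x y) := by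
  intro a
  refine ⟨(fun _ => (show FA k (Fin n₀ ⊕ Fin n₁) from a) ⊗ₜ[k] (1 : FA k (Fin n₀ ⊕ Fin n₁)) :
    Fin 1 → FA k (Fin n₀ ⊕ Fin n₁) ⊗[k] FA k (Fin n₀ ⊕ Fin n₁)), ?_⟩
  exact (mu_tmul _ _).trans (mul_one _)

/-! ### the degree zero part -/

lemma gen0_mem (x : Fin n₀) : wd k [(Sum.inl x : Fin n₀ ⊕ Fin n₁)] ∈ (stage ρ).cx.gr 0 :=
  wd_mem' dl (w := [Sum.inl x]) (n := 0) (by rw [wdeg_cons, wdeg_nil]; rfl)

lemma gen0_d (x : Fin n₀) : (stage ρ).cx.d (wd k [(Sum.inl x : Fin n₀ ⊕ Fin n₁)]) = 0 := by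
  rw [stage_d, wlin_wd, dW, dW, mul_zero, smul_zero, add_zero, wd_nil, mul_one]; rfl

lemma jx0_mem (x : Fin n₀) {n : ℤ} {t : FA k (Fin n₀ ⊕ Fin n₁) ⊗[k] FA k (Fin n₀ ⊕ Fin n₁)}
    (ht : t ∈ tGr (stage ρ).cx (stage ρ).cx 0 n) :
    jx (Sum.inl x) t ∈ tGr (stage ρ).cx (stage ρ).cx 0 n := by
  induction ht using tGr_induct with
  | h i j v w hv hw e =>
    rw [jx_tmul]
    refine Submodule.sub_mem _ (tmul_mem ((stage ρ).mul_mem hv (gen0_mem ρ x)) hw (by omega))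
      (tmul_mem hv ((stage ρ).mul_mem (gen0_mem ρ x) hw) (by omega))
  | h0 => simp
  | hadd a b _ _ ha hb => rw [map_add]; exact Submodule.add_mem _ ha hb
  | hs c a _ ha => rw [map_smul]; exact Submodule.smul_mem _ _ ha

lemma jx0_d (x : Fin n₀) (t : FA k (Fin n₀ ⊕ Fin n₁) ⊗[k] FA k (Fin n₀ ⊕ Fin n₁)) :
    jx (Sum.inl x) (tD (stage ρ).cx (stage ρ).cx 0 t) =
      tD (stage ρ).cx (stage ρ).cx 0 (jx (Sum.inl x) t) := by
  induction t using t_induct (stage ρ).cx (stage ρ).cx with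
  | h i j v w hv hw =>
    rw [tD_tmul, map_add, LinearMap.map_smul_of_tower, jx_tmul, jx_tmul, jx_tmul, map_sub,
      tD_tmul, tD_tmul, (stage ρ).leibniz _ hv, gen0_d, (stage ρ).leibniz _ (gen0_mem ρ x),
      gen0_d, (stage ρ).par_mul' hv, (stage ρ).cx.par_apply (gen0_mem ρ x),
      (stage ρ).cx.par_apply hv, Int.negOnePow_zero]
    rcases Int.even_or_odd i with hi | hi <;>
      (simp [Int.negOnePow_even, Int.negOnePow_odd, hi, neg_tmul]; try abel)
  | h0 => simp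
  | hadd a b ha hb => simp only [map_add, ha, hb]

variable (k n₀ n₁) in
/-- the sum of the maps `j_x` over the generators of degree `0` -/
noncomputable def j0 : (Fin n₀ → FA k (Fin n₀ ⊕ Fin n₁) ⊗[k] FA k (Fin n₀ ⊕ Fin n₁)) →ₗ[k]
    FA k (Fin n₀ ⊕ Fin n₁) ⊗[k] FA k (Fin n₀ ⊕ Fin n₁) :=
  ∑ x : Fin n₀, jx (Sum.inl x) ∘ₗ LinearMap.proj x

lemma j0_apply (t : Fin n₀ → FA k (Fin n₀ ⊕ Fin n₁) ⊗[k] FA k (Fin n₀ ⊕ Fin n₁)) :
    j0 k n₀ n₁ t = ∑ x : Fin n₀, jx (Sum.inl x) (t x) := by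
  rw [j0, LinearMap.sum_apply]; rfl

/-- the kernel of the multiplication -/
noncomputable def KB : Bimod (stage ρ).toCat := kerBimod (muB ρ)

lemma mu_j0 (t : Fin n₀ → FA k (Fin n₀ ⊕ Fin n₁) ⊗[k] FA k (Fin n₀ ⊕ Fin n₁)) :
    mu (j0 k n₀ n₁ t) = 0 := by
  rw [j0_apply, map_sum]
  exact Finset.sum_eq_zero fun x _ => mu_jx _ _

/-- an element of the kernel -/
noncomputable def mkK (t : FA k (Fin n₀ ⊕ Fin n₁) ⊗[k] FA k (Fin n₀ ⊕ Fin n₁)) (ht : mu t = 0)
    (x y : (stage ρ).toCat.Obj) : (KB ρ).M x y :=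
  ⟨(fun _ => t : Fin 1 → FA k (Fin n₀ ⊕ Fin n₁) ⊗[k] FA k (Fin n₀ ⊕ Fin n₁)), ht⟩

/-- the value of an element of the kernel -/
noncomputable def vK {x y : (stage ρ).toCat.Obj} (t : (KB ρ).M x y) :
    FA k (Fin n₀ ⊕ Fin n₁) ⊗[k] FA k (Fin n₀ ⊕ Fin n₁) :=
  (t.1 : Fin 1 → FA k (Fin n₀ ⊕ Fin n₁) ⊗[k] FA k (Fin n₀ ⊕ Fin n₁)) 0

lemma vK_mk (t : FA k (Fin n₀ ⊕ Fin n₁) ⊗[k] FA k (Fin n₀ ⊕ Fin n₁)) (ht : mu t = 0)
    (x y : (stage ρ).toCat.Obj) : vK ρ (mkK ρ t ht x y) = t := rfl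

lemma vK_inj {x y : (stage ρ).toCat.Obj} {t t' : (KB ρ).M x y} (h : vK ρ t = vK ρ t') :
    t = t' := by
  apply Subtype.ext
  funext i
  rw [Subsingleton.elim i 0]; exact h

lemma mu_vK {x y : (stage ρ).toCat.Obj} (t : (KB ρ).M x y) : mu (vK ρ t) = 0 := t.2

/-- `vK` as a linear map -/
noncomputable def vKl (x y : (stage ρ).toCat.Obj) : (KB ρ).M x y →ₗ[k]
    FA k (Fin n₀ ⊕ Fin n₁) ⊗[k] FA k (Fin n₀ ⊕ Fin n₁) where
  toFun := vK ρ
  map_add' _ _ := rfl
  map_smul' _ _ := rfl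

lemma j0_mem {n : ℤ} {t : Fin n₀ → FA k (Fin n₀ ⊕ Fin n₁) ⊗[k] FA k (Fin n₀ ⊕ Fin n₁)}
    (ht : t ∈ (FrC (stage ρ) n₀ (fun _ => 0)).gr n) :
    (fun _ => j0 k n₀ n₁ t : Fin 1 → FA k (Fin n₀ ⊕ Fin n₁) ⊗[k] FA k (Fin n₀ ⊕ Fin n₁)) ∈
      (FrC (stage ρ) 1 (fun _ => 0)).gr n := by
  rw [mem_FrC] at ht ⊢
  intro i
  rw [j0_apply]
  exact Submodule.sum_mem _ fun z _ => jx0_mem ρ z (ht z)

lemma j0_d (t : Fin n₀ → FA k (Fin n₀ ⊕ Fin n₁) ⊗[k] FA k (Fin n₀ ⊕ Fin n₁)) :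
    j0 k n₀ n₁ ((FrC (stage ρ) n₀ (fun _ => 0)).d t) =
      tD (stage ρ).cx (stage ρ).cx 0 (j0 k n₀ n₁ t) := by
  rw [j0_apply, j0_apply, map_sum]
  refine Finset.sum_congr rfl fun z _ => ?_
  rw [FrC_d, jx0_d]

lemma j0_lP (a : FA k (Fin n₀ ⊕ Fin n₁))
    (t : Fin n₀ → FA k (Fin n₀ ⊕ Fin n₁) ⊗[k] FA k (Fin n₀ ⊕ Fin n₁)) :
    j0 k n₀ n₁ (lP (FA k (Fin n₀ ⊕ Fin n₁)) n₀ a t) = lA a (j0 k n₀ n₁ t) := by
  rw [j0_apply, j0_apply, map_sum]
  refine Finset.sum_congr rfl fun z _ => ?_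
  rw [lP_apply, jx_lA]

lemma j0_rP (a : FA k (Fin n₀ ⊕ Fin n₁))
    (t : Fin n₀ → FA k (Fin n₀ ⊕ Fin n₁) ⊗[k] FA k (Fin n₀ ⊕ Fin n₁)) :
    j0 k n₀ n₁ (rP (FA k (Fin n₀ ⊕ Fin n₁)) n₀ t a) = rA (j0 k n₀ n₁ t) a := by
  rw [j0_apply, j0_apply, map_sum, LinearMap.sum_apply]
  refine Finset.sum_congr rfl fun z _ => ?_
  rw [rP_apply, jx_rA]

lemma sx_lA' (x : Fin n₀ ⊕ Fin n₁) (a : FA k (Fin n₀ ⊕ Fin n₁))
    {t : FA k (Fin n₀ ⊕ Fin n₁) ⊗[k] FA k (Fin n₀ ⊕ Fin n₁)} (ht : mu t = 0) :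
    sx x (lA a t) = lA a (sx x t) := by
  rw [sx_lA, ht, map_zero, add_zero]

/-- the first map -/
noncomputable def j0B : (Fr (stage ρ) n₀ (fun _ => 0)).Hom (KB ρ) where
  f := fun {x y} =>
    { toFun := fun t => mkK ρ (j0 k n₀ n₁ t) (mu_j0 t) x y
      map_add' := fun t t' => vK_inj ρ (map_add (j0 k n₀ n₁) t t')
      map_smul' := fun c t => vK_inj ρ (map_smul (j0 k n₀ n₁) c t) }
  chain := fun _ _ => ⟨fun _ _ ht => j0_mem ρ ht, fun t => vK_inj ρ (j0_d ρ t)⟩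
  f_l := fun a t => vK_inj ρ (j0_lP a t)
  f_r := fun t a => vK_inj ρ (j0_rP a t)

/-! ### the part of degree `-1` -/

lemma Dd_ι₀ (y : Fin n₁) (a : FA k (Fin n₀)) :
    Dd k (Sum.inr y : Fin n₀ ⊕ Fin n₁) (ι₀ k (Fin n₀) (Fin n₁) a) = 0 := by
  induction a using w_induct with
  | h w =>
    rw [ι₀_wd]
    induction w with
    | nil => exact Dd_nil _
    | cons x w ih =>
      rw [List.map_cons, Dd_cons, ih, map_zero, add_zero, if_neg (by simp)]
  | h0 => simp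
  | hadd a b ha hb => rw [map_add, map_add, ha, hb, add_zero]
  | hs c a ha => rw [map_smul, map_smul, ha, smul_zero]

lemma Dd_rr (y : Fin n₁) (z : Fin n₀ ⊕ Fin n₁) :
    Dd k (Sum.inr y : Fin n₀ ⊕ Fin n₁) (rr ρ z) = 0 := by
  rcases z with x | z
  · exact map_zero _
  · exact Dd_ι₀ y _

lemma gen_mem (z : Fin n₀ ⊕ Fin n₁) : wd k [z] ∈ (stage ρ).cx.gr (dl z) :=
  wd_mem' dl (w := [z]) (n := dl z) (by rw [wdeg_cons, wdeg_nil, add_zero])

lemma gen_d (z : Fin n₀ ⊕ Fin n₁) : (stage ρ).cx.d (wd k [z]) = rr ρ z := by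
  rw [stage_d, wlin_wd, dW, dW, mul_zero, smul_zero, add_zero, wd_nil, mul_one]

lemma Dd_mem (y : Fin n₁) (w : List (Fin n₀ ⊕ Fin n₁)) :
    Dd k (Sum.inr y) (wd k w) ∈ tGr (stage ρ).cx (stage ρ).cx (-1) (wdeg dl w) := by
  induction w with
  | nil => rw [Dd_nil]; exact Submodule.zero_mem _
  | cons z w ih =>
    rw [Dd_cons, wdeg_cons]
    refine Submodule.add_mem _ ?_ (lA_mem (gen_mem ρ z) ih)
    by_cases h : z = Sum.inr y
    · subst h
      rw [if_pos rfl]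
      have e : dl (Sum.inr y : Fin n₀ ⊕ Fin n₁) = -1 := rfl
      rw [e]
      exact tmul_mem (stage ρ).one_mem (wd_mem dl w) (by ring)
    · rw [if_neg h]; exact Submodule.zero_mem _

lemma Dd_mem' (y : Fin n₁) {n : ℤ} {a : FA k (Fin n₀ ⊕ Fin n₁)} (ha : a ∈ (stage ρ).cx.gr n) :
    Dd k (Sum.inr y) a ∈ tGr (stage ρ).cx (stage ρ).cx (-1) n := by
  rw [stage_gr] at ha
  induction ha using faGr_induct with
  | h w hw => rw [← hw]; exact Dd_mem ρ y w
  | h0 => simp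
  | hadd a b _ _ ha hb => rw [map_add]; exact Submodule.add_mem _ ha hb
  | hs c a _ ha => rw [map_smul]; exact Submodule.smul_mem _ _ ha

lemma Dd_d (y : Fin n₁) (a : FA k (Fin n₀ ⊕ Fin n₁)) :
    Dd k (Sum.inr y) ((stage ρ).cx.d a) =
      tD (stage ρ).cx (stage ρ).cx (-1) (Dd k (Sum.inr y) a) := by
  induction a using w_induct with
  | h w =>
    induction w with
    | nil =>
      have e1 : (stage ρ).cx.d 1 = 0 := (stage ρ).toCat.d_one ()
      rw [wd_nil, Dd_one, e1]; simp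
    | cons z w ih =>
      have h1 : (stage ρ).cx.d (wd k (z :: w)) = rr ρ z * wd k w +
          (dl z).negOnePow • (wd k [z] * (stage ρ).cx.d (wd k w)) := by
        rw [wd_cons, (stage ρ).leibniz _ (gen_mem ρ z), gen_d]
      rw [h1, map_add, Dd_mul, Dd_rr, map_zero, LinearMap.zero_apply, zero_add,
        LinearMap.map_smul_of_tower, Dd_mul, ih, Dd_gen, Dd_cons, map_add,
        leib_lA _ (gen_mem ρ z), gen_d]
      by_cases h : z = Sum.inr y
      · subst h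
        rw [if_pos rfl, if_pos rfl, rA_tmul, one_mul, tD_tmul]
        have e : dl (Sum.inr y : Fin n₀ ⊕ Fin n₁) = -1 := rfl
        have e1 : (stage ρ).cx.d 1 = 0 := (stage ρ).toCat.d_one ()
        rw [e, e1, zero_tmul, zero_add, (stage ρ).cx.par_apply (stage ρ).one_mem, smul_add,
          Int.negOnePow_zero, one_smul]
        abel
      · rw [if_neg h, if_neg h]
        simp
  | h0 => simp
  | hadd a b ha hb => simp only [map_add, ha, hb]
  | hs c a ha => simp only [map_smul, ha]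

lemma sx_mem (y : Fin n₁) {n : ℤ} {t : FA k (Fin n₀ ⊕ Fin n₁) ⊗[k] FA k (Fin n₀ ⊕ Fin n₁)}
    (ht : t ∈ tGr (stage ρ).cx (stage ρ).cx 0 n) :
    sx (Sum.inr y) t ∈ tGr (stage ρ).cx (stage ρ).cx (-1) n := by
  induction ht using tGr_induct with
  | h i j v w hv hw e =>
    rw [sx_tmul, ← e, add_zero]
    exact rA_mem (Dd_mem' ρ y hv) hw
  | h0 => simp
  | hadd a b _ _ ha hb => rw [map_add]; exact Submodule.add_mem _ ha hb
  | hs c a _ ha => rw [map_smul]; exact Submodule.smul_mem _ _ ha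

lemma sx_d (y : Fin n₁) (t : FA k (Fin n₀ ⊕ Fin n₁) ⊗[k] FA k (Fin n₀ ⊕ Fin n₁)) :
    sx (Sum.inr y) (tD (stage ρ).cx (stage ρ).cx 0 t) =
      tD (stage ρ).cx (stage ρ).cx (-1) (sx (Sum.inr y) t) := by
  induction t using t_induct (stage ρ).cx (stage ρ).cx with
  | h i j v w hv hw =>
    rw [tD_tmul, map_add, LinearMap.map_smul_of_tower, sx_tmul, sx_tmul, sx_tmul,
      leib_rA _ _ (Dd_mem' ρ y hv), Dd_d, (stage ρ).cx.par_apply hv, Int.negOnePow_zero, one_smul,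
      LinearMap.map_smul_of_tower, LinearMap.map_smul_of_tower, LinearMap.smul_apply]
  | h0 => simp
  | hadd a b ha hb => simp only [map_add, ha, hb]

/-- the second map -/
noncomputable def pB : (KB ρ).Hom (Fr (stage ρ) n₁ (fun _ => -1)) where
  f := fun {x y} => LinearMap.pi fun z => sx (Sum.inr z) ∘ₗ vKl ρ x y
  chain := fun x y => ⟨fun n t ht => by
      have ht' := (mem_FrC (stage ρ)).1 (show t.1 ∈ (FrC (stage ρ) 1 (fun _ => 0)).gr n from ht)
      refine (mem_FrC (stage ρ)).2 fun z => ?_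
      exact sx_mem ρ z (ht' 0),
    fun t => funext fun z => sx_d ρ z (vK ρ t)⟩
  f_l := fun a t => funext fun z => sx_lA' (Sum.inr z) a (mu_vK ρ t)
  f_r := fun t a => funext fun z =>
    sx_rA (Sum.inr z) (show FA k (Fin n₀ ⊕ Fin n₁) from a) (vK ρ t)

lemma pB_apply {x y : (stage ρ).toCat.Obj} (t : (KB ρ).M x y) (z : Fin n₁) :
    (show Fin n₁ → FA k (Fin n₀ ⊕ Fin n₁) ⊗[k] FA k (Fin n₀ ⊕ Fin n₁) from (pB ρ).f t) z =
      sx (Sum.inr z) (vK ρ t) := rfl

lemma vK_j0B {x y : (stage ρ).toCat.Obj}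
    (t : Fin n₀ → FA k (Fin n₀ ⊕ Fin n₁) ⊗[k] FA k (Fin n₀ ⊕ Fin n₁)) :
    vK ρ ((j0B ρ).f (x := x) (y := y) t) = ∑ x : Fin n₀, jx (Sum.inl x) (t x) := j0_apply t

lemma ses2 : Bimod.ShortExact (j0B ρ) (pB ρ) := by
  intro x y
  refine ⟨?_, ?_, ?_⟩
  · rw [injective_iff_map_eq_zero]
    intro t ht
    change Fin n₀ → FA k (Fin n₀ ⊕ Fin n₁) ⊗[k] FA k (Fin n₀ ⊕ Fin n₁) at t
    change t = 0
    funext z
    have h1 : ∑ x : Fin n₀, jx (Sum.inl x) (t x) = 0 := by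
      rw [← vK_j0B ρ (x := x) (y := y), ht]; rfl
    have h2 := congrArg (sx (Sum.inl z)) h1
    rw [map_sum, map_zero] at h2
    simp only [sx_jx] at h2
    rw [Finset.sum_eq_single z] at h2
    · simpa using h2
    · intro b _ hb
      rw [if_neg (by simpa using hb)]
    · intro h
      exact absurd (Finset.mem_univ _) h
  · intro s
    change Fin n₁ → FA k (Fin n₀ ⊕ Fin n₁) ⊗[k] FA k (Fin n₀ ⊕ Fin n₁) at s
    refine ⟨mkK ρ (∑ z : Fin n₁, jx (Sum.inr z) (s z)) ?_ x y, ?_⟩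
    · rw [map_sum]
      exact Finset.sum_eq_zero fun z _ => mu_jx _ _
    · funext z
      refine (pB_apply ρ _ z).trans ?_
      rw [vK_mk, map_sum]
      simp only [sx_jx]
      rw [Finset.sum_eq_single z]
      · simp
      · intro b _ hb
        rw [if_neg (by simpa using hb)]
      · intro h
        exact absurd (Finset.mem_univ _) h
  · apply le_antisymm
    · rintro _ ⟨t, rfl⟩
      rw [LinearMap.mem_ker]
      funext z
      refine (pB_apply ρ _ z).trans ?_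
      have h1 : sx (Sum.inr z) (∑ x : Fin n₀, jx (Sum.inl x)
          ((t : Fin n₀ → FA k (Fin n₀ ⊕ Fin n₁) ⊗[k] FA k (Fin n₀ ⊕ Fin n₁)) x)) = 0 := by
        rw [map_sum]
        exact Finset.sum_eq_zero fun b _ => by rw [sx_jx, if_neg (by simp)]
      exact (congrArg (sx (Sum.inr z)) (vK_j0B ρ (x := x) (y := y) t)).trans h1
    · intro t ht
      rw [LinearMap.mem_ker] at ht
      refine ⟨(fun z => sx (Sum.inl z) (vK ρ t) :
        Fin n₀ → FA k (Fin n₀ ⊕ Fin n₁) ⊗[k] FA k (Fin n₀ ⊕ Fin n₁)), ?_⟩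
      apply vK_inj
      rw [vK_j0B]
      have h1 := sum_jx_sx (vK ρ t)
      rw [mu_vK, tmul_zero, sub_zero, Fintype.sum_sum_type] at h1
      have h2 : ∑ z : Fin n₁, jx (Sum.inr z) (sx (Sum.inr z) (vK ρ t)) = 0 := by
        apply Finset.sum_eq_zero
        intro z _
        have h3 : sx (Sum.inr z) (vK ρ t) = 0 := congrFun ht z
        rw [h3, map_zero]
      rw [h2, add_zero] at h1
      exact h1

theorem stage_smooth : IsSmooth (stage ρ).toCat := by
  have h0 : (Fr (stage ρ) n₀ (fun _ => 0)).IsPerfect := .free (Fr_isFree _ _ _)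
  have h1 : (Fr (stage ρ) n₁ (fun _ => -1)).IsPerfect := .free (Fr_isFree _ _ _)
  have h2 : (Fr (stage ρ) 1 (fun _ => 0)).IsPerfect := .free (Fr_isFree _ _ _)
  have hK : (KB ρ).IsPerfect := .ses_mid (j0B ρ) (pB ρ) (ses2 ρ) h0 h1
  exact .ses_right (kerIncl (muB ρ)) (muB ρ) (ker_ses _ (muB_surj ρ)) hK h2

end smooth

end Pool.Agent.TH137.DG
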