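import Pool.Agent.TH137.DG.Stmt
import Pool.Agent.TH137.DG.Orth
import Pool.Agent.TH137.DG.Smooth

/-!
# Conversion between the two forms of the definitions
-/

set_option autoImplicit false

open CategoryTheory MonoidalCategory Limits TensorProduct

namespace Pool.Agent.TH137

universe v u v₁ u₁ v₂ u₂ v₃ u₃

/-- conversion of complexes -/
def cC {k : Type} [Field k] {V : Type v} [AddCommGroup V] [Module k V] (X : DG.Cx k V) :
    NC.Cpx.{v} k where
  V := V
  gr := X.gr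
  internal := X.internal
  d := X.d
  d_mem := fun _ _ h => X.d_mem h
  d_d := X.d_d

/-- conversion of dg categories -/
def cA {k : Type} [Field k] (A : DG.DGCat.{v, u} k) : NC.DGCat.{v, u} k where
  Obj := A.Obj
  Hom := fun x y => cC (A.cx x y)
  one := A.one
  mul := fun _ _ _ => ⟨A.mul, fun _ _ _ _ hx hy => A.mul_mem hx hy,
    fun _ _ y hx => A.leibniz y hx⟩
  one_mem := A.one_mem
  one_mul := fun _ _ f => A.one_mul f
  mul_one := fun _ _ f => A.mul_one f
  mul_assoc := fun _ _ _ _ h g f => A.mul_assoc h g f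

/-- conversion of dg functors -/
def cF {k : Type} [Field k] {A : DG.DGCat.{v₁, u₁} k} {B : DG.DGCat.{v₂, u₂} k}
    (F : DG.DGFun A B) : NC.DGFun (cA A) (cA B) where
  obj := F.obj
  map := fun x y => ⟨F.map, (F.map_chain x y).1, (F.map_chain x y).2⟩
  map_one := F.map_one
  map_mul := fun _ _ _ g f => F.map_mul g f

lemma cF_isMorita {k : Type} [Field k] {A : DG.DGCat.{v₁, u₁} k} {B : DG.DGCat.{v₂, u₂} k}
    {F : DG.DGFun A B} (h : DG.IsMorita F) : NC.IsMorita (cF F) :=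
  ⟨fun x y => (h.1 x y).2, h.2⟩

lemma cA_base (k : Type) [Field k] : cA (DG.DGCat.base k) = NC.DGCat.base k := rfl

/-- the functor `k → A` given by an object -/
def npt {k : Type} [Field k] (A : DG.DGCat.{v, u} k) (b : A.Obj) :
    NC.DGFun (NC.DGCat.base k) (cA A) := cF (A.pt b)

lemma npt_isMorita {k : Type} [Field k] {A : DG.DGCat.{v, u} k} {b : A.Obj}
    (h : DG.IsMorita (A.pt b)) : NC.IsMorita (npt A b) := cF_isMorita h

/-- the functor from the empty dg category -/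
def nfromEmpty {k : Type} [Field k] (A : NC.DGCat.{0, 0} k) : NC.DGFun (NC.DGCat.empty k) A where
  obj := fun x => x.elim
  map := fun x _ => x.elim
  map_one := fun x => x.elim
  map_mul := fun x _ _ _ _ => x.elim

lemma sum_zero' {k : Type} [Field k] (X : NC.Cpx.{v} k) (x : X.V) (t : Fin 0 → X.V) :
    x = x - X.sum t := by
  rw [NC.Cpx.sum, Fin.sum_univ_zero, sub_zero]

lemma isMorita_nfromEmpty {k : Type} [Field k] (A : DG.DGCat.{0, 0} k)
    (h : ∀ b, A.Ex (A.one b)) : NC.IsMorita (nfromEmpty (cA A)) := by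
  refine ⟨fun x => x.elim, fun b => ?_⟩
  obtain ⟨e, he, de⟩ := (h b).homog (A.one_mem b)
  refine ⟨0, fun i => i.elim0, fun i => i.elim0, fun i => i.elim0, e, fun i => i.elim0,
    fun i => i.elim0, he, ?_⟩
  exact Eq.trans de (sum_zero' ((cA A).Hom b b) _ _)

section

variable {k : Type} [Field k] (S : ObjectProperty (NC.DGCat.{0, 0} k))
  (hM : ∀ (A B : NC.DGCat.{0, 0} k) (F : A ⟶ B), NC.IsMorita F → (S A ↔ S B))
  (hk : S (NC.DGCat.base k)) (h0 : S (NC.DGCat.empty k))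
  {C : Type u} [Category.{v} C] [Preadditive C] (U : S.FullSubcategory ⥤ C)
  (hU : ∀ (A B : S.FullSubcategory) (F : A ⟶ B), NC.IsMorita F.hom → IsIso (U.map F))
  (hZ : IsZero (U.obj ⟨NC.DGCat.empty k, h0⟩))

include hM hU hZ in
lemma nmap_pt_zero (A : DG.DGCat.{0, 0} k) (hA : S (cA A)) (b : A.Obj) (hb : A.Ex (A.one b)) :
    U.map (ObjectProperty.homMk (npt A b : NC.DGCat.base k ⟶ cA A) :
      (⟨NC.DGCat.base k, hk⟩ : S.FullSubcategory) ⟶ ⟨cA A, hA⟩) = 0 := by
  have h1 : NC.IsMorita (nfromEmpty (cA (A.induced (fun _ : Unit => b)))) :=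
    isMorita_nfromEmpty _ (fun _ => hb)
  have hE : S (cA (A.induced (fun _ : Unit => b))) :=
    (hM _ _ (nfromEmpty (cA (A.induced (fun _ : Unit => b))) :
      NC.DGCat.empty k ⟶ cA (A.induced (fun _ : Unit => b))) h1).1 h0
  have h2 := hU ⟨NC.DGCat.empty k, h0⟩ ⟨_, hE⟩ (ObjectProperty.homMk
    (nfromEmpty (cA (A.induced (fun _ : Unit => b))) :
      NC.DGCat.empty k ⟶ cA (A.induced (fun _ : Unit => b)))) h1
  have h3 : IsZero (U.obj ⟨cA (A.induced (fun _ : Unit => b)), hE⟩) :=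
    hZ.of_iso (@asIso _ _ _ _ _ h2).symm
  have e : (ObjectProperty.homMk (npt A b : NC.DGCat.base k ⟶ cA A) :
      (⟨NC.DGCat.base k, hk⟩ : S.FullSubcategory) ⟶ ⟨cA A, hA⟩) =
      (ObjectProperty.homMk (npt (A.induced (fun _ : Unit => b)) () :
        NC.DGCat.base k ⟶ cA (A.induced (fun _ : Unit => b))) :
        (⟨NC.DGCat.base k, hk⟩ : S.FullSubcategory) ⟶
          ⟨cA (A.induced (fun _ : Unit => b)), hE⟩) ≫
      (ObjectProperty.homMk (cF (A.incl (fun _ : Unit => b)) :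
        cA (A.induced (fun _ : Unit => b)) ⟶ cA A) :
        (⟨cA (A.induced (fun _ : Unit => b)), hE⟩ : S.FullSubcategory) ⟶ ⟨cA A, hA⟩) := by
    apply ObjectProperty.hom_ext
    rfl
  rw [e, U.map_comp, h3.eq_zero_of_tgt (U.map _), zero_comp]

/-- the composite of a point with a functor -/
lemma npt_comp {P D : DG.DGCat.{0, 0} k} (F : DG.DGFun P D) (x : P.Obj) :
    @CategoryStruct.comp (NC.DGCat.{0, 0} k) _ (NC.DGCat.base k) (cA P) (cA D) (npt P x) (cF F) =
      npt D (F.obj x) := by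
  have hmap : ∀ c : k, F.map (c • P.one x) = c • D.one (F.obj x) := by
    intro c
    rw [map_smul, F.map_one]
  have e : ∀ y z, NC.DGFun.map (@CategoryStruct.comp (NC.DGCat.{0, 0} k) _ (NC.DGCat.base k)
      (cA P) (cA D) (npt P x) (cF F)) y z = (npt D (F.obj x)).map y z := by
    intro y z
    apply NC.Cpx.Map.ext
    exact LinearMap.ext hmap
  have key : ∀ (G H : NC.DGFun (NC.DGCat.base k) (cA D)) (ho : G.obj = H.obj),
      HEq G.map H.map → G = H := by
    rintro ⟨o, m, _, _⟩ ⟨o', m', _, _⟩ ho hm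
    cases ho
    cases hm
    rfl
  refine key _ _ rfl ?_
  apply heq_of_eq
  funext y z
  exact e y z

include hM hU hZ in
theorem nkey (P : DG.DGCat.{0, 0} k) (hP : S (cA P)) (x : ℕ → P.Obj)
    (D : ℕ → DG.DGCat.{0, 0} k)
    (F : ∀ m, DG.DGFun P (D m)) (hd : ∀ m, DG.IsMorita ((D m).pt ((F m).obj (x m))))
    (ho : ∀ m n, m ≠ n → (D m).Ex ((D m).one ((F m).obj (x n)))) :
    ∃ (i : ∀ _ : ℕ, U.obj ⟨NC.DGCat.base k, hk⟩ ⟶ U.obj ⟨cA P, hP⟩)
      (p : ∀ _ : ℕ, U.obj ⟨cA P, hP⟩ ⟶ U.obj ⟨NC.DGCat.base k, hk⟩),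
      (∀ n, i n ≫ p n = 𝟙 _) ∧ ∀ m n, m ≠ n → i n ≫ p m = 0 := by
  have hD : ∀ m, S (cA (D m)) := fun m => (hM _ _ (npt (D m) ((F m).obj (x m)) :
    NC.DGCat.base k ⟶ cA (D m)) (npt_isMorita (hd m))).1 hk
  have hI : ∀ m, IsIso (U.map (ObjectProperty.homMk (npt (D m) ((F m).obj (x m)) :
      NC.DGCat.base k ⟶ cA (D m)) :
      (⟨NC.DGCat.base k, hk⟩ : S.FullSubcategory) ⟶ ⟨cA (D m), hD m⟩)) :=
    fun m => hU _ _ _ (npt_isMorita (hd m))
  have e : ∀ m n, (ObjectProperty.homMk (npt P (x n) : NC.DGCat.base k ⟶ cA P) :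
      (⟨NC.DGCat.base k, hk⟩ : S.FullSubcategory) ⟶ ⟨cA P, hP⟩) ≫
      (ObjectProperty.homMk (cF (F m) : cA P ⟶ cA (D m)) :
        (⟨cA P, hP⟩ : S.FullSubcategory) ⟶ ⟨cA (D m), hD m⟩) =
      ObjectProperty.homMk (npt (D m) ((F m).obj (x n)) : NC.DGCat.base k ⟶ cA (D m)) := by
    intro m n
    apply ObjectProperty.hom_ext
    exact npt_comp (F m) (x n)
  refine ⟨fun n => U.map (ObjectProperty.homMk (npt P (x n) : NC.DGCat.base k ⟶ cA P)),
    fun m => U.map (ObjectProperty.homMk (cF (F m) : cA P ⟶ cA (D m))) ≫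
      @inv _ _ _ _ _ (hI m), ?_, ?_⟩
  · intro n
    have := hI n
    rw [← Category.assoc, ← U.map_comp, e, IsIso.hom_inv_id]
  · intro m n hmn
    rw [← Category.assoc, ← U.map_comp, e,
      nmap_pt_zero S hM hk h0 U hU hZ _ _ _ (ho m n hmn), zero_comp]

end

section

variable (k : Type) [Field k] [CharZero k]

/-- the dg algebra is not Schur-finite for any Morita invariant -/
theorem nnot_schur (S : ObjectProperty (NC.DGCat.{0, 0} k))
    (hM : ∀ (A B : NC.DGCat.{0, 0} k) (F : A ⟶ B), NC.IsMorita F → (S A ↔ S B))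
    (hA : S (cA (DG.XA k).toCat)) (hk : S (NC.DGCat.base k)) (h0 : S (NC.DGCat.empty k))
    {C : Type u} [Category.{v} C] [MonoidalCategory C] [SymmetricCategory C] [Preadditive C]
    [Linear ℚ C] [MonoidalPreadditive C] (U : S.FullSubcategory ⥤ C)
    (hU : ∀ (A B : S.FullSubcategory) (F : A ⟶ B), NC.IsMorita F.hom → IsIso (U.map F))
    (hZ : IsZero (U.obj ⟨NC.DGCat.empty k, h0⟩))
    (h1 : Nonempty (U.obj ⟨NC.DGCat.base k, hk⟩ ≅ 𝟙_ C)) (hne : ¬ IsZero (𝟙_ C)) :
    ¬ DG.IsSchurFinite (U.obj ⟨cA (DG.XA k).toCat, hA⟩) := by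
  have hP : S (cA (DG.PP k)) := (hM _ _ (cF (DG.toP k) : cA (DG.XA k).toCat ⟶ cA (DG.PP k))
    (cF_isMorita (DG.toP_morita k))).1 hA
  have hI := hU ⟨cA (DG.XA k).toCat, hA⟩ ⟨cA (DG.PP k), hP⟩
    (ObjectProperty.homMk (cF (DG.toP k) : cA (DG.XA k).toCat ⟶ cA (DG.PP k)))
    (cF_isMorita (DG.toP_morita k))
  obtain ⟨i, p, hip, hz⟩ := nkey S hM hk h0 U hU hZ (DG.PP k) hP (fun n => (some n : Option ℕ))
    (DG.DD k) (DG.FF k) (DG.hd k) (DG.ho k)
  obtain ⟨e⟩ := h1
  let f := @asIso _ _ _ _ _ hI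
  apply DG.not_isSchurFinite
  · intro n
    refine ⟨fun j => e.inv ≫ i j ≫ f.inv, fun j => f.hom ≫ p j ≫ e.hom, ?_, ?_⟩
    · intro j
      simp only [Category.assoc, Iso.inv_hom_id_assoc]
      rw [← Category.assoc (i j), hip, Category.id_comp, e.inv_hom_id]
    · intro a b hab
      simp only [Category.assoc, Iso.inv_hom_id_assoc]
      rw [← Category.assoc (i a), hz _ _ (fun h => hab (Fin.ext h.symm)), zero_comp, comp_zero]
  · exact hne

end

/-! ### smoothness -/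

section

variable {k : Type} [Field k] {A : DG.DGCat.{0, 0} k}

/-- conversion of bimodules -/
def cB (M : DG.Bimod A) : NC.Bimod (cA A) where
  M := fun (x y : A.Obj) => cC (M.cx x y)
  l := fun (x y z : A.Obj) => ⟨M.l (x := x) (y := y) (z := z),
    fun _ _ _ _ hx hy => M.l_mem hx hy, fun _ _ y hx => M.leib_l y hx⟩
  r := fun (x y z : A.Obj) => ⟨M.r (x := x) (y := y) (z := z),
    fun _ _ _ _ hx hy => M.r_mem hx hy, fun _ _ y hx => M.leib_r y hx⟩
  l_one := fun _ _ m => M.l_one m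
  r_one := fun _ _ m => M.r_one m
  l_l := fun _ _ _ _ a b m => M.l_l a b m
  r_r := fun _ _ _ _ m a b => M.r_r m a b
  l_r := fun _ _ _ _ a m b => M.l_r a m b

/-- conversion of maps of bimodules -/
def cBH {M N : DG.Bimod A} (f : M.Hom N) : (cB M).Map (cB N) where
  f := fun (x y : A.Obj) => ⟨f.f (x := x) (y := y), (f.chain x y).1, (f.chain x y).2⟩
  f_l := fun _ _ _ a m => f.f_l a m
  f_r := fun _ _ _ m a => f.f_r m a

lemma cB_ses {L M N : DG.Bimod A} {f : L.Hom M} {g : M.Hom N} (h : DG.Bimod.ShortExact f g) :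
    NC.Bimod.ShortExact (cBH f) (cBH g) := by
  intro x y
  change A.Obj at x y
  refine ⟨(h x y).1, (h x y).2.1, fun m => ?_⟩
  have h3 := (h x y).2.2
  constructor
  · intro hm
    have : m ∈ LinearMap.ker (g.f : M.M x y →ₗ[k] N.M x y) := hm
    rw [← h3] at this
    exact this
  · rintro ⟨l, rfl⟩
    have : (f.f l : M.M x y) ∈ LinearMap.range (f.f : L.M x y →ₗ[k] M.M x y) := ⟨l, rfl⟩
    rw [h3] at this
    exact this

omit A in
lemma lsum_ap {n : ℕ} {φ : Fin n → Type} [∀ i, AddCommMonoid (φ i)] [∀ i, Module k (φ i)]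
    {N : Type} [AddCommMonoid N] [Module k N] (f : ∀ i, φ i →ₗ[k] N) (t : ∀ i, φ i) :
    LinearMap.lsum k φ k f t = ∑ i, f i (t i) := by
  rw [LinearMap.lsum_apply, LinearMap.sum_apply]; rfl

lemma cB_free {M : DG.Bimod A} (h : M.IsFree) : (cB M).IsFree := by
  obtain ⟨n, x, y, δ, e, he, hb⟩ := h
  refine ⟨n, x, y, δ, e, he, fun w z => ?_⟩
  change A.Obj at w z
  have := hb w z
  have e1 : (fun t : (∀ i, ((cA A).Hom (y i) z).V ⊗[k] ((cA A).Hom w (x i)).V) =>
      ∑ i, (cB M).gen (e i) w z (t i)) = (LinearMap.lsum k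
        (fun i => TensorProduct k (A.Hom (y i) z) (A.Hom w (x i))) k
        (fun i => TensorProduct.lift
          ((M.r (x := w) (y := x i) (z := z)).comp (M.l.flip (e i))))) := by
    funext t
    exact (lsum_ap (fun i => TensorProduct.lift
          ((M.r (x := w) (y := x i) (z := z)).comp (M.l.flip (e i)))) t).symm
  rw [← e1] at this
  exact this

lemma cB_perfect {M : DG.Bimod A} (h : M.IsPerfect) : (cB M).IsPerfect := by
  induction h with
  | free h => exact .free (cB_free h)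
  | of_qis_left f hf _ ih => exact .of_qis_left (cBH f) (fun x y => (hf x y).2) ih
  | of_qis_right f hf _ ih => exact .of_qis_right (cBH f) (fun x y => (hf x y).2) ih
  | ses_left f g h _ _ i1 i2 => exact .ses_left (cBH f) (cBH g) (cB_ses h) i1 i2
  | ses_mid f g h _ _ i1 i2 => exact .ses_mid (cBH f) (cBH g) (cB_ses h) i1 i2
  | ses_right f g h _ _ i1 i2 => exact .ses_right (cBH f) (cBH g) (cB_ses h) i1 i2
  | summand i r h _ ih => exact .summand (cBH i) (cBH r) h ih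

lemma cA_smooth (h : DG.IsSmooth A) : NC.IsSmooth (cA A) := cB_perfect h

end

end Pool.Agent.TH137
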