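import Mathlib

/-!
# Differential graded categories: basic definitions

Graded vector spaces are modelled by a vector space together with a family of subspaces of which
it is the direct sum.  Everything is cohomologically graded (the differentials have degree `+1`).
-/

set_option autoImplicit false
set_option linter.checkUnivs false

namespace Pool.Agent.TH137.DG

universe v u v₁ u₁ v₂ u₂ v₃ u₃

/-- The structure of a complex on a vector space `V`: subspaces `gr n` (`n : ℤ`) of which `V` is
the direct sum, and a differential `d` of degree `+1` with `d² = 0`. -/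
structure Cx (k : Type) [Field k] (V : Type v) [AddCommGroup V] [Module k V] where
  /-- the homogeneous elements of degree `n` -/
  gr : ℤ → Submodule k V
  internal : DirectSum.IsInternal gr
  /-- the differential -/
  d : V →ₗ[k] V
  d_mem : ∀ {n : ℤ} {x : V}, x ∈ gr n → d x ∈ gr (n + 1)
  d_d : ∀ x, d (d x) = 0

/-- A chain map (of degree `0`). -/
def IsChainMap {k : Type} [Field k] {V : Type v₁} {W : Type v₂} [AddCommGroup V] [Module k V]
    [AddCommGroup W] [Module k W] (X : Cx k V) (Y : Cx k W) (f : V →ₗ[k] W) : Prop :=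
  (∀ n x, x ∈ X.gr n → f x ∈ Y.gr n) ∧ ∀ x, f (X.d x) = Y.d (f x)

/-- A quasi-isomorphism: a chain map which is bijective on cohomology `ker d / im d`
(injectivity and surjectivity are spelled out). -/
def IsQuasiIso {k : Type} [Field k] {V : Type v₁} {W : Type v₂} [AddCommGroup V] [Module k V]
    [AddCommGroup W] [Module k W] (X : Cx k V) (Y : Cx k W) (f : V →ₗ[k] W) : Prop :=
  IsChainMap X Y f ∧
    (∀ a, X.d a = 0 → (∃ b, Y.d b = f a) → ∃ a', X.d a' = a) ∧
    (∀ b, Y.d b = 0 → ∃ a, X.d a = 0 ∧ ∃ b', Y.d b' = b - f a)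

/-- A dg category over the field `k`.  `mul g f` is the composite of `f : x → y` and
`g : y → z`; the differential satisfies `d (g f) = (d g) f + (-1)^|g| g (d f)`. -/
structure DGCat (k : Type) [Field k] where
  /-- the objects -/
  Obj : Type u
  /-- the total space of the complex of morphisms -/
  Hom : Obj → Obj → Type v
  [addCommGroup : ∀ x y, AddCommGroup (Hom x y)]
  [module : ∀ x y, Module k (Hom x y)]
  /-- grading and differential of the complexes of morphisms -/
  cx : ∀ x y, Cx k (Hom x y)
  /-- the identities -/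
  one : ∀ x, Hom x x
  /-- the composition -/
  mul : ∀ {x y z}, Hom y z →ₗ[k] Hom x y →ₗ[k] Hom x z
  one_mem : ∀ x, one x ∈ (cx x x).gr 0
  mul_mem : ∀ {x y z} {m n : ℤ} {g : Hom y z} {f : Hom x y},
    g ∈ (cx y z).gr m → f ∈ (cx x y).gr n → mul g f ∈ (cx x z).gr (m + n)
  one_mul : ∀ {x y} (f : Hom x y), mul (one y) f = f
  mul_one : ∀ {x y} (f : Hom x y), mul f (one x) = f
  mul_assoc : ∀ {w x y z} (h : Hom y z) (g : Hom x y) (f : Hom w x),
    mul (mul h g) f = mul h (mul g f)
  leibniz : ∀ {x y z} {m : ℤ} {g : Hom y z} (f : Hom x y), g ∈ (cx y z).gr m →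
    (cx x z).d (mul g f) = mul ((cx y z).d g) f + m.negOnePow • mul g ((cx x y).d f)

attribute [instance] DGCat.addCommGroup DGCat.module

/-- A dg functor. -/
@[ext]
structure DGFun {k : Type} [Field k] (A : DGCat.{v₁, u₁} k) (B : DGCat.{v₂, u₂} k) where
  /-- the map on objects -/
  obj : A.Obj → B.Obj
  /-- the maps on morphisms -/
  map : ∀ {x y}, A.Hom x y →ₗ[k] B.Hom (obj x) (obj y)
  map_chain : ∀ x y, IsChainMap (A.cx x y) (B.cx (obj x) (obj y)) map
  map_one : ∀ x, map (A.one x) = B.one (obj x)
  map_mul : ∀ {x y z} (g : A.Hom y z) (f : A.Hom x y), map (A.mul g f) = B.mul (map g) (map f)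

/-- The identity functor. -/
def DGFun.id {k : Type} [Field k] (A : DGCat.{v, u} k) : DGFun A A where
  obj := fun x => x
  map := LinearMap.id
  map_chain := fun _ _ => ⟨fun _ _ h => h, fun _ => rfl⟩
  map_one := fun _ => rfl
  map_mul := fun _ _ => rfl

/-- The composite of two dg functors. -/
def DGFun.comp {k : Type} [Field k] {A : DGCat.{v₁, u₁} k} {B : DGCat.{v₂, u₂} k}
    {C : DGCat.{v₃, u₃} k} (F : DGFun A B) (G : DGFun B C) : DGFun A C where
  obj := fun x => G.obj (F.obj x)
  map := G.map ∘ₗ F.map
  map_chain := fun _ _ => ⟨fun n x h => (G.map_chain _ _).1 n _ ((F.map_chain _ _).1 n x h),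
    fun x => by
      change G.map (F.map _) = _
      rw [(F.map_chain _ _).2, (G.map_chain _ _).2]; rfl⟩
  map_one := fun x => by
    change G.map (F.map _) = _
    rw [F.map_one, G.map_one]
  map_mul := fun g f => by
    change G.map (F.map _) = _
    rw [F.map_mul, G.map_mul]; rfl

/-- The category of (small) dg categories and dg functors. -/
instance DGCat.category (k : Type) [Field k] : CategoryTheory.Category (DGCat.{v, u} k) where
  Hom A B := DGFun A B
  id A := DGFun.id A
  comp F G := F.comp G

/-- A vector space regarded as a complex concentrated in degree `0`. -/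
def Cx.concentrated (k : Type) [Field k] (V : Type v) [AddCommGroup V] [Module k V] : Cx k V where
  gr n := if n = 0 then ⊤ else ⊥
  internal := by
    classical
    rw [DirectSum.isInternal_submodule_iff_iSupIndep_and_iSup_eq_top]
    constructor
    · rw [iSupIndep_def]
      intro i
      by_cases hi : i = 0
      · subst hi
        have : (⨆ j, ⨆ (_ : j ≠ (0 : ℤ)), (if j = 0 then (⊤ : Submodule k V) else ⊥)) = ⊥ := by
          simp only [iSup_eq_bot]
          intro j hj
          simp [hj]
        rw [this]
        exact disjoint_bot_right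
      · simp [hi]
    · apply le_antisymm le_top
      exact le_iSup_of_le 0 (by simp)
  d := 0
  d_mem := fun _ => Submodule.zero_mem _
  d_d := fun _ => rfl

/-- The dg category with one object and endomorphism algebra `k` (in degree `0`). -/
def DGCat.base (k : Type) [Field k] : DGCat.{0, 0} k where
  Obj := Unit
  Hom := fun _ _ => k
  cx := fun _ _ => Cx.concentrated k k
  one := fun _ => 1
  mul := LinearMap.mul k k
  one_mem := fun _ => by simp [Cx.concentrated]
  mul_mem := fun {x y z m n g f} hg hf => by
    simp only [Cx.concentrated] at hg hf ⊢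
    by_cases hm : m = 0
    · by_cases hn : n = 0
      · subst hm hn; simp
      · simp only [hn, if_false, Submodule.mem_bot] at hf
        simp [hf]
    · simp only [hm, if_false, Submodule.mem_bot] at hg
      simp [hg]
  one_mul := fun f => by simp
  mul_one := fun f => by simp
  mul_assoc := fun h g f => by simp [_root_.mul_assoc]
  leibniz := fun f _ => by simp [Cx.concentrated]

/-- The dg category without objects. -/
def DGCat.empty (k : Type) [Field k] : DGCat.{0, 0} k where
  Obj := Empty
  Hom := fun _ _ => k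
  cx := fun x _ => x.elim
  one := fun x => x.elim
  mul := fun {x _ _} => x.elim
  one_mem := fun x => x.elim
  mul_mem := fun {x _ _ _ _ _ _} => x.elim
  one_mul := fun {x _} => x.elim
  mul_one := fun {x _} => x.elim
  mul_assoc := fun {x _ _ _} => x.elim
  leibniz := fun {x _ _ _ _} => x.elim

/-- The dg functor `F : A → B` is a Morita equivalence of the following elementary kind: it is
quasi-fully faithful, and every object `b` of `B` is, in the homotopy category `H⁰(B)`, a direct
summand of a finite direct sum of objects of the form `F a`; the latter means that the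
identity of `b` is homotopic to a finite sum of composites `b → F a → b`. -/
def IsMorita {k : Type} [Field k] {A : DGCat.{v₁, u₁} k} {B : DGCat.{v₂, u₂} k}
    (F : DGFun A B) : Prop :=
  (∀ x y, IsQuasiIso (A.cx x y) (B.cx (F.obj x) (F.obj y)) F.map) ∧
  ∀ b : B.Obj, ∃ (n : ℕ) (a : Fin n → A.Obj) (p : ∀ i, B.Hom b (F.obj (a i)))
    (q : ∀ i, B.Hom (F.obj (a i)) b) (h : B.Hom b b),
    (∀ i, p i ∈ (B.cx _ _).gr 0 ∧ (B.cx _ _).d (p i) = 0) ∧
    (∀ i, q i ∈ (B.cx _ _).gr 0 ∧ (B.cx _ _).d (q i) = 0) ∧
    h ∈ (B.cx b b).gr (-1) ∧ (B.cx b b).d h = B.one b - ∑ i, B.mul (q i) (p i)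

/-- A dg bimodule over the dg category `A`. -/
structure Bimod {k : Type} [Field k] (A : DGCat.{0, 0} k) where
  /-- the total spaces of the complexes -/
  M : A.Obj → A.Obj → Type
  [addCommGroup : ∀ x y, AddCommGroup (M x y)]
  [module : ∀ x y, Module k (M x y)]
  /-- gradings and differentials -/
  cx : ∀ x y, Cx k (M x y)
  /-- the left action -/
  l : ∀ {x y z}, A.Hom y z →ₗ[k] M x y →ₗ[k] M x z
  /-- the right action -/
  r : ∀ {x y z}, M y z →ₗ[k] A.Hom x y →ₗ[k] M x z
  l_mem : ∀ {x y z} {i j : ℤ} {a : A.Hom y z} {m : M x y},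
    a ∈ (A.cx y z).gr i → m ∈ (cx x y).gr j → l a m ∈ (cx x z).gr (i + j)
  r_mem : ∀ {x y z} {i j : ℤ} {m : M y z} {a : A.Hom x y},
    m ∈ (cx y z).gr i → a ∈ (A.cx x y).gr j → r m a ∈ (cx x z).gr (i + j)
  l_one : ∀ {x y} (m : M x y), l (A.one y) m = m
  r_one : ∀ {x y} (m : M x y), r m (A.one x) = m
  l_l : ∀ {w x y z} (a : A.Hom y z) (b : A.Hom x y) (m : M w x), l (A.mul a b) m = l a (l b m)
  r_r : ∀ {w x y z} (m : M y z) (a : A.Hom x y) (b : A.Hom w x), r m (A.mul a b) = r (r m a) b
  l_r : ∀ {w x y z} (a : A.Hom y z) (m : M x y) (b : A.Hom w x), l a (r m b) = r (l a m) b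
  leib_l : ∀ {x y z} {i : ℤ} {a : A.Hom y z} (m : M x y), a ∈ (A.cx y z).gr i →
    (cx x z).d (l a m) = l ((A.cx y z).d a) m + i.negOnePow • l a ((cx x y).d m)
  leib_r : ∀ {x y z} {i : ℤ} {m : M y z} (a : A.Hom x y), m ∈ (cx y z).gr i →
    (cx x z).d (r m a) = r ((cx y z).d m) a + i.negOnePow • r m ((A.cx x y).d a)

attribute [instance] Bimod.addCommGroup Bimod.module

/-- A map of dg bimodules (of degree `0` and commuting with the differentials). -/
structure Bimod.Hom {k : Type} [Field k] {A : DGCat.{0, 0} k} (M N : Bimod A) where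
  /-- the linear maps -/
  f : ∀ {x y}, M.M x y →ₗ[k] N.M x y
  chain : ∀ x y, IsChainMap (M.cx x y) (N.cx x y) f
  f_l : ∀ {x y z} (a : A.Hom y z) (m : M.M x y), f (M.l a m) = N.l a (f m)
  f_r : ∀ {x y z} (m : M.M y z) (a : A.Hom x y), f (M.r m a) = N.r (f m) a

/-- `0 → L → M → N → 0` is a short exact sequence of dg bimodules. -/
def Bimod.ShortExact {k : Type} [Field k] {A : DGCat.{0, 0} k} {L M N : Bimod A}
    (f : L.Hom M) (g : M.Hom N) : Prop :=
  ∀ x y, Function.Injective (f.f : L.M x y →ₗ[k] M.M x y) ∧
    Function.Surjective (g.f : M.M x y →ₗ[k] N.M x y) ∧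
    LinearMap.range (f.f : L.M x y →ₗ[k] M.M x y) = LinearMap.ker (g.f : M.M x y →ₗ[k] N.M x y)

/-- The dg bimodule `M` is free on the finite family `e i ∈ M (x i, y i)` of closed homogeneous
generators: each element is in a unique way a sum of elements `a (e i) b`, i.e. the
natural maps from `⨁ i, A(y i, z) ⊗ A(w, x i)` to `M(w, z)` are bijective.  (Free
dg bimodules are the finite direct sums of shifts of representable dg bimodules.) -/
def Bimod.IsFree {k : Type} [Field k] {A : DGCat.{0, 0} k} (M : Bimod A) : Prop :=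
  ∃ (n : ℕ) (x y : Fin n → A.Obj) (δ : Fin n → ℤ) (e : ∀ i, M.M (x i) (y i)),
    (∀ i, e i ∈ (M.cx _ _).gr (δ i) ∧ (M.cx _ _).d (e i) = 0) ∧
    ∀ w z, Function.Bijective
      (LinearMap.lsum k (fun i => TensorProduct k (A.Hom (y i) z) (A.Hom w (x i))) k
        (fun i => TensorProduct.lift
          ((M.r (x := w) (y := x i) (z := z)).comp (M.l.flip (e i)))))

/-- The perfect dg bimodules: the thick subcategory of the derived category of dg bimodules
generated by the representable ones, that is, the smallest class of dg bimodules that contains the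
finitely generated free ones and is closed under quasi-isomorphism, under two-out-of-three in
short exact sequences (equivalently, under shifts, cones and extensions) and under direct
summands.  These are the compact objects of the derived category of dg bimodules. -/
inductive Bimod.IsPerfect {k : Type} [Field k] {A : DGCat.{0, 0} k} : Bimod A → Prop
  | free {M : Bimod A} : M.IsFree → IsPerfect M
  | of_qis_left {M N : Bimod A} (f : M.Hom N)
      (hf : ∀ x y, IsQuasiIso (M.cx x y) (N.cx x y) f.f) : IsPerfect M → IsPerfect N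
  | of_qis_right {M N : Bimod A} (f : M.Hom N)
      (hf : ∀ x y, IsQuasiIso (M.cx x y) (N.cx x y) f.f) : IsPerfect N → IsPerfect M
  | ses_left {L M N : Bimod A} (f : L.Hom M) (g : M.Hom N) (h : Bimod.ShortExact f g) :
      IsPerfect M → IsPerfect N → IsPerfect L
  | ses_mid {L M N : Bimod A} (f : L.Hom M) (g : M.Hom N) (h : Bimod.ShortExact f g) :
      IsPerfect L → IsPerfect N → IsPerfect M
  | ses_right {L M N : Bimod A} (f : L.Hom M) (g : M.Hom N) (h : Bimod.ShortExact f g) :
      IsPerfect L → IsPerfect M → IsPerfect N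
  | summand {M N : Bimod A} (i : M.Hom N) (r : N.Hom M)
      (h : ∀ x y (m : M.M x y), r.f (i.f m) = m) : IsPerfect N → IsPerfect M

/-- The diagonal bimodule. -/
def DGCat.diag {k : Type} [Field k] (A : DGCat.{0, 0} k) : Bimod A where
  M := A.Hom
  cx := A.cx
  l := A.mul
  r := A.mul
  l_mem := A.mul_mem
  r_mem := A.mul_mem
  l_one := A.one_mul
  r_one := A.mul_one
  l_l := A.mul_assoc
  r_r := fun m a b => (A.mul_assoc m a b).symm
  l_r := fun a m b => (A.mul_assoc a m b).symm
  leib_l := A.leibniz
  leib_r := A.leibniz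

/-- A dg category is smooth (Kontsevich) if its diagonal bimodule is perfect. -/
def IsSmooth {k : Type} [Field k] (A : DGCat.{0, 0} k) : Prop := A.diag.IsPerfect

end Pool.Agent.TH137.DG
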