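import Pool.Agent.TH137.DG.Alg

/-!
# Semi-free dg algebras
-/

set_option autoImplicit false

namespace Pool.Agent.TH137.DG

universe v u w

section words

variable (k : Type) [Field k] (X : Type)

/-- the free algebra on `X` -/
abbrev FA := MonoidAlgebra k (FreeMonoid X)

variable {X}

/-- the word `w` as an element of the free algebra -/
noncomputable def wd (w : List X) : FA k X := MonoidAlgebra.single (FreeMonoid.ofList w) 1

lemma wd_nil : wd k ([] : List X) = 1 := rfl

lemma wd_append (u v : List X) : wd k (u ++ v) = wd k u * wd k v := by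
  rw [wd, wd, wd, MonoidAlgebra.single_mul_single, one_mul, FreeMonoid.ofList_append]

lemma wd_cons (x : X) (w : List X) : wd k (x :: w) = wd k [x] * wd k w :=
  wd_append k [x] w

variable (X) in
/-- the basis of words -/
noncomputable def bas : Module.Basis (List X) k (FA k X) :=
  (MonoidAlgebra.basis (FreeMonoid X) k).reindex FreeMonoid.toList

lemma bas_apply (w : List X) : bas k X w = wd k w := by
  rw [bas, Module.Basis.reindex_apply, MonoidAlgebra.basis_apply]; rfl

variable {k}
variable {M : Type v} [AddCommGroup M] [Module k M]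

/-- the linear map given by its values on words -/
noncomputable def wlin (f : List X → M) : FA k X →ₗ[k] M := (bas k X).constr k f

@[simp] lemma wlin_wd (f : List X → M) (w : List X) : wlin f (wd k w) = f w := by
  rw [wlin, ← bas_apply, Module.Basis.constr_basis]

lemma w_ext {f g : FA k X →ₗ[k] M} (h : ∀ w, f (wd k w) = g (wd k w)) : f = g :=
  (bas k X).ext fun w => by rw [bas_apply]; exact h w

lemma w_induct {p : FA k X → Prop} (a : FA k X) (h : ∀ w, p (wd k w)) (h0 : p 0)
    (hadd : ∀ a b, p a → p b → p (a + b)) (hs : ∀ (c : k) a, p a → p (c • a)) : p a := by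
  have : a ∈ Submodule.span k (Set.range (bas k X)) := by
    rw [(bas k X).span_eq]; exact Submodule.mem_top
  induction this using Submodule.span_induction with
  | mem x hx =>
    obtain ⟨w, rfl⟩ := hx
    rw [bas_apply]; exact h w
  | zero => exact h0
  | add x y _ _ hx hy => exact hadd _ _ hx hy
  | smul c x _ hx => exact hs c _ hx

end words

section sf

variable {k : Type} [Field k] {X : Type} (δ : X → ℤ) (r : X → FA k X)

/-- the degree of a word -/
def wdeg (w : List X) : ℤ := (w.map δ).sum

@[simp] lemma wdeg_nil : wdeg δ ([] : List X) = 0 := rfl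

@[simp] lemma wdeg_cons (x : X) (w : List X) : wdeg δ (x :: w) = δ x + wdeg δ w := by
  simp [wdeg]

lemma wdeg_append (u v : List X) : wdeg δ (u ++ v) = wdeg δ u + wdeg δ v := by
  simp [wdeg]

/-- the grading of the free algebra -/
noncomputable def faGr (n : ℤ) : Submodule k (FA k X) := Submodule.span k {a | ∃ w, wdeg δ w = n ∧ a = wd k w}

lemma wd_mem (w : List X) : wd k w ∈ faGr δ (wdeg δ w) := Submodule.subset_span ⟨w, rfl, rfl⟩

lemma wd_mem' {w : List X} {n : ℤ} (h : wdeg δ w = n) : wd k w ∈ faGr δ n := h ▸ wd_mem δ w

variable {δ} in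
lemma faGr_induct {n : ℤ} {p : (a : FA k X) → a ∈ faGr δ n → Prop}
    (h : ∀ w (hw : wdeg δ w = n), p (wd k w) (wd_mem' δ hw)) (h0 : p 0 (Submodule.zero_mem _))
    (hadd : ∀ a b ha hb, p a ha → p b hb → p (a + b) (Submodule.add_mem _ ha hb))
    (hs : ∀ (c : k) a ha, p a ha → p (c • a) (Submodule.smul_mem _ c ha))
    {a : FA k X} (ha : a ∈ faGr δ n) : p a ha := by
  induction ha using Submodule.span_induction with
  | mem x hx =>
    obtain ⟨w, hw, rfl⟩ := hx
    exact h w hw
  | zero => exact h0
  | add x y hx' hy' hx hy => exact hadd _ _ hx' hy' hx hy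
  | smul c x hx' hx => exact hs c _ hx' hx

lemma fa_mul_mem {m n : ℤ} {a b : FA k X} (ha : a ∈ faGr δ m) (hb : b ∈ faGr δ n) :
    a * b ∈ faGr δ (m + n) := by
  induction ha using faGr_induct with
  | h u hu =>
    induction hb using faGr_induct with
    | h w hw =>
      rw [← wd_append]
      exact wd_mem' δ (by rw [wdeg_append, hu, hw])
    | h0 => simp
    | hadd a b _ _ ha hb => rw [mul_add]; exact Submodule.add_mem _ ha hb
    | hs c a _ ha => rw [mul_smul_comm]; exact Submodule.smul_mem _ _ ha
  | h0 => simp
  | hadd a b _ _ ha hb => rw [add_mul]; exact Submodule.add_mem _ ha hb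
  | hs c a _ ha => rw [smul_mul_assoc]; exact Submodule.smul_mem _ _ ha

lemma fa_internal : DirectSum.IsInternal (faGr (k := k) δ) := by
  classical
  apply internal_of_sep (faGr δ) _
    (fun n => wlin (k := k) fun w => if wdeg δ w = n then wd k w else 0)
  · intro n a ha h
    have : (wlin (k := k) fun w => if wdeg δ w = n then wd k w else 0) a = a := by
      clear h
      induction ha using faGr_induct with
      | h w hw => simp [hw]
      | h0 => simp
      | hadd a b _ _ ha hb => rw [map_add, ha, hb]
      | hs c a _ ha => rw [map_smul, ha]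
    rw [← this, h]
  · intro n m a hnm ha
    induction ha using faGr_induct with
    | h w hw => simp [hw, Ne.symm hnm]
    | h0 => simp
    | hadd a b _ _ ha hb => rw [map_add, ha, hb, add_zero]
    | hs c a _ ha => rw [map_smul, ha, smul_zero]
  · intro a
    induction a using w_induct with
    | h w => exact (le_iSup (faGr δ) (wdeg δ w)) (wd_mem δ w)
    | h0 => exact Submodule.zero_mem _
    | hadd a b ha hb => exact Submodule.add_mem _ ha hb
    | hs c a ha => exact Submodule.smul_mem _ _ ha

/-- the differential on words -/
noncomputable def dW : List X → FA k X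
  | [] => 0
  | x :: w => r x * wd k w + (δ x).negOnePow • (wd k [x] * dW w)

lemma dW_append (u w : List X) : dW δ r (u ++ w) =
    dW δ r u * wd k w + (wdeg δ u).negOnePow • (wd k u * dW δ r w) := by
  induction u with
  | nil => simp [dW, wd_nil]
  | cons x u ih =>
    rw [List.cons_append, dW, ih, dW, wd_append, wdeg_cons, wd_cons k x u, Int.negOnePow_add]
    rcases Int.even_or_odd (δ x) with hx | hx <;>
      rcases Int.even_or_odd (wdeg δ u) with hu | hu <;>
      simp [Int.negOnePow_even, Int.negOnePow_odd, hx, hu, mul_add, add_mul, mul_assoc] <;> abel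

variable (hr : ∀ x, r x ∈ faGr δ (δ x + 1)) (hrr : ∀ x, wlin (dW δ r) (r x) = 0)

lemma fa_leibniz {m : ℤ} {a : FA k X} (b : FA k X) (ha : a ∈ faGr δ m) :
    wlin (dW δ r) (a * b) = wlin (dW δ r) a * b + m.negOnePow • (a * wlin (dW δ r) b) := by
  induction ha using faGr_induct with
  | h u hu =>
    induction b using w_induct with
    | h w => rw [← wd_append, wlin_wd, wlin_wd, wlin_wd, dW_append, hu]
    | h0 => simp
    | hadd a b ha hb =>
      rw [mul_add, map_add, ha, hb, mul_add, map_add, mul_add, smul_add]; abel
    | hs c a ha =>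
      rw [mul_smul_comm, map_smul, ha, map_smul, mul_smul_comm, mul_smul_comm, smul_add,
        smul_comm c]
  | h0 => simp
  | hadd a b _ _ ha hb => rw [add_mul, map_add, ha, hb, map_add, add_mul, add_mul, smul_add]; abel
  | hs c a _ ha =>
    rw [smul_mul_assoc, map_smul, ha, map_smul, smul_mul_assoc, smul_mul_assoc, smul_add,
      smul_comm c]

include hr in
lemma dW_mem (w : List X) : dW δ r w ∈ faGr δ (wdeg δ w + 1) := by
  induction w with
  | nil => exact Submodule.zero_mem _
  | cons x w ih =>
    rw [dW, wdeg_cons]
    apply Submodule.add_mem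
    · rw [show δ x + wdeg δ w + 1 = δ x + 1 + wdeg δ w by ring]
      exact fa_mul_mem δ (hr x) (wd_mem δ w)
    · have h1 : wd k [x] * dW δ r w ∈ faGr δ (δ x + wdeg δ w + 1) := by
        rw [add_assoc]
        exact fa_mul_mem δ (wd_mem' δ (by simp)) ih
      rcases Int.even_or_odd (δ x) with hx | hx
      · simpa [Int.negOnePow_even _ hx] using h1
      · simpa [Int.negOnePow_odd _ hx] using h1

include hrr hr in
lemma dW_dW (w : List X) : wlin (dW δ r) (dW δ r w) = 0 := by
  induction w with
  | nil => exact map_zero _
  | cons x w ih =>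
    rw [dW, map_add, fa_leibniz δ r _ (hr x), hrr, wlin_wd, LinearMap.map_smul_of_tower,
      fa_leibniz δ r _ (wd_mem' δ (w := [x]) (n := δ x) (by simp)), wlin_wd, ih]
    simp only [dW, wd_nil, mul_zero, smul_zero, add_zero, mul_one, zero_mul, zero_add]
    rw [Int.negOnePow_succ, Units.neg_smul, neg_add_cancel]

/-- the semi-free dg algebra with generators `x : X` of degree `δ x` and differentials `r x` -/
noncomputable def sfAlg : DGAlg k (FA k X) where
  cx :=
    { gr := faGr δ
      internal := fa_internal δ
      d := wlin (dW δ r)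
      d_mem := fun {n a} ha => by
        induction ha using faGr_induct with
        | h w hw =>
          rw [wlin_wd, ← hw]; exact dW_mem δ r hr w
        | h0 => simp
        | hadd a b _ _ ha hb => rw [map_add]; exact Submodule.add_mem _ ha hb
        | hs c a _ ha => rw [map_smul]; exact Submodule.smul_mem _ _ ha
      d_d := fun a => by
        induction a using w_induct with
        | h w => rw [wlin_wd]; exact dW_dW δ r hr hrr w
        | h0 => simp
        | hadd a b ha hb => rw [map_add, map_add, ha, hb, add_zero]
        | hs c a ha => rw [map_smul, map_smul, ha, smul_zero] }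
  one_mem := wd_mem' δ (w := []) rfl
  mul_mem := fun ha hb => fa_mul_mem δ ha hb
  leibniz := fun b ha => fa_leibniz δ r b ha

end sf

end Pool.Agent.TH137.DG
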