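import Pool.Agent.TH137.DG.Defs

/-!
# Graded vector spaces and complexes: tools
-/

set_option autoImplicit false

namespace Pool.Agent.TH137.DG

universe v v' v₁ v₂ v₃

section grading

variable {k : Type} [Field k] {V : Type v} [AddCommGroup V] [Module k V]
variable {W : Type v₁} [AddCommGroup W] [Module k W]
variable {Z : Type v₂} [AddCommGroup Z] [Module k Z]

/-- criterion for a family of subspaces to be a grading -/
lemma internal_of_sep (gr : ℤ → Submodule k V) (htop : ∀ x, x ∈ ⨆ n, gr n)
    (q : ℤ → V →ₗ[k] W) (h1 : ∀ n x, x ∈ gr n → q n x = 0 → x = 0)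
    (h2 : ∀ n m x, n ≠ m → x ∈ gr m → q n x = 0) : DirectSum.IsInternal gr := by
  classical
  rw [DirectSum.isInternal_submodule_iff_iSupIndep_and_iSup_eq_top]
  constructor
  · rw [iSupIndep_def]
    intro i
    rw [Submodule.disjoint_def]
    intro x hx hx'
    apply h1 i x hx
    have : (⨆ j, ⨆ (_ : j ≠ i), gr j) ≤ LinearMap.ker (q i) := by
      apply iSup₂_le
      intro j hj x hx
      exact h2 i j x (Ne.symm hj) hx
    exact this hx'
  · rw [eq_top_iff]
    intro x _
    exact htop x

namespace Cx

variable (X : Cx k V)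

lemma mem_iSup (x : V) : x ∈ ⨆ n, X.gr n := by
  rw [X.internal.submodule_iSup_eq_top]; exact Submodule.mem_top

/-- induction over sums of homogeneous elements -/
lemma induct {p : V → Prop} (x : V) (hom : ∀ n x, x ∈ X.gr n → p x) (h0 : p 0)
    (hadd : ∀ x y, p x → p y → p (x + y)) : p x :=
  Submodule.iSup_induction X.gr (motive := p) (X.mem_iSup x) hom h0 hadd

lemma hom_ext {f g : V →ₗ[k] W} (h : ∀ n x, x ∈ X.gr n → f x = g x) : f = g := by
  ext x
  induction x using X.induct with
  | hom n x hx => exact h n x hx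
  | h0 => simp
  | hadd x y hx hy => simp [hx, hy]

/-- the linear map given by its restrictions to the homogeneous parts -/
noncomputable def lift (f : ∀ n, X.gr n →ₗ[k] W) : V →ₗ[k] W :=
  (DirectSum.toModule k ℤ W f) ∘ₗ
    (LinearEquiv.ofBijective (DirectSum.coeLinearMap X.gr) X.internal).symm.toLinearMap

lemma lift_apply (f : ∀ n, X.gr n →ₗ[k] W) {n : ℤ} {x : V} (hx : x ∈ X.gr n) :
    X.lift f x = f n ⟨x, hx⟩ := by
  have e : (LinearEquiv.ofBijective (DirectSum.coeLinearMap X.gr) X.internal).symm x =
      DirectSum.lof k ℤ (fun i => X.gr i) n ⟨x, hx⟩ := by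
    rw [LinearEquiv.symm_apply_eq]
    exact (DirectSum.coeLinearMap_lof X.gr n ⟨x, hx⟩).symm
  simp [lift, e]

/-- the projection to the part of degree `n` -/
noncomputable def pr (n : ℤ) : V →ₗ[k] V :=
  X.lift fun m => if m = n then (X.gr m).subtype else 0

lemma pr_same {n : ℤ} {x : V} (hx : x ∈ X.gr n) : X.pr n x = x := by
  simp [pr, X.lift_apply _ hx]

lemma pr_ne {n m : ℤ} {x : V} (hx : x ∈ X.gr m) (h : m ≠ n) : X.pr n x = 0 := by
  simp [pr, X.lift_apply _ hx, h]

lemma pr_mem (n : ℤ) (x : V) : X.pr n x ∈ X.gr n := by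
  induction x using X.induct with
  | hom m x hx =>
    by_cases h : m = n
    · subst h; rw [X.pr_same hx]; exact hx
    · rw [X.pr_ne hx h]; exact Submodule.zero_mem _
  | h0 => simp
  | hadd x y hx hy => rw [map_add]; exact Submodule.add_mem _ hx hy

/-- the sign operator, which is multiplication by `(-1)^n` in degree `n` -/
noncomputable def par : V →ₗ[k] V := X.lift fun m => m.negOnePow • (X.gr m).subtype

lemma par_apply {n : ℤ} {x : V} (hx : x ∈ X.gr n) : X.par x = n.negOnePow • x := by
  simp [par, X.lift_apply _ hx]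

lemma par_mem {n : ℤ} {x : V} (hx : x ∈ X.gr n) : X.par x ∈ X.gr n := by
  rw [X.par_apply hx]
  rcases Int.even_or_odd n with h | h
  · simpa [Int.negOnePow_even n h] using hx
  · simpa [Int.negOnePow_odd n h] using hx

lemma par_par (x : V) : X.par (X.par x) = x := by
  induction x using X.induct with
  | hom m x hx =>
    rw [X.par_apply (X.par_mem hx), X.par_apply hx, smul_smul, Int.units_mul_self, one_smul]
  | h0 => simp
  | hadd x y hx hy => simp [hx, hy]

lemma d_par (x : V) : X.d (X.par x) = - X.par (X.d x) := by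
  induction x using X.induct with
  | hom m x hx =>
    rw [X.par_apply (X.d_mem hx), X.par_apply hx, Int.negOnePow_succ, Units.neg_smul, neg_neg]
    exact LinearMap.map_smul_of_tower X.d _ _
  | h0 => simp
  | hadd x y hx hy => simp [hx, hy]; abel

lemma par_d (x : V) : X.par (X.d x) = - X.d (X.par x) := by
  rw [d_par, neg_neg]

end Cx

end grading

end Pool.Agent.TH137.DG
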