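import Pool.Agent.TH137.DG.Grading

/-!
# Complexes of homomorphisms, the dg category of complexes
-/

set_option autoImplicit false

namespace Pool.Agent.TH137.DG

universe v u w v' v₁ v₂ v₃

section homcx

variable {k : Type} [Field k] {V : Type v₁} [AddCommGroup V] [Module k V]
variable {W : Type v₂} [AddCommGroup W] [Module k W]
variable {Z : Type v₃} [AddCommGroup Z] [Module k Z]
variable (X : Cx k V) (Y : Cx k W) (T : Cx k Z)

/-- the linear maps of degree `n` -/
def homog (n : ℤ) : Submodule k (V →ₗ[k] W) where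
  carrier := {φ | ∀ i x, x ∈ X.gr i → φ x ∈ Y.gr (i + n)}
  add_mem' := fun ha hb i x hx => Submodule.add_mem _ (ha i x hx) (hb i x hx)
  zero_mem' := fun _ _ _ => Submodule.zero_mem _
  smul_mem' := fun c _ ha i x hx => Submodule.smul_mem _ c (ha i x hx)

variable {X Y T}

lemma homog_comp {m n : ℤ} {g : W →ₗ[k] Z} {f : V →ₗ[k] W} (hg : g ∈ homog Y T m)
    (hf : f ∈ homog X Y n) : g ∘ₗ f ∈ homog X T (m + n) := by
  intro i x hx
  have := hg _ _ (hf i x hx)
  rwa [show i + (m + n) = i + n + m by ring]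

variable (X Y)

/-- the homogeneous parts of a linear map -/
noncomputable def prH (n : ℤ) : (V →ₗ[k] W) →ₗ[k] (V →ₗ[k] W) where
  toFun φ := X.lift fun i => (Y.pr (i + n)) ∘ₗ φ ∘ₗ (X.gr i).subtype
  map_add' φ ψ := X.hom_ext fun i x hx => by
    simp [X.lift_apply _ hx]
  map_smul' c φ := X.hom_ext fun i x hx => by
    simp [X.lift_apply _ hx]

variable {X Y}

lemma prH_same {n : ℤ} {φ : V →ₗ[k] W} (h : φ ∈ homog X Y n) : prH X Y n φ = φ := by
  apply X.hom_ext
  intro i x hx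
  simp only [prH, LinearMap.coe_mk, AddHom.coe_mk]
  rw [X.lift_apply _ hx]
  exact Y.pr_same (h i x hx)

lemma prH_ne {n m : ℤ} {φ : V →ₗ[k] W} (h : φ ∈ homog X Y m) (hnm : m ≠ n) :
    prH X Y n φ = 0 := by
  apply X.hom_ext
  intro i x hx
  simp only [prH, LinearMap.coe_mk, AddHom.coe_mk]
  rw [X.lift_apply _ hx]
  exact Y.pr_ne (h i x hx) (fun e => hnm (by omega))

variable (X Y) in
/-- the sums of homogeneous linear maps which belong to `L` -/
def HomL (L : Submodule k (V →ₗ[k] W)) : Submodule k (V →ₗ[k] W) :=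
  ⨆ n, homog X Y n ⊓ L

lemma homL_induct {L : Submodule k (V →ₗ[k] W)} {p : (V →ₗ[k] W) → Prop} {φ : V →ₗ[k] W}
    (h : φ ∈ HomL X Y L) (hom : ∀ n φ, φ ∈ homog X Y n → φ ∈ L → p φ) (h0 : p 0)
    (hadd : ∀ φ ψ, p φ → p ψ → p (φ + ψ)) : p φ :=
  Submodule.iSup_induction (fun n => homog X Y n ⊓ L) (motive := p) h
    (fun n x hx => hom n x hx.1 hx.2) h0 hadd

lemma mem_homL {L : Submodule k (V →ₗ[k] W)} {φ : V →ₗ[k] W} {n : ℤ} (h : φ ∈ homog X Y n)
    (hL : φ ∈ L) : φ ∈ HomL X Y L :=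
  (le_iSup (fun n => homog X Y n ⊓ L) n) ⟨h, hL⟩

lemma homL_le {L : Submodule k (V →ₗ[k] W)} : HomL X Y L ≤ L :=
  iSup_le fun _ => inf_le_right

/-- the complex structure on `HomL` -/
noncomputable def homCx (L : Submodule k (V →ₗ[k] W)) (D : (V →ₗ[k] W) →ₗ[k] (V →ₗ[k] W))
    (hD : ∀ n φ, φ ∈ homog X Y n → φ ∈ L → D φ ∈ homog X Y (n + 1) ∧ D φ ∈ L)
    (hDD : ∀ φ, D (D φ) = 0) : Cx k (HomL X Y L) where
  gr n := (homog X Y n).comap (HomL X Y L).subtype
  internal := by
    apply internal_of_sep _ _ (fun n => prH X Y n ∘ₗ (HomL X Y L).subtype)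
    · rintro n ⟨φ, hφ⟩ h hz
      have h' : φ ∈ homog X Y n := h
      have := prH_same h'
      apply Subtype.ext
      change φ = 0
      rw [← this]
      exact hz
    · rintro n m ⟨φ, hφ⟩ hnm h
      exact prH_ne (show φ ∈ homog X Y m from h) (Ne.symm hnm)
    · rintro ⟨φ, hφ⟩
      have : ∀ φ (h : φ ∈ HomL X Y L),
          (⟨φ, h⟩ : HomL X Y L) ∈ ⨆ n, (homog X Y n).comap (HomL X Y L).subtype := by
        intro φ h
        refine Submodule.iSup_induction' (fun n => homog X Y n ⊓ L)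
          (motive := fun φ h => (⟨φ, h⟩ : HomL X Y L) ∈
            ⨆ n, (homog X Y n).comap (HomL X Y L).subtype) ?_ ?_ ?_ h
        · intro n φ h
          exact (le_iSup (fun n => (homog X Y n).comap (HomL X Y L).subtype) n) h.1
        · exact Submodule.zero_mem _
        · intro x y hx hy h1 h2
          exact Submodule.add_mem _ h1 h2
      exact this φ hφ
  d := D.restrict (p := HomL X Y L) (q := HomL X Y L) fun φ hφ => by
    refine homL_induct (p := fun φ => D φ ∈ HomL X Y L) hφ ?_ ?_ ?_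
    · exact fun n φ h1 h2 => mem_homL (hD n φ h1 h2).1 (hD n φ h1 h2).2
    · simp
    · intro φ ψ h1 h2
      rw [map_add]; exact Submodule.add_mem _ h1 h2
  d_mem := by
    rintro n ⟨φ, hφ⟩ h
    exact (hD n φ h (homL_le hφ)).1
  d_d := fun ⟨φ, hφ⟩ => Subtype.ext (hDD φ)

/-- composition of maps in `HomL` -/
noncomputable def compL {L₁ : Submodule k (V →ₗ[k] W)} {L₂ : Submodule k (W →ₗ[k] Z)}
    {L₃ : Submodule k (V →ₗ[k] Z)} (hL : ∀ g ∈ L₂, ∀ f ∈ L₁, g ∘ₗ f ∈ L₃) :
    HomL Y T L₂ →ₗ[k] HomL X Y L₁ →ₗ[k] HomL X T L₃ :=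
  LinearMap.mk₂ k (fun g f => ⟨g.1 ∘ₗ f.1, by
    obtain ⟨g, hg⟩ := g
    obtain ⟨f, hf⟩ := f
    change g ∘ₗ f ∈ _
    refine homL_induct (p := fun g => g ∘ₗ f ∈ HomL X T L₃) hg ?_ ?_ ?_
    · intro m g hg1 hg2
      refine homL_induct (p := fun f => g ∘ₗ f ∈ HomL X T L₃) hf ?_ ?_ ?_
      · exact fun n f hf1 hf2 => mem_homL (homog_comp hg1 hf1) (hL g hg2 f hf2)
      · simp
      · intro f f' h1 h2
        rw [LinearMap.comp_add]; exact Submodule.add_mem _ h1 h2
    · simp
    · intro f f' h1 h2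
      rw [LinearMap.add_comp]; exact Submodule.add_mem _ h1 h2⟩)
    (fun _ _ _ => Subtype.ext (LinearMap.add_comp _ _ _))
    (fun _ _ _ => Subtype.ext (LinearMap.smul_comp _ _ _))
    (fun _ _ _ => Subtype.ext (LinearMap.comp_add _ _ _))
    (fun _ _ _ => Subtype.ext (LinearMap.comp_smul _ _ _))

@[simp] lemma compL_val {L₁ : Submodule k (V →ₗ[k] W)} {L₂ : Submodule k (W →ₗ[k] Z)}
    {L₃ : Submodule k (V →ₗ[k] Z)} (hL : ∀ g ∈ L₂, ∀ f ∈ L₁, g ∘ₗ f ∈ L₃)
    (g : HomL Y T L₂) (f : HomL X Y L₁) :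
    (compL hL g f : V →ₗ[k] Z) = g.1 ∘ₗ f.1 := rfl

end homcx

/-! ### The dg category of complexes -/

section Ch

/-- a bundled complex -/
structure Cpx (k : Type) [Field k] where
  /-- the total space -/
  V : Type v
  [acg : AddCommGroup V]
  [mod : Module k V]
  /-- grading and differential -/
  cx : Cx k V

attribute [instance] Cpx.acg Cpx.mod

variable {k : Type} [Field k]

section
variable {V : Type v₁} [AddCommGroup V] [Module k V]
variable {W : Type v₂} [AddCommGroup W] [Module k W]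

/-- the differential on linear maps between complexes -/
noncomputable def chD (X : Cx k V) (Y : Cx k W) : (V →ₗ[k] W) →ₗ[k] (V →ₗ[k] W) where
  toFun φ := Y.d ∘ₗ φ - Y.par ∘ₗ φ ∘ₗ X.par ∘ₗ X.d
  map_add' φ ψ := by
    ext x; simp; abel
  map_smul' c φ := by
    ext x; simp [smul_sub]

lemma par_homog {X : Cx k V} {Y : Cx k W} {n : ℤ} {φ : V →ₗ[k] W} (h : φ ∈ homog X Y n) (x : V) :
    Y.par (φ x) = n.negOnePow • φ (X.par x) := by
  induction x using X.induct with
  | hom i x hx =>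
    rw [Y.par_apply (h i x hx), X.par_apply hx, LinearMap.map_smul_of_tower, smul_smul,
      Int.negOnePow_add, mul_comm]
  | h0 => simp
  | hadd x y hx hy => simp [hx, hy]

lemma chD_homog {X : Cx k V} {Y : Cx k W} {n : ℤ} {φ : V →ₗ[k] W} (h : φ ∈ homog X Y n) (x : V) :
    chD X Y φ x = Y.d (φ x) - n.negOnePow • φ (X.d x) := by
  simp only [chD, LinearMap.coe_mk, AddHom.coe_mk, LinearMap.sub_apply, LinearMap.comp_apply]
  rw [par_homog h, X.par_par]

/-- the complex of homomorphisms between two complexes -/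
noncomputable def chHom (X : Cx k V) (Y : Cx k W) : Cx k (HomL X Y ⊤) :=
  homCx ⊤ (chD X Y) (fun n φ h _ => ⟨fun i x hx => by
    rw [chD_homog h]
    apply Submodule.sub_mem
    · have := Y.d_mem (h i x hx)
      rwa [show i + (n + 1) = i + n + 1 by ring]
    · have := h _ _ (X.d_mem hx)
      rw [show i + (n + 1) = i + 1 + n by ring]
      rcases Int.even_or_odd n with h | h
      · simpa [Int.negOnePow_even n h] using this
      · simpa [Int.negOnePow_odd n h] using this, trivial⟩) (fun φ => by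
    ext x
    simp [chD, Y.d_d, Y.d_par, X.d_par, X.d_d])

end

/-- the dg category of complexes -/
noncomputable def Ch (k : Type) [Field k] : DGCat.{v, v + 1} k where
  Obj := Cpx.{v} k
  Hom := fun X Y => HomL X.cx Y.cx ⊤
  cx := fun X Y => chHom X.cx Y.cx
  one := fun X => ⟨LinearMap.id, mem_homL (n := 0) (fun i x hx => by simpa using hx) trivial⟩
  mul := compL (fun _ _ _ _ => trivial)
  one_mem := fun X i x hx => by simpa using hx
  mul_mem := fun {X Y Z m n g f} hg hf => homog_comp hg hf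
  one_mul := fun f => Subtype.ext (LinearMap.id_comp _)
  mul_one := fun f => Subtype.ext (LinearMap.comp_id _)
  mul_assoc := fun h g f => Subtype.ext (LinearMap.comp_assoc _ _ _)
  leibniz := fun {X Y Z m g} f hg => by
    apply Subtype.ext
    ext x
    change chD X.cx Z.cx (g.1 ∘ₗ f.1) x = (chD Y.cx Z.cx g.1) (f.1 x) +
      m.negOnePow • (g.1 (chD X.cx Y.cx f.1 x))
    have hg' : g.1 ∈ homog Y.cx Z.cx m := hg
    rw [chD_homog hg']
    simp only [chD, LinearMap.coe_mk, AddHom.coe_mk, LinearMap.sub_apply, LinearMap.comp_apply,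
      map_sub, smul_sub]
    rw [par_homog hg']
    abel

end Ch

end Pool.Agent.TH137.DG
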