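import Pool.Agent.TH137.DG.Stage

/-!
# A finitely presented algebra with many idempotents
-/

set_option autoImplicit false

namespace Pool.Agent.TH137.DG

section ring

lemma hs_pow {H : Type} [Ring H] {s h : H} (hs : h * s = s * (h + 1)) (n : ℕ) : h * s ^ n = s ^ n * (h + n) := by
  induction n with
  | zero => simp
  | succ n ih =>
    rw [pow_succ, ← mul_assoc, ih, mul_assoc, mul_assoc]
    congr 1
    rw [add_mul, hs]
    push_cast
    rw [(Nat.cast_commute n s).eq]
    noncomm_ring

theorem idem_ring (k : Type) [Field k] [CharZero k] {H : Type} [Ring H] [Algebra k H]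
    {s t h h' p : H} (hp : p * p = p) (ht : h * t = t * (h - 1))
    (hs : h * s = s * (h + 1)) (hπ : h * (1 - s * t) = 1 - s * t) (hc : p * h = h * p)
    (hh : h' * h = 1) (n : ℕ) :
    (p * s ^ n * (1 - s * t) * t ^ n) * (p * s ^ n * (1 - s * t) * t ^ n) =
      p * s ^ n * (1 - s * t) * t ^ n := by
  obtain ⟨π, hπd⟩ : ∃ π, π = 1 - s * t := ⟨_, rfl⟩
  obtain ⟨α, hα⟩ : ∃ α, α = p * s ^ n * π := ⟨_, rfl⟩
  rw [← hπd] at hπ ⊢
  -- the weight of `α`
  have wα : h * α = (n + 1 : H) * α := by
    rw [hα, mul_assoc, ← mul_assoc h p, ← hc, mul_assoc, ← mul_assoc h, hs_pow hs]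
    have e1 : s ^ n * (h + n) * π = (n + 1 : H) * (s ^ n * π) := by
      rw [mul_assoc, add_mul, hπ]
      have : (n : H) * π = π * n := (Nat.cast_commute n π).eq
      rw [mul_add, add_mul, one_mul, ← mul_assoc, ← (Nat.cast_commute n (s ^ n)).eq, mul_assoc,
        add_comm]
    have c1 : Commute ((n : H) + 1) p := (Nat.cast_commute n p).add_left (Commute.one_left p)
    rw [e1, ← mul_assoc p, ← c1.eq, mul_assoc]
  have th : t * h = (h + 1) * t := by rw [add_mul, ht]; noncomm_ring
  have thi : ∀ i : ℕ, t ^ i * h = (h + i) * t ^ i := by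
    intro i
    induction i with
    | zero => simp
    | succ i ih =>
      rw [pow_succ', mul_assoc, ih, ← mul_assoc]
      have : t * (h + i) = (h + (i + 1 : ℕ)) * t := by
        rw [mul_add, th, ← (Nat.cast_commute i t).eq]
        push_cast
        noncomm_ring
      rw [this, mul_assoc]
  have πh : π * h = π := by
    have : π * h = h * π := by
      rw [hπd, sub_mul, mul_sub, one_mul, mul_one, mul_assoc, th, ← mul_assoc, ← mul_assoc, hs]
    rw [this, hπ]
  have zero_of : ∀ (i : ℕ) (x : H), i ≠ n → (n + 1 : H) * x = (i + 1 : H) * x → x = 0 := by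
    intro i x hi hx
    have e : ((n : k) - (i : k)) • x = 0 := by
      rw [sub_smul, Nat.cast_smul_eq_nsmul, Nat.cast_smul_eq_nsmul, nsmul_eq_mul, nsmul_eq_mul]
      rw [add_mul, add_mul, one_mul] at hx
      exact sub_eq_zero.2 (add_right_cancel hx)
    rcases smul_eq_zero.1 e with h0 | h0
    · exact absurd (by exact_mod_cast (sub_eq_zero.1 h0).symm) hi
    · exact h0
  have vanish : ∀ i : ℕ, i ≠ n → π * (t ^ i * α) = 0 := by
    intro i hi
    apply zero_of i _ hi
    have e1 : π * (t ^ i * (h * α)) = (n + 1 : H) * (π * (t ^ i * α)) := by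
      rw [wα]
      have c1 : Commute ((n : H) + 1) (π * t ^ i) :=
        (Nat.cast_commute n _).add_left (Commute.one_left _)
      rw [← mul_assoc, ← mul_assoc, ← c1.eq]
      simp only [mul_assoc]
    have e2 : π * (t ^ i * (h * α)) = (i + 1 : H) * (π * (t ^ i * α)) := by
      rw [← mul_assoc (t ^ i), thi, mul_assoc, ← mul_assoc π, mul_add, πh,
        ← (Nat.cast_commute i π).eq]
      noncomm_ring
    rw [← e1, e2]
  have top : t ^ (n + 1) * α = 0 := by
    have e1 : h * (t ^ (n + 1) * α) = 0 := by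
      have : h * t ^ (n + 1) = t ^ (n + 1) * h - (n + 1 : H) * t ^ (n + 1) := by
        rw [thi, add_mul]; push_cast; abel
      rw [← mul_assoc, this, sub_mul, mul_assoc, wα, ← mul_assoc]
      have c1 : Commute ((n : H) + 1) (t ^ (n + 1)) :=
        (Nat.cast_commute n _).add_left (Commute.one_left _)
      rw [← c1.eq, sub_self]
    have : h' * (h * (t ^ (n + 1) * α)) = t ^ (n + 1) * α := by rw [← mul_assoc, hh, one_mul]
    rw [← this, e1, mul_zero]
  have tele : ∀ m : ℕ, α = ∑ i ∈ Finset.range m, s ^ i * (π * (t ^ i * α)) +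
      s ^ m * (t ^ m * α) := by
    intro m
    induction m with
    | zero => simp
    | succ m ih =>
      rw [Finset.sum_range_succ, add_assoc]
      have : s ^ m * (π * (t ^ m * α)) + s ^ (m + 1) * (t ^ (m + 1) * α) =
          s ^ m * (t ^ m * α) := by
        rw [pow_succ s, pow_succ' t, mul_assoc (s ^ m), ← mul_add]
        congr 1
        rw [mul_assoc t, ← mul_assoc s, ← add_mul, hπd, sub_add_cancel, one_mul]
      rw [this]; exact ih
  have main : s ^ n * (π * (t ^ n * α)) = α := by
    have := tele (n + 1)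
    rw [top, mul_zero, add_zero, Finset.sum_range_succ, Finset.sum_eq_zero, zero_add] at this
    · exact this.symm
    · intro i hi
      rw [vanish i (by simp at hi; omega), mul_zero]
  calc (p * s ^ n * π * t ^ n) * (p * s ^ n * π * t ^ n)
      = p * (s ^ n * (π * (t ^ n * α))) * t ^ n := by rw [hα]; simp only [mul_assoc]
    _ = p * s ^ n * π * t ^ n := by rw [main, hα]; simp only [← mul_assoc, hp]

end ring

/-! ### the relations -/

section rel

variable (k : Type) [Field k]

/-- a generator -/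
noncomputable def gen {X : Type} (i : X) : FA k X := wd k [i]

/-- the relations -/
noncomputable def rel : Fin 6 → FA k (Fin 5) :=
  ![gen k 4 * gen k 4 - gen k 4,
    gen k 2 * gen k 1 - gen k 1 * (gen k 2 - 1),
    gen k 2 * gen k 0 - gen k 0 * (gen k 2 + 1),
    gen k 2 * (1 - gen k 0 * gen k 1) - (1 - gen k 0 * gen k 1),
    gen k 4 * gen k 2 - gen k 2 * gen k 4,
    gen k 3 * gen k 2 - 1]

/-- the idempotents -/
noncomputable def gi (n : ℕ) : FA k (Fin 5) :=
  gen k 4 * gen k 0 ^ n * (1 - gen k 0 * gen k 1) * gen k 1 ^ n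

variable [CharZero k]

lemma gi_idem (n : ℕ) : ∃ z, (stage (rel k)).cx.d z = ι₀ k (Fin 5) (Fin 6) (gi k n * gi k n - gi k n) := by
  apply hcon_eq
  have h0 := hcon_gen (rel k) 0
  have h1 := hcon_gen (rel k) 1
  have h2 := hcon_gen (rel k) 2
  have h3 := hcon_gen (rel k) 3
  have h4 := hcon_gen (rel k) 4
  have h5 := hcon_gen (rel k) 5
  change ((gen k 4 * gen k 4 - gen k 4 : FA k (Fin 5)) : (hcon (rel k)).Quotient) = 0 at h0
  change ((gen k 2 * gen k 1 - gen k 1 * (gen k 2 - 1) : FA k (Fin 5)) :
    (hcon (rel k)).Quotient) = 0 at h1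
  change ((gen k 2 * gen k 0 - gen k 0 * (gen k 2 + 1) : FA k (Fin 5)) :
    (hcon (rel k)).Quotient) = 0 at h2
  change ((gen k 2 * (1 - gen k 0 * gen k 1) - (1 - gen k 0 * gen k 1) : FA k (Fin 5)) :
    (hcon (rel k)).Quotient) = 0 at h3
  change ((gen k 4 * gen k 2 - gen k 2 * gen k 4 : FA k (Fin 5)) :
    (hcon (rel k)).Quotient) = 0 at h4
  change ((gen k 3 * gen k 2 - 1 : FA k (Fin 5)) : (hcon (rel k)).Quotient) = 0 at h5
  rw [gi]
  push_cast at h0 h1 h2 h3 h4 h5 ⊢
  exact idem_ring k (sub_eq_zero.1 h0) (sub_eq_zero.1 h1) (sub_eq_zero.1 h2)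
    (sub_eq_zero.1 h3) (sub_eq_zero.1 h4) (sub_eq_zero.1 h5) n

end rel

/-! ### the representations -/

section reps

variable {k : Type} [Field k] (m : ℕ)

/-- the coordinates, extended by zero -/
def co (v : Fin (m + 1) → k) (j : ℕ) : k := if h : j < m + 1 then v ⟨j, h⟩ else 0

variable {m}

lemma co_of_lt (v : Fin (m + 1) → k) {j : ℕ} (h : j < m + 1) : co m v j = v ⟨j, h⟩ := dif_pos h

lemma co_of_ge (v : Fin (m + 1) → k) {j : ℕ} (h : m + 1 ≤ j) : co m v j = 0 :=
  dif_neg (not_lt.2 h)

lemma co_val (v : Fin (m + 1) → k) (i : Fin (m + 1)) : co m v i = v i := by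
  rw [co_of_lt v i.2]

lemma co_add (v w : Fin (m + 1) → k) (j : ℕ) : co m (v + w) j = co m v j + co m w j := by
  unfold co; split <;> simp

lemma co_smul (c : k) (v : Fin (m + 1) → k) (j : ℕ) : co m (c • v) j = c * co m v j := by
  unfold co; split <;> simp

lemma co_ext {v w : Fin (m + 1) → k} (h : ∀ j, j < m + 1 → co m v j = co m w j) : v = w := by
  ext i
  rw [← co_val v, ← co_val w, h _ i.2]

variable (k m)

/-- the raising operator -/
def opS : Module.End k (Fin (m + 1) → k) where
  toFun v := fun i => if (i : ℕ) = 0 then 0 else co m v (i - 1)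
  map_add' v w := by ext i; simp only [co_add, Pi.add_apply]; split <;> simp
  map_smul' c v := by
    ext i; simp only [co_smul, Pi.smul_apply, smul_eq_mul, RingHom.id_apply]; split <;> simp

/-- the lowering operator -/
def opT : Module.End k (Fin (m + 1) → k) where
  toFun v := fun i => co m v (i + 1)
  map_add' v w := by ext i; simp only [co_add, Pi.add_apply]
  map_smul' c v := by
    ext i; simp only [co_smul, Pi.smul_apply, smul_eq_mul, RingHom.id_apply]

/-- a diagonal operator -/
def opD (f : ℕ → k) : Module.End k (Fin (m + 1) → k) where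
  toFun v := fun i => f i * v i
  map_add' v w := by ext i; simp [mul_add]
  map_smul' c v := by ext i; simp; ring

variable {k m}

lemma co_opS (v : Fin (m + 1) → k) {j : ℕ} (hj : j < m + 1) :
    co m (opS k m v) j = if j = 0 then 0 else co m v (j - 1) := by
  rw [co_of_lt _ hj]; rfl

lemma co_opT (v : Fin (m + 1) → k) (j : ℕ) : co m (opT k m v) j = co m v (j + 1) := by
  by_cases hj : j < m + 1
  · rw [co_of_lt _ hj]; rfl
  · rw [co_of_ge _ (not_lt.1 hj), co_of_ge _ (by omega)]

lemma co_opD (f : ℕ → k) (v : Fin (m + 1) → k) (j : ℕ) :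
    co m (opD k m f v) j = f j * co m v j := by
  by_cases hj : j < m + 1
  · rw [co_of_lt _ hj, co_of_lt _ hj]; rfl
  · rw [co_of_ge _ (not_lt.1 hj), co_of_ge _ (not_lt.1 hj), mul_zero]

lemma co_opT_pow (v : Fin (m + 1) → k) (n j : ℕ) :
    co m ((opT k m ^ n) v) j = co m v (j + n) := by
  induction n generalizing j with
  | zero => simp
  | succ n ih => rw [pow_succ', Module.End.mul_apply, co_opT, ih]; congr 1; omega

lemma co_opS_pow (v : Fin (m + 1) → k) (n : ℕ) {j : ℕ} (hj : j < m + 1) :
    co m ((opS k m ^ n) v) j = if n ≤ j then co m v (j - n) else 0 := by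
  induction n generalizing j with
  | zero => simp
  | succ n ih =>
    rw [pow_succ', Module.End.mul_apply, co_opS _ hj]
    by_cases h0 : j = 0
    · simp [h0]
    · rw [if_neg h0, ih (by omega)]
      by_cases h1 : n + 1 ≤ j
      · rw [if_pos (by omega), if_pos h1]; congr 1; omega
      · rw [if_neg (by omega), if_neg h1]

lemma opπ_apply (v : Fin (m + 1) → k) {j : ℕ} (hj : j < m + 1) :
    co m ((1 - opS k m * opT k m) v) j = if j = 0 then co m v 0 else 0 := by
  have : (1 - opS k m * opT k m) v = v + (-1 : k) • opS k m (opT k m v) := by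
    simp [sub_eq_add_neg]
  rw [this, co_add, co_smul, co_opS _ hj]
  by_cases h0 : j = 0
  · simp [h0]
  · rw [if_neg h0, if_neg h0, co_opT, show j - 1 + 1 = j by omega]; ring

variable (k m)

/-- the operators -/
def ops : Fin 5 → Module.End k (Fin (m + 1) → k) :=
  ![opS k m, opT k m, opD k m (fun i => (i : k) + 1), opD k m (fun i => ((i : k) + 1)⁻¹),
    opD k m (fun i => if i = m then 1 else 0)]

/-- the representation -/
noncomputable def repΦ : FA k (Fin 5) →ₐ[k] Module.End k (Fin (m + 1) → k) :=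
  MonoidAlgebra.lift k (Module.End k (Fin (m + 1) → k)) (FreeMonoid (Fin 5))
    (FreeMonoid.lift (ops k m))

lemma repΦ_gen (i : Fin 5) : repΦ k m (gen k i) = ops k m i := by
  rw [gen, wd, repΦ, MonoidAlgebra.lift_single, one_smul]
  exact FreeMonoid.lift_eval_of _ _

variable [CharZero k]

lemma repΦ_rel (i : Fin 6) : repΦ k m (rel k i) = 0 := by
  have g0 : repΦ k m (gen k 0) = opS k m := repΦ_gen k m 0
  have g1 : repΦ k m (gen k 1) = opT k m := repΦ_gen k m 1
  have g2 : repΦ k m (gen k 2) = opD k m (fun i => (i : k) + 1) := repΦ_gen k m 2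
  have g3 : repΦ k m (gen k 3) = opD k m (fun i => ((i : k) + 1)⁻¹) := repΦ_gen k m 3
  have g4 : repΦ k m (gen k 4) = opD k m (fun i => if i = m then 1 else 0) := repΦ_gen k m 4
  have key : ∀ a b : Module.End k (Fin (m + 1) → k),
      (∀ v j, j < m + 1 → co m (a v) j = co m (b v) j) → a - b = 0 := by
    intro a b h
    rw [sub_eq_zero]
    apply LinearMap.ext
    intro v
    exact co_ext (h v)
  fin_cases i
  · change repΦ k m (gen k 4 * gen k 4 - gen k 4) = 0
    rw [map_sub, map_mul, g4]
    apply key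
    intro v j hj
    rw [Module.End.mul_apply, co_opD, co_opD]
    split <;> simp
  · change repΦ k m (gen k 2 * gen k 1 - gen k 1 * (gen k 2 - 1)) = 0
    rw [map_sub, map_mul, map_mul, map_sub, map_one, g1, g2]
    apply key
    intro v j hj
    have e : (opD k m (fun i => (i : k) + 1) - 1) v =
      opD k m (fun i => (i : k) + 1) v + (-1 : k) • v := by simp [sub_eq_add_neg]
    rw [Module.End.mul_apply, Module.End.mul_apply, co_opD, co_opT, co_opT, e, co_add, co_smul,
      co_opD]
    push_cast
    ring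
  · change repΦ k m (gen k 2 * gen k 0 - gen k 0 * (gen k 2 + 1)) = 0
    rw [map_sub, map_mul, map_mul, map_add, map_one, g0, g2]
    apply key
    intro v j hj
    rw [Module.End.mul_apply, Module.End.mul_apply, co_opD, co_opS _ hj, co_opS _ hj,
      LinearMap.add_apply, Module.End.one_apply, co_add, co_opD]
    by_cases h0 : j = 0
    · simp [h0]
    · rw [if_neg h0, if_neg h0]
      obtain ⟨j, rfl⟩ := Nat.exists_eq_succ_of_ne_zero h0
      simp only [Nat.succ_eq_add_one, Nat.add_sub_cancel]
      push_cast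
      ring
  · change repΦ k m (gen k 2 * (1 - gen k 0 * gen k 1) - (1 - gen k 0 * gen k 1)) = 0
    rw [map_sub, map_mul, map_sub, map_one, map_mul, g0, g1, g2]
    apply key
    intro v j hj
    rw [Module.End.mul_apply, co_opD, opπ_apply _ hj]
    by_cases h0 : j = 0
    · simp [h0]
    · simp [h0]
  · change repΦ k m (gen k 4 * gen k 2 - gen k 2 * gen k 4) = 0
    rw [map_sub, map_mul, map_mul, g2, g4]
    apply key
    intro v j hj
    rw [Module.End.mul_apply, Module.End.mul_apply, co_opD, co_opD, co_opD, co_opD]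
    ring
  · change repΦ k m (gen k 3 * gen k 2 - 1) = 0
    rw [map_sub, map_mul, map_one, g2, g3]
    apply key
    intro v j hj
    rw [Module.End.mul_apply, co_opD, co_opD, Module.End.one_apply]
    have : (j : k) + 1 ≠ 0 := by exact_mod_cast Nat.succ_ne_zero j
    field_simp

omit [CharZero k] in
lemma co_repΦ_gi (n : ℕ) (v : Fin (m + 1) → k) {j : ℕ} (hj : j < m + 1) :
    co m (repΦ k m (gi k n) v) j = if j = m ∧ n = m then co m v m else 0 := by
  have g0 : repΦ k m (gen k 0) = opS k m := repΦ_gen k m 0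
  have g1 : repΦ k m (gen k 1) = opT k m := repΦ_gen k m 1
  have g4 : repΦ k m (gen k 4) = opD k m (fun i => if i = m then 1 else 0) := repΦ_gen k m 4
  rw [gi, map_mul, map_mul, map_mul, map_pow, map_pow, map_sub, map_one, map_mul, g0, g1, g4]
  rw [Module.End.mul_apply, Module.End.mul_apply, Module.End.mul_apply, co_opD,
    co_opS_pow _ _ hj]
  by_cases h1 : j = m
  · subst h1
    by_cases h2 : n ≤ j
    · rw [if_pos h2, opπ_apply _ (by omega), co_opT_pow]
      by_cases h3 : n = j
      · subst h3; simp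
      · have h4 : ¬ j - n = 0 := by omega
        simp [h3, h4]
    · have h3 : ¬ n = j := by omega
      simp [h2, h3]
  · simp [h1]

omit [CharZero k] in
lemma repΦ_gi_ne {n : ℕ} (h : n ≠ m) : repΦ k m (gi k n) = 0 := by
  apply LinearMap.ext
  intro v
  apply co_ext
  intro j hj
  rw [co_repΦ_gi k m n v hj, if_neg (by tauto)]
  rw [co_of_lt _ hj]; rfl

omit [CharZero k] in
lemma repΦ_gi_eq (v : Fin (m + 1) → k) : repΦ k m (gi k m) v =
    (LinearMap.proj (⟨m, Nat.lt_succ_self m⟩ : Fin (m + 1)) : (Fin (m + 1) → k) →ₗ[k] k) v •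
      (Pi.single (⟨m, Nat.lt_succ_self m⟩ : Fin (m + 1)) (1 : k) : Fin (m + 1) → k) := by
  apply co_ext
  intro j hj
  rw [co_repΦ_gi k m m v hj, co_smul, co_of_lt v (Nat.lt_succ_self m), co_of_lt _ hj]
  by_cases h : j = m
  · subst h; simp
  · rw [if_neg (by tauto), Pi.single_eq_of_ne, mul_zero]
    intro h'
    exact h (congrArg Fin.val h')

end reps

end Pool.Agent.TH137.DG
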