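import Mathlib

/-!
# Schur functors in symmetric monoidal categories: definitions

For an object `a` of a `ℚ`-linear symmetric monoidal category, `tpow a n` is the `n`-th tensor
power `a ⊗ (a ⊗ (⋯ ⊗ 𝟙))` and `permAct a n σ` the automorphism of `tpow a n` which moves the
`i`-th factor to the place `σ i`, built from the symmetry (by the coherence theorem there is only
one such isomorphism built from the symmetry).
-/

set_option autoImplicit false

open CategoryTheory MonoidalCategory

namespace Pool.Agent.TH137.DG

universe v u

section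

variable {C : Type u} [Category.{v} C] [MonoidalCategory C]

/-- The tensor powers of an object. -/
@[reducible] def tpow (a : C) : ℕ → C
  | 0 => 𝟙_ C
  | n + 1 => a ⊗ tpow a n

/-- The isomorphism which moves the first factor to the place `j`. -/
def insAct [BraidedCategory C] (a : C) : ∀ (n : ℕ), Fin (n + 1) → (tpow a (n + 1) ⟶ tpow a (n + 1))
  | 0, _ => 𝟙 _
  | n + 1, j => Fin.cases (motive := fun _ => tpow a (n + 2) ⟶ tpow a (n + 2)) (𝟙 _)
      (fun j' => (α_ a a (tpow a n)).inv ≫ (β_ a a).hom ▷ tpow a n ≫ (α_ a a (tpow a n)).hom ≫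
        a ◁ insAct a n j') j

/-- The permutation of `{0, …, n-1}` induced by a permutation `σ` of `{0, …, n}` after deletion of
`0` and `σ 0` (and renumbering). -/
def permTail {n : ℕ} (σ : Equiv.Perm (Fin (n + 1))) : Equiv.Perm (Fin n) :=
  (finSuccAboveEquiv 0).trans
    ((σ.subtypeEquiv (p := fun x => x ≠ 0) (q := fun y => y ≠ σ 0) (fun x => by simp)).trans
      (finSuccAboveEquiv (σ 0)).symm)

/-- The action of permutations on the tensor powers. -/
def permAct [BraidedCategory C] (a : C) : ∀ (n : ℕ), Equiv.Perm (Fin n) → (tpow a n ⟶ tpow a n)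
  | 0, _ => 𝟙 _
  | n + 1, σ => a ◁ permAct a n (permTail σ) ≫ insAct a n (σ 0)

/-- The action of the group algebra of the symmetric group on the tensor powers. -/
noncomputable def grpAct [BraidedCategory C] [Preadditive C] [Linear ℚ C] (a : C) (n : ℕ)
    (c : MonoidAlgebra ℚ (Equiv.Perm (Fin n))) : tpow a n ⟶ tpow a n :=
  c.coeff.sum fun σ q => q • permAct a n σ

end

/-- The rows stabilizer of a numbering `T` of the cells of a Young diagram. -/
def rowStab {n : ℕ} {μ : YoungDiagram} (T : Fin n ≃ μ.cells) : Set (Equiv.Perm (Fin n)) :=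
  {σ | ∀ i, (T (σ i)).1.1 = (T i).1.1}

/-- The columns stabilizer of a numbering `T` of the cells of a Young diagram. -/
def colStab {n : ℕ} {μ : YoungDiagram} (T : Fin n ≃ μ.cells) : Set (Equiv.Perm (Fin n)) :=
  {σ | ∀ i, (T (σ i)).1.2 = (T i).1.2}

open Classical in
/-- The Young symmetrizer of a numbered Young diagram (not normalised): the product of the sum of
the elements of the row stabilizer and the alternating sum of the elements of the column
stabilizer.  A rational multiple of it is an idempotent, the primitive idempotent `c_λ`. -/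
noncomputable def youngSymmetrizer {n : ℕ} {μ : YoungDiagram} (T : Fin n ≃ μ.cells) :
    MonoidAlgebra ℚ (Equiv.Perm (Fin n)) :=
  (∑ p ∈ Finset.univ.filter (· ∈ rowStab T), MonoidAlgebra.single p 1) *
    (∑ q ∈ Finset.univ.filter (· ∈ colStab T),
      MonoidAlgebra.single q ((Equiv.Perm.sign q : ℤ) : ℚ))

/-- An object `a` is Schur-finite if there is a Young diagram `μ` with `n ≥ 1` cells such that the
Schur functor `S_μ` kills `a`, i.e. such that the Young symmetrizer acts as zero on the `n`-th
tensor power of `a` (the image of the corresponding idempotent is zero). -/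
def IsSchurFinite {C : Type u} [Category.{v} C] [MonoidalCategory C] [BraidedCategory C]
    [Preadditive C] [Linear ℚ C] (a : C) : Prop :=
  ∃ (n : ℕ) (μ : YoungDiagram) (T : Fin n ≃ μ.cells), 1 ≤ n ∧
    grpAct a n (youngSymmetrizer T) = 0

end Pool.Agent.TH137.DG
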