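import Mathlib

/-!
# Differential graded categories, smoothness and Morita equivalences: definitions

Complexes are modelled by a vector space together with a family of subspaces of which it
is the direct sum and a differential of degree `+1`.
-/

set_option autoImplicit false
set_option linter.checkUnivs false

open TensorProduct

namespace Pool.Agent.TH137.NC

universe v u v₁ u₁ v₂ u₂ v₃ u₃

/-- A complex over `k`: a vector space `V`, the direct sum of its subspaces `gr n` (`n : ℤ`), and
a differential `d` of degree `+1`. -/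
structure Cpx (k : Type) [Field k] where
  /-- the total space -/
  V : Type v
  [acg : AddCommGroup V]
  [mod : Module k V]
  /-- the homogeneous elements of degree `n` -/
  gr : ℤ → Submodule k V
  internal : DirectSum.IsInternal gr
  /-- the differential -/
  d : V →ₗ[k] V
  d_mem : ∀ n x, x ∈ gr n → d x ∈ gr (n + 1)
  d_d : ∀ x, d (d x) = 0

attribute [instance] Cpx.acg Cpx.mod

/-- The element `x` is homogeneous of degree `n`. -/
def Cpx.Deg {k : Type} [Field k] (X : Cpx.{v} k) (n : ℤ) (x : X.V) : Prop := x ∈ X.gr n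

/-- The differential of the element `x`. -/
def Cpx.D {k : Type} [Field k] (X : Cpx.{v} k) (x : X.V) : X.V := X.d x

/-- The element `x` is a cocycle of degree `n`. -/
def Cpx.Cocycle {k : Type} [Field k] (X : Cpx.{v} k) (n : ℤ) (x : X.V) : Prop :=
  x ∈ X.gr n ∧ X.d x = 0

/-- The element `x + (-1)^i y`. -/
def Cpx.addSign {k : Type} [Field k] (X : Cpx.{v} k) (i : ℤ) (x y : X.V) : X.V :=
  x + i.negOnePow • y

/-- The sum of a finite family. -/
def Cpx.sum {k : Type} [Field k] (X : Cpx.{v} k) {n : ℕ} (x : Fin n → X.V) : X.V := ∑ i, x i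

/-- The linear maps between the total spaces of two complexes. -/
abbrev Cpx.LMap {k : Type} [Field k] (X : Cpx.{v₁} k) (Y : Cpx.{v₂} k) := X.V →ₗ[k] Y.V

/-- The value of a linear map. -/
def Cpx.ev {k : Type} [Field k] {X : Cpx.{v₁} k} {Y : Cpx.{v₂} k} (f : X.LMap Y) (x : X.V) : Y.V :=
  f x

/-- The bilinear maps between the total spaces of complexes. -/
abbrev Cpx.BMap {k : Type} [Field k] (X : Cpx.{v₁} k) (Y : Cpx.{v₂} k) (Z : Cpx.{v₃} k) :=
  X.V →ₗ[k] Y.V →ₗ[k] Z.V

/-- The value of a bilinear map. -/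
def Cpx.ev₂ {k : Type} [Field k] {X : Cpx.{v₁} k} {Y : Cpx.{v₂} k} {Z : Cpx.{v₃} k}
    (f : X.BMap Y Z) (x : X.V) (y : Y.V) : Z.V := f x y

/-- A chain map (of degree `0`). -/
@[ext]
structure Cpx.Map {k : Type} [Field k] (X : Cpx.{v₁} k) (Y : Cpx.{v₂} k) where
  /-- the linear map -/
  f : X.LMap Y
  mem : ∀ n x, X.Deg n x → Y.Deg n (Cpx.ev f x)
  comm : ∀ x, Cpx.ev f (X.D x) = Y.D (Cpx.ev f x)

/-- The value of a chain map. -/
def Cpx.Map.ap {k : Type} [Field k] {X : Cpx.{v₁} k} {Y : Cpx.{v₂} k} (φ : X.Map Y) (x : X.V) :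
    Y.V := φ.f x

/-- The identity. -/
def Cpx.Map.id {k : Type} [Field k] (X : Cpx.{v₁} k) : X.Map X where
  f := LinearMap.id
  mem := fun _ _ h => h
  comm := fun _ => rfl

/-- The composite of two chain maps. -/
def Cpx.Map.comp {k : Type} [Field k] {X : Cpx.{v₁} k} {Y : Cpx.{v₂} k} {Z : Cpx.{v₃} k}
    (φ : X.Map Y) (ψ : Y.Map Z) : X.Map Z where
  f := ψ.f ∘ₗ φ.f
  mem := fun n x h => ψ.mem n _ (φ.mem n x h)
  comm := fun x => (congrArg ψ.f (φ.comm x)).trans (ψ.comm _)

/-- A chain map is a quasi-isomorphism if it is bijective on cohomology `ker d / im d` (injectivity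
and surjectivity are spelled out). -/
def Cpx.Map.IsQuasiIso {k : Type} [Field k] {X : Cpx.{v₁} k} {Y : Cpx.{v₂} k}
    (φ : X.Map Y) : Prop :=
  (∀ a, X.D a = 0 → (∃ b, Y.D b = φ.ap a) → ∃ a', X.D a' = a) ∧
    (∀ b, Y.D b = 0 → ∃ a, X.D a = 0 ∧ ∃ b', Y.D b' = b - φ.ap a)

/-- A chain map `X ⊗ Y → Z` (of degree `0`), as a bilinear map. -/
structure Pairing {k : Type} [Field k] (X : Cpx.{v₁} k) (Y : Cpx.{v₂} k) (Z : Cpx.{v₃} k) where
  /-- the bilinear map -/
  m : X.BMap Y Z
  mem : ∀ i j x y, X.Deg i x → Y.Deg j y → Z.Deg (i + j) (Cpx.ev₂ m x y)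
  leibniz : ∀ i x y, X.Deg i x →
    Z.D (Cpx.ev₂ m x y) = Z.addSign i (Cpx.ev₂ m (X.D x) y) (Cpx.ev₂ m x (Y.D y))

/-- The values of a pairing. -/
def Pairing.ap {k : Type} [Field k] {X : Cpx.{v₁} k} {Y : Cpx.{v₂} k} {Z : Cpx.{v₃} k}
    (p : Pairing X Y Z) (x : X.V) (y : Y.V) : Z.V := p.m x y

/-- A dg category over `k`: the composition `(mul x y z).ap g f` of `f : x → y` and
`g : y → z` is a chain map `Hom y z ⊗ Hom x y → Hom x z`. -/
structure DGCat (k : Type) [Field k] where
  /-- the objects -/
  Obj : Type u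
  /-- the complexes of morphisms -/
  Hom : Obj → Obj → Cpx.{v} k
  /-- the identities -/
  one : ∀ x, (Hom x x).V
  /-- the composition -/
  mul : ∀ x y z, Pairing (Hom y z) (Hom x y) (Hom x z)
  one_mem : ∀ x, (Hom x x).Deg 0 (one x)
  one_mul : ∀ x y f, (mul x y y).ap (one y) f = f
  mul_one : ∀ x y f, (mul x x y).ap f (one x) = f
  mul_assoc : ∀ w x y z h g f,
    (mul w x z).ap ((mul x y z).ap h g) f = (mul w y z).ap h ((mul w x y).ap g f)

/-- A dg functor. -/
structure DGFun {k : Type} [Field k] (A : DGCat.{v₁, u₁} k) (B : DGCat.{v₂, u₂} k) where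
  /-- the map on objects -/
  obj : A.Obj → B.Obj
  /-- the maps on morphisms -/
  map : ∀ x y, (A.Hom x y).Map (B.Hom (obj x) (obj y))
  map_one : ∀ x, (map x x).ap (A.one x) = B.one (obj x)
  map_mul : ∀ x y z g f, (map x z).ap ((A.mul x y z).ap g f) =
    (B.mul (obj x) (obj y) (obj z)).ap ((map y z).ap g) ((map x y).ap f)

/-- The identity functor. -/
def DGFun.id {k : Type} [Field k] (A : DGCat.{v₁, u₁} k) : DGFun A A where
  obj := fun x => x
  map := fun x y => Cpx.Map.id (A.Hom x y)
  map_one := fun _ => rfl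
  map_mul := fun _ _ _ _ _ => rfl

/-- The composite of two dg functors. -/
def DGFun.comp {k : Type} [Field k] {A : DGCat.{v₁, u₁} k} {B : DGCat.{v₂, u₂} k}
    {C : DGCat.{v₃, u₃} k} (F : DGFun A B) (G : DGFun B C) : DGFun A C where
  obj := fun x => G.obj (F.obj x)
  map := fun x y => (F.map x y).comp (G.map (F.obj x) (F.obj y))
  map_one := fun x => (congrArg (G.map _ _).f (F.map_one x)).trans (G.map_one _)
  map_mul := fun x y z g f =>
    (congrArg (G.map _ _).f (F.map_mul x y z g f)).trans (G.map_mul _ _ _ _ _)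

instance DGCat.categoryStruct (k : Type) [Field k] :
    CategoryTheory.CategoryStruct (DGCat.{v, u} k) where
  Hom := DGFun
  id := DGFun.id
  comp := DGFun.comp

/-- The category of (small) dg categories and dg functors. -/
instance DGCat.category (k : Type) [Field k] : CategoryTheory.Category (DGCat.{v, u} k) where
  id_comp := fun _ => rfl
  comp_id := fun _ => rfl
  assoc := fun _ _ _ => rfl

theorem unit_internal (k : Type) [Field k] (V : Type) [AddCommGroup V] [Module k V] :
    DirectSum.IsInternal (fun n : ℤ => if n = 0 then (⊤ : Submodule k V) else ⊥) := by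
  classical
  rw [DirectSum.isInternal_submodule_iff_iSupIndep_and_iSup_eq_top]
  constructor
  · rw [iSupIndep_def]
    intro i
    by_cases hi : i = 0
    · subst hi
      have : (⨆ j, ⨆ (_ : j ≠ (0 : ℤ)), (if j = 0 then (⊤ : Submodule k V) else ⊥)) = ⊥ := by
        simp only [iSup_eq_bot]
        intro j hj
        simp [hj]
      rw [this]
      exact disjoint_bot_right
    · simp [hi]
  · apply le_antisymm le_top
    exact le_iSup_of_le 0 (by simp)

/-- The field `k` as a complex concentrated in degree `0`. -/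
def Cpx.unit (k : Type) [Field k] : Cpx.{0} k where
  V := k
  gr n := if n = 0 then ⊤ else ⊥
  internal := unit_internal k k
  d := 0
  d_mem := fun _ _ _ => Submodule.zero_mem _
  d_d := fun _ => rfl

theorem unit_mul_mem (k : Type) [Field k] (i j : ℤ) (x y : k)
    (hx : x ∈ (if i = 0 then (⊤ : Submodule k k) else ⊥))
    (hy : y ∈ (if j = 0 then (⊤ : Submodule k k) else ⊥)) :
    x * y ∈ (if i + j = 0 then (⊤ : Submodule k k) else ⊥) := by
  by_cases hi : i = 0
  · by_cases hj : j = 0
    · subst hi hj; simp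
    · simp only [hj, if_false, Submodule.mem_bot] at hy
      simp [hy]
  · simp only [hi, if_false, Submodule.mem_bot] at hx
    simp [hx]

theorem unit_leibniz (k : Type) [Field k] (i : ℤ) (x y : k) :
    (0 : k) = 0 * y + i.negOnePow • (x * 0) := by
  simp

/-- The multiplication of `k` as a pairing. -/
def Cpx.unitMul (k : Type) [Field k] : Pairing (Cpx.unit k) (Cpx.unit k) (Cpx.unit k) where
  m := LinearMap.mul k k
  mem := unit_mul_mem k
  leibniz := fun i x y _ => unit_leibniz k i x y

theorem unit_one_mem (k : Type) [Field k] :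
    (1 : k) ∈ (if (0 : ℤ) = 0 then (⊤ : Submodule k k) else ⊥) := by simp

/-- The dg category with one object and endomorphism algebra `k` (in degree `0`). -/
def DGCat.base (k : Type) [Field k] : DGCat.{0, 0} k where
  Obj := Unit
  Hom := fun _ _ => Cpx.unit k
  one := fun _ => (1 : k)
  mul := fun _ _ _ => Cpx.unitMul k
  one_mem := fun _ => unit_one_mem k
  one_mul := fun _ _ f => _root_.one_mul (show k from f)
  mul_one := fun _ _ f => _root_.mul_one (show k from f)
  mul_assoc := fun _ _ _ _ h g f =>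
    _root_.mul_assoc (show k from h) (show k from g) (show k from f)

/-- The dg category without objects. -/
def DGCat.empty (k : Type) [Field k] : DGCat.{0, 0} k where
  Obj := Empty
  Hom := fun _ _ => Cpx.unit k
  one := fun x => x.elim
  mul := fun x _ _ => x.elim
  one_mem := fun x => x.elim
  one_mul := fun x _ => x.elim
  mul_one := fun x _ => x.elim
  mul_assoc := fun w _ _ _ => w.elim

/-- The dg functor `F : A → B` is a Morita equivalence of the following elementary kind: it is
quasi-fully faithful, and every object `b` of `B` is, in the homotopy category `H⁰(B)`, a direct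
summand of a finite direct sum of objects of the form `F a`; the latter means that the
identity of `b` is homotopic to a finite sum of composites `b → F a → b`. -/
def IsMorita {k : Type} [Field k] {A : DGCat.{v₁, u₁} k} {B : DGCat.{v₂, u₂} k}
    (F : DGFun A B) : Prop :=
  (∀ x y, (F.map x y).IsQuasiIso) ∧
  ∀ b : B.Obj, ∃ (n : ℕ) (a : Fin n → A.Obj) (p : ∀ i, (B.Hom b (F.obj (a i))).V)
    (q : ∀ i, (B.Hom (F.obj (a i)) b).V) (h : (B.Hom b b).V),
    (∀ i, (B.Hom b (F.obj (a i))).Cocycle 0 (p i)) ∧
    (∀ i, (B.Hom (F.obj (a i)) b).Cocycle 0 (q i)) ∧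
    (B.Hom b b).Deg (-1) h ∧
    (B.Hom b b).D h =
      B.one b - (B.Hom b b).sum (fun i => (B.mul b (F.obj (a i)) b).ap (q i) (p i))

/-- A dg bimodule over the dg category `A`. -/
structure Bimod {k : Type} [Field k] (A : DGCat.{0, 0} k) where
  /-- the complexes -/
  M : A.Obj → A.Obj → Cpx.{0} k
  /-- the left action -/
  l : ∀ x y z, Pairing (A.Hom y z) (M x y) (M x z)
  /-- the right action -/
  r : ∀ x y z, Pairing (M y z) (A.Hom x y) (M x z)
  l_one : ∀ x y m, (l x y y).ap (A.one y) m = m
  r_one : ∀ x y m, (r x x y).ap m (A.one x) = m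
  l_l : ∀ w x y z a b m, (l w x z).ap ((A.mul x y z).ap a b) m = (l w y z).ap a ((l w x y).ap b m)
  r_r : ∀ w x y z m a b, (r w y z).ap m ((A.mul w x y).ap a b) = (r w x z).ap ((r x y z).ap m a) b
  l_r : ∀ w x y z a m b, (l w y z).ap a ((r w x y).ap m b) = (r w x z).ap ((l x y z).ap a m) b

/-- A map of dg bimodules (of degree `0` and commuting with the differentials). -/
structure Bimod.Map {k : Type} [Field k] {A : DGCat.{0, 0} k} (M N : Bimod A) where
  /-- the chain maps -/
  f : ∀ x y, (M.M x y).Map (N.M x y)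
  f_l : ∀ x y z a m, (f x z).ap ((M.l x y z).ap a m) = (N.l x y z).ap a ((f x y).ap m)
  f_r : ∀ x y z m a, (f x z).ap ((M.r x y z).ap m a) = (N.r x y z).ap ((f y z).ap m) a

/-- `0 → L → M → N → 0` is a short exact sequence of dg bimodules. -/
def Bimod.ShortExact {k : Type} [Field k] {A : DGCat.{0, 0} k} {L M N : Bimod A}
    (f : L.Map M) (g : M.Map N) : Prop :=
  ∀ x y, Function.Injective (f.f x y).ap ∧ Function.Surjective (g.f x y).ap ∧
    ∀ m, (g.f x y).ap m = 0 ↔ ∃ l, (f.f x y).ap l = m

/-- The tensor product of the total spaces of two complexes. -/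
abbrev Cpx.Tensor {k : Type} [Field k] (X Y : Cpx.{0} k) := X.V ⊗[k] Y.V

/-- The map `A(y, z) ⊗ A(w, x) → M(w, z)`, `a ⊗ b ↦ a e b` given by an element `e ∈ M(x, y)`. -/
noncomputable def Bimod.gen {k : Type} [Field k] {A : DGCat.{0, 0} k} (M : Bimod A) {x y : A.Obj}
    (e : (M.M x y).V) (w z : A.Obj) (t : (A.Hom y z).Tensor (A.Hom w x)) : (M.M w z).V :=
  TensorProduct.lift ((M.r w x z).m.comp ((M.l x y z).m.flip e)) t

/-- The dg bimodule `M` is free on a finite family `e i ∈ M (x i, y i)` of closed homogeneous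
generators: the natural maps from `⨁ i, A(y i, z) ⊗ A(w, x i)` to `M(w, z)` are
bijective.  (These are the finite direct sums of shifts of representable dg bimodules.) -/
def Bimod.IsFree {k : Type} [Field k] {A : DGCat.{0, 0} k} (M : Bimod A) : Prop :=
  ∃ (n : ℕ) (x y : Fin n → A.Obj) (δ : Fin n → ℤ) (e : ∀ i, (M.M (x i) (y i)).V),
    (∀ i, (M.M (x i) (y i)).Cocycle (δ i) (e i)) ∧
    ∀ w z, Function.Bijective (fun t : (∀ i, (A.Hom (y i) z).Tensor (A.Hom w (x i))) =>
      (M.M w z).sum (fun i => M.gen (e i) w z (t i)))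

/-- The perfect dg bimodules: the thick subcategory of the derived category of dg bimodules
generated by the representable ones, that is, the smallest class of dg bimodules that contains the
finitely generated free ones and is closed under quasi-isomorphism, under two-out-of-three in
short exact sequences (equivalently, under shifts, cones and extensions) and under direct
summands.  These are the compact objects of the derived category of dg bimodules. -/
inductive Bimod.IsPerfect {k : Type} [Field k] {A : DGCat.{0, 0} k} : Bimod A → Prop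
  | free {M : Bimod A} : M.IsFree → IsPerfect M
  | of_qis_left {M N : Bimod A} (f : M.Map N) (hf : ∀ x y, (f.f x y).IsQuasiIso) :
      IsPerfect M → IsPerfect N
  | of_qis_right {M N : Bimod A} (f : M.Map N) (hf : ∀ x y, (f.f x y).IsQuasiIso) :
      IsPerfect N → IsPerfect M
  | ses_left {L M N : Bimod A} (f : L.Map M) (g : M.Map N) (h : Bimod.ShortExact f g) :
      IsPerfect M → IsPerfect N → IsPerfect L
  | ses_mid {L M N : Bimod A} (f : L.Map M) (g : M.Map N) (h : Bimod.ShortExact f g) :
      IsPerfect L → IsPerfect N → IsPerfect M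
  | ses_right {L M N : Bimod A} (f : L.Map M) (g : M.Map N) (h : Bimod.ShortExact f g) :
      IsPerfect L → IsPerfect M → IsPerfect N
  | summand {M N : Bimod A} (i : M.Map N) (r : N.Map M)
      (h : ∀ x y m, (r.f x y).ap ((i.f x y).ap m) = m) : IsPerfect N → IsPerfect M

/-- The diagonal bimodule. -/
def DGCat.diag {k : Type} [Field k] (A : DGCat.{0, 0} k) : Bimod A where
  M := A.Hom
  l := A.mul
  r := A.mul
  l_one := A.one_mul
  r_one := A.mul_one
  l_l := A.mul_assoc
  r_r := fun w x y z m a b => (A.mul_assoc w x y z m a b).symm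
  l_r := fun w x y z a m b => (A.mul_assoc w x y z a m b).symm

/-- A dg category is smooth (Kontsevich) if its diagonal bimodule is perfect. -/
def IsSmooth {k : Type} [Field k] (A : DGCat.{0, 0} k) : Prop := A.diag.IsPerfect

end Pool.Agent.TH137.NC
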