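import Pool.Agent.TH137.DG.Grading

/-!
# Tensor products of complexes
-/

set_option autoImplicit false

open TensorProduct

namespace Pool.Agent.TH137.DG

section

variable {k : Type} [Field k] {V W : Type} [AddCommGroup V] [Module k V] [AddCommGroup W]
  [Module k W] (X : Cx k V) (Y : Cx k W)

/-- the grading of the tensor product, shifted by `s` -/
def tGr (s n : ℤ) : Submodule k (V ⊗[k] W) :=
  Submodule.span k {t | ∃ i j v w, v ∈ X.gr i ∧ w ∈ Y.gr j ∧ i + j + s = n ∧ t = v ⊗ₜ w}

variable {X Y}

lemma tmul_mem {s n i j : ℤ} {v : V} {w : W} (hv : v ∈ X.gr i) (hw : w ∈ Y.gr j)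
    (h : i + j + s = n) : v ⊗ₜ[k] w ∈ tGr X Y s n :=
  Submodule.subset_span ⟨i, j, v, w, hv, hw, h, rfl⟩

lemma tGr_induct {s n : ℤ} {p : (t : V ⊗[k] W) → t ∈ tGr X Y s n → Prop}
    (h : ∀ i j v w (hv : v ∈ X.gr i) (hw : w ∈ Y.gr j) (e : i + j + s = n),
      p (v ⊗ₜ w) (tmul_mem hv hw e)) (h0 : p 0 (Submodule.zero_mem _))
    (hadd : ∀ a b ha hb, p a ha → p b hb → p (a + b) (Submodule.add_mem _ ha hb))
    (hs : ∀ (c : k) a ha, p a ha → p (c • a) (Submodule.smul_mem _ c ha))
    {t : V ⊗[k] W} (ht : t ∈ tGr X Y s n) : p t ht := by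
  induction ht using Submodule.span_induction with
  | mem x hx =>
    obtain ⟨i, j, v, w, hv, hw, e, rfl⟩ := hx
    exact h i j v w hv hw e
  | zero => exact h0
  | add x y hx' hy' hx hy => exact hadd _ _ hx' hy' hx hy
  | smul c x hx' hx => exact hs c _ hx' hx

variable (X Y) in
lemma t_induct {p : V ⊗[k] W → Prop} (t : V ⊗[k] W)
    (h : ∀ i j v w, v ∈ X.gr i → w ∈ Y.gr j → p (v ⊗ₜ w)) (h0 : p 0)
    (hadd : ∀ a b, p a → p b → p (a + b)) : p t := by
  induction t using TensorProduct.induction_on with
  | zero => exact h0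
  | tmul v w =>
    induction v using X.induct with
    | hom i v hv =>
      induction w using Y.induct with
      | hom j w hw => exact h i j v w hv hw
      | h0 => rw [tmul_zero]; exact h0
      | hadd a b ha hb => rw [tmul_add]; exact hadd _ _ ha hb
    | h0 => rw [zero_tmul]; exact h0
    | hadd a b ha hb => rw [add_tmul]; exact hadd _ _ ha hb
  | add a b ha hb => exact hadd _ _ ha hb

variable (X Y)

/-- the bihomogeneous components -/
noncomputable def pr2 (i j : ℤ) : V ⊗[k] W →ₗ[k] V ⊗[k] W := TensorProduct.map (X.pr i) (Y.pr j)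

lemma pr2_ext (t : V ⊗[k] W) : ∃ F : Finset (ℤ × ℤ), ∀ F', F ⊆ F' →
    ∑ p ∈ F', pr2 X Y p.1 p.2 t = t := by
  induction t using t_induct X Y with
  | h i j v w hv hw =>
    refine ⟨{(i, j)}, fun F' hF => ?_⟩
    rw [Finset.sum_eq_single (i, j)]
    · simp [pr2, X.pr_same hv, Y.pr_same hw]
    · rintro ⟨a, b⟩ _ hab
      rw [pr2, TensorProduct.map_tmul]
      by_cases ha : i = a
      · have hb : j ≠ b := by
          rintro rfl
          exact hab (by rw [ha])
        rw [Y.pr_ne hw hb, tmul_zero]
      · rw [X.pr_ne hv ha, zero_tmul]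
    · intro h
      exact absurd (hF (Finset.mem_singleton_self _)) h
  | h0 => exact ⟨∅, fun F' _ => by simp⟩
  | hadd a b ha hb =>
    classical
    obtain ⟨F, hF⟩ := ha
    obtain ⟨G, hG⟩ := hb
    refine ⟨F ∪ G, fun F' hF' => ?_⟩
    simp only [map_add, Finset.sum_add_distrib]
    rw [hF _ (Finset.union_subset_left hF'), hG _ (Finset.union_subset_right hF')]

lemma tGr_internal (s : ℤ) : DirectSum.IsInternal (tGr X Y s) := by
  classical
  apply internal_of_sep (W := ℤ → V ⊗[k] W) (tGr X Y s) _
    (fun n => LinearMap.pi fun i => pr2 X Y i (n - s - i))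
  · intro n t ht h
    obtain ⟨F, hF⟩ := pr2_ext X Y t
    rw [← hF F (Finset.Subset.refl _)]
    apply Finset.sum_eq_zero
    rintro ⟨i, j⟩ _
    by_cases hj : j = n - s - i
    · subst hj
      exact congrFun h i
    · clear h hF
      induction ht using tGr_induct with
      | h a b v w hv hw e =>
        rw [pr2, TensorProduct.map_tmul]
        by_cases hi : a = i
        · have hb : b ≠ j := by
            intro hb
            apply hj
            omega
          rw [Y.pr_ne hw hb, tmul_zero]
        · rw [X.pr_ne hv hi, zero_tmul]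
      | h0 => simp
      | hadd a b _ _ ha hb => rw [map_add, ha, hb, add_zero]
      | hs c a _ ha => rw [map_smul, ha, smul_zero]
  · intro n m t hnm ht
    induction ht using tGr_induct with
    | h a b v w hv hw e =>
      funext i
      simp only [LinearMap.pi_apply, Pi.zero_apply]
      rw [pr2, TensorProduct.map_tmul]
      by_cases hi : a = i
      · rw [Y.pr_ne hw (by omega), tmul_zero]
      · rw [X.pr_ne hv hi, zero_tmul]
    | h0 => simp
    | hadd a b _ _ ha hb => rw [map_add, ha, hb, add_zero]
    | hs c a _ ha => rw [map_smul, ha, smul_zero]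
  · intro t
    induction t using t_induct X Y with
    | h i j v w hv hw =>
      exact (le_iSup (tGr X Y s) (i + j + s)) (tmul_mem hv hw rfl)
    | h0 => exact Submodule.zero_mem _
    | hadd a b ha hb => exact Submodule.add_mem _ ha hb

/-- the differential of the tensor product, with a sign depending on `s` -/
noncomputable def tD (s : ℤ) : V ⊗[k] W →ₗ[k] V ⊗[k] W :=
  TensorProduct.map X.d LinearMap.id + s.negOnePow • TensorProduct.map X.par Y.d

lemma tD_tmul (s : ℤ) (v : V) (w : W) : tD X Y s (v ⊗ₜ w) =
    X.d v ⊗ₜ w + s.negOnePow • (X.par v ⊗ₜ Y.d w) := by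
  simp only [tD, LinearMap.add_apply, LinearMap.smul_apply, TensorProduct.map_tmul,
    LinearMap.id_apply]

lemma tD_mem (s n : ℤ) {t : V ⊗[k] W} (ht : t ∈ tGr X Y s n) : tD X Y s t ∈ tGr X Y s (n + 1) := by
  induction ht using tGr_induct with
  | h i j v w hv hw e =>
    rw [tD_tmul]
    apply Submodule.add_mem
    · exact tmul_mem (X.d_mem hv) hw (by omega)
    · have h1 : X.par v ⊗ₜ[k] Y.d w ∈ tGr X Y s (n + 1) :=
        tmul_mem (X.par_mem hv) (Y.d_mem hw) (by omega)
      rcases Int.even_or_odd s with hs | hs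
      · simpa [Int.negOnePow_even _ hs] using h1
      · simpa [Int.negOnePow_odd _ hs] using h1
  | h0 => simp
  | hadd a b _ _ ha hb => rw [map_add]; exact Submodule.add_mem _ ha hb
  | hs c a _ ha => rw [map_smul]; exact Submodule.smul_mem _ _ ha

lemma tD_tD (s : ℤ) (t : V ⊗[k] W) : tD X Y s (tD X Y s t) = 0 := by
  induction t using TensorProduct.induction_on with
  | zero => simp
  | tmul v w =>
    rw [tD_tmul, map_add, LinearMap.map_smul_of_tower, tD_tmul, tD_tmul, X.d_d, Y.d_d,
      X.par_d]
    rcases Int.even_or_odd s with hs | hs <;>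
      simp [Int.negOnePow_even, Int.negOnePow_odd, hs, neg_tmul]
  | add a b ha hb => rw [map_add, map_add, ha, hb, add_zero]

/-- the (shifted) tensor product of two complexes -/
noncomputable def tCx (s : ℤ) : Cx k (V ⊗[k] W) where
  gr := tGr X Y s
  internal := tGr_internal X Y s
  d := tD X Y s
  d_mem := fun h => tD_mem X Y s _ h
  d_d := tD_tD X Y s

end

section pi

variable {k : Type} [Field k] {n : ℕ} {V : Type} [AddCommGroup V] [Module k V]
  (X : Fin n → Cx k V)

/-- the product of finitely many complex structures on the same space -/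
noncomputable def piCx : Cx k (Fin n → V) where
  gr m := Submodule.pi Set.univ (fun i => (X i).gr m)
  internal := by
    classical
    apply internal_of_sep (W := Fin n → V) _ _
      (fun m => LinearMap.pi fun i => ((X i).pr m) ∘ₗ (LinearMap.proj i))
    · intro m t ht h
      rw [Submodule.mem_pi] at ht
      funext i
      have h1 := congrFun h i
      simp only [LinearMap.pi_apply, LinearMap.comp_apply, LinearMap.proj_apply,
        Pi.zero_apply] at h1
      rw [(X i).pr_same (ht i trivial)] at h1
      exact h1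
    · intro m m' t hm ht
      rw [Submodule.mem_pi] at ht
      funext i
      simp only [LinearMap.pi_apply, LinearMap.comp_apply, LinearMap.proj_apply,
        Pi.zero_apply]
      exact (X i).pr_ne (ht i trivial) (Ne.symm hm)
    · intro t
      rw [← Finset.univ_sum_single t]
      apply Submodule.sum_mem
      intro i _
      induction t i using (X i).induct with
      | hom m x hx =>
        apply (le_iSup (fun m => Submodule.pi Set.univ (fun i => (X i).gr m)) m)
        rw [Submodule.mem_pi]
        intro j _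
        by_cases hj : j = i
        · subst hj; simpa using hx
        · rw [Pi.single_eq_of_ne hj]; exact Submodule.zero_mem _
      | h0 => simp
      | hadd x y hx hy => rw [Pi.single_add]; exact Submodule.add_mem _ hx hy
  d := LinearMap.pi fun i => (X i).d ∘ₗ (LinearMap.proj i)
  d_mem := fun {m t} ht => by
    rw [Submodule.mem_pi] at ht ⊢
    intro i hi
    exact (X i).d_mem (ht i hi)
  d_d := fun t => by
    funext i
    exact (X i).d_d (t i)

lemma mem_piCx {m : ℤ} {t : Fin n → V} : t ∈ (piCx X).gr m ↔ ∀ i, t i ∈ (X i).gr m := by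
  change t ∈ Submodule.pi Set.univ (fun i => (X i).gr m) ↔ _
  rw [Submodule.mem_pi]
  exact ⟨fun h i => h i trivial, fun h i _ => h i⟩

lemma piCx_d (t : Fin n → V) (i : Fin n) : (piCx X).d t i = (X i).d (t i) := rfl

end pi

section sub

variable {k : Type} [Field k] {V W : Type} [AddCommGroup V] [Module k V] [AddCommGroup W]
  [Module k W] (X : Cx k V) (Y : Cx k W)

lemma Cx.sum_pr (x : V) : ∃ F : Finset ℤ, ∀ F', F ⊆ F' → ∑ n ∈ F', X.pr n x = x := by
  induction x using X.induct with
  | hom i v hv =>
    refine ⟨{i}, fun F' hF => ?_⟩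
    rw [Finset.sum_eq_single i]
    · exact X.pr_same hv
    · intro j _ hj
      exact X.pr_ne hv (Ne.symm hj)
    · intro h
      exact absurd (hF (Finset.mem_singleton_self _)) h
  | h0 => exact ⟨∅, fun F' _ => by simp⟩
  | hadd a b ha hb =>
    classical
    obtain ⟨F, hF⟩ := ha
    obtain ⟨G, hG⟩ := hb
    refine ⟨F ∪ G, fun F' hF' => ?_⟩
    simp only [map_add, Finset.sum_add_distrib]
    rw [hF _ (Finset.union_subset_left hF'), hG _ (Finset.union_subset_right hF')]

lemma pr_comm {f : V →ₗ[k] W} (hf : ∀ n x, x ∈ X.gr n → f x ∈ Y.gr n) (n : ℤ) (x : V) :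
    f (X.pr n x) = Y.pr n (f x) := by
  induction x using X.induct with
  | hom m x hx =>
    by_cases h : m = n
    · subst h; rw [X.pr_same hx, Y.pr_same (hf m x hx)]
    · rw [X.pr_ne hx h, Y.pr_ne (hf m x hx) h, map_zero]
  | h0 => simp
  | hadd x y hx hy => simp [hx, hy]

/-- the kernel of a chain map -/
noncomputable def kerCx (f : V →ₗ[k] W) (hf : IsChainMap X Y f) : Cx k (LinearMap.ker f) where
  gr n := (X.gr n).comap (LinearMap.ker f).subtype
  internal := by
    apply internal_of_sep (W := V) _ _ (fun n => X.pr n ∘ₗ (LinearMap.ker f).subtype)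
    · rintro n ⟨x, hx⟩ h hz
      apply Subtype.ext
      have h' : x ∈ X.gr n := h
      change x = 0
      rw [← X.pr_same h']; exact hz
    · rintro n m ⟨x, hx⟩ hnm h
      exact X.pr_ne (show x ∈ X.gr m from h) (Ne.symm hnm)
    · rintro ⟨x, hx⟩
      have hp : ∀ n, X.pr n x ∈ LinearMap.ker f := by
        intro n
        rw [LinearMap.mem_ker, pr_comm X Y hf.1, LinearMap.mem_ker.1 hx, map_zero]
      obtain ⟨F, hF⟩ := X.sum_pr x
      have e : (⟨x, hx⟩ : LinearMap.ker f) = ∑ n ∈ F, ⟨X.pr n x, hp n⟩ := by
        apply Subtype.ext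
        rw [AddSubmonoidClass.coe_finsetSum]
        exact (hF F (Finset.Subset.refl _)).symm
      rw [e]
      apply Submodule.sum_mem
      intro n _
      exact (le_iSup (fun n => (X.gr n).comap (LinearMap.ker f).subtype) n) (X.pr_mem n x)
  d := X.d.restrict (p := LinearMap.ker f) (q := LinearMap.ker f) fun x hx => by
    rw [LinearMap.mem_ker, hf.2, LinearMap.mem_ker.1 hx, map_zero]
  d_mem := fun {n x} h => X.d_mem (show (x : V) ∈ X.gr n from h)
  d_d := fun x => Subtype.ext (X.d_d _)

end sub

end Pool.Agent.TH137.DG
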